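import Pool.Agent.Lib.MP_0775d3_lc.Cf.CalcC

/-! `TD` from the same property of smaller groups. -/

set_option linter.unusedSectionVars false
set_option linter.unusedVariables false

namespace MP0775d3.Cf

open Matrix MP0775d3.Sl2 MP0775d3.Solv

theorem TD.mono {Q : Type} [Group Q] {α : Coc Q} {w s w' s' : ℝ} {t t' : ℕ} (h : TD w s t α)
    (hw : w ≤ w') (hs : s ≤ s') (ht : t ≤ t') (hs' : 1 ≤ s') : TD w' s' t' α := by
  obtain ⟨Z, i1, i2, U, U', hU, hU', h3⟩ := h
  exact ⟨Z, i1, i2, U, U', hU.mono hw hs ht hs', hU'.mono hw hs ht hs', h3⟩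

/-- PROOF. `Z i`, `V i`, `V' i` from `hβ i`; `Z = Σ i, Z i`,
`E p ⟨i, z⟩ = u p * V i (x i p) z` if `a p = i`, else `0`: this is the matrix `blockDiagonal' V` with
rows `p ↦ ⟨a p, x (a p) p⟩` (injective), scaled: `bx_sigma`, `Bx.submatrix`, `Bx.scale`, `Bx.mono`; the
same for `E'` with `V'`, `v`. New matrices `U * E`, `E' * U'` (`Bx.mul`), new vector
`d ⟨i, z⟩ = d i z`, `d i` from `hβ i` for `c' i`. -/
theorem td_of_blocks {Q J I : Type} [Group Q] [Fintype J] [DecidableEq J] [Fintype I]
    [DecidableEq I] (α : Coc Q) (U : Matrix Q J ℂ) (U' : Matrix J Q ℂ) {w s : ℝ} {tU t : ℕ}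
    (hs : 1 ≤ s) (ht : 1 ≤ t) (hU : Bx w s tU U) (hU' : Bx w s tU U') (a : J → I)
    (G : I → Type) [∀ i, Group (G i)] (β : ∀ i, Coc (G i)) (x : ∀ i, J → G i)
    (hx : ∀ i p q, a p = i → a q = i → x i p = x i q → p = q) (w' : I → ℝ)
    (hβ : ∀ i, TD (w' i) s t (β i)) (hw : ∑ i, w' i ≤ w) (u v : J → ℂ)
    (hD : ∀ c, Central α c → ∃ c' : ∀ i, G i → ℂ, (∀ i, Central (β i) (c' i)) ∧
      tmat α c = U * (Matrix.of fun p q => if a p = a q then
        u p * tmat (β (a q)) (c' (a q)) (x (a q) p) (x (a q) q) * v q else 0) * U') :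
    TD w s (tU + t + 1) α := by
  choose Z hZ1 hZ2 V V' hV hV' hd using hβ
  have hf : Function.Injective fun p : J => (⟨a p, x (a p) p⟩ : Σ i, G i) := by
    intro p p' h
    obtain ⟨h1, h2⟩ := Sigma.mk.inj_iff.1 h
    have h3 : ∀ i, a p' = i → HEq (x (a p) p) (x i p') → a p = i → p = p' := by
      rintro i hi h4 rfl
      exact hx (a p) p p' rfl hi (eq_of_heq h4)
    exact h3 (a p') rfl h2 h1
  obtain ⟨E, hE⟩ : ∃ E : Matrix J (Σ i, Z i) ℂ, E = Matrix.of fun p z =>
      if a p = z.1 then u p * V z.1 (x z.1 p) z.2 else 0 := ⟨_, rfl⟩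
  obtain ⟨E', hE'⟩ : ∃ E' : Matrix (Σ i, Z i) J ℂ, E' = Matrix.of fun z q =>
      if a q = z.1 then V' z.1 z.2 (x z.1 q) * v q else 0 := ⟨_, rfl⟩
  have b1 : Bx w s t E := by
    have h1 := ((bx_sigma hV).submatrix hf (g := id) Function.injective_id).scale ht u
      (fun _ => 1)
    have h2 : E = Matrix.of fun p z => u p * ((Matrix.blockDiagonal' V).submatrix
        (fun p : J => (⟨a p, x (a p) p⟩ : Σ i, G i)) id) p z * 1 := by
      ext p ⟨i, z⟩
      rw [hE, Matrix.of_apply, Matrix.of_apply, Matrix.submatrix_apply, mul_one]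
      change (if a p = i then u p * V i (x i p) z else 0) = _
      split_ifs with h
      · subst h
        rw [id, Matrix.blockDiagonal'_apply_eq]
      · rw [id, Matrix.blockDiagonal'_apply_ne _ _ _ h, mul_zero]
    rw [h2]
    exact h1.mono hw le_rfl le_rfl hs
  have b2 : Bx w s t E' := by
    have h1 := ((bx_sigma hV').submatrix (f := id) Function.injective_id hf).scale ht
      (fun _ => 1) v
    have h2 : E' = Matrix.of fun z q => 1 * ((Matrix.blockDiagonal' V').submatrix id
        (fun p : J => (⟨a p, x (a p) p⟩ : Σ i, G i))) z q * v q := by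
      ext ⟨i, z⟩ q
      rw [hE', Matrix.of_apply, Matrix.of_apply, Matrix.submatrix_apply, one_mul]
      change (if a q = i then V' i z (x i q) * v q else 0) = _
      split_ifs with h
      · subst h
        rw [id, Matrix.blockDiagonal'_apply_eq]
      · rw [id, Matrix.blockDiagonal'_apply_ne _ _ _ (fun h' => h h'.symm), zero_mul]
    rw [h2]
    exact h1.mono hw le_rfl le_rfl hs
  refine ⟨Σ i, Z i, inferInstance, inferInstance, U * E, E' * U', hU.mul b1 hs,
    (b2.mul hU' hs).mono le_rfl le_rfl (by omega) hs, fun c hc => ?_⟩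
  obtain ⟨c', hc', hc2⟩ := hD c hc
  choose d hd' using fun i => hd i (c' i) (hc' i)
  refine ⟨fun z => d z.1 z.2, ?_⟩
  have key : (Matrix.of fun p q => if a p = a q then
      u p * tmat (β (a q)) (c' (a q)) (x (a q) p) (x (a q) q) * v q else 0) =
      E * Matrix.diagonal (fun z : Σ i, Z i => d z.1 z.2) * E' := by
    ext p q
    have h1 : (E * Matrix.diagonal (fun z : Σ i, Z i => d z.1 z.2) * E') p q =
        ∑ i, ∑ z : Z i, E p ⟨i, z⟩ * d i z * E' ⟨i, z⟩ q := by
      rw [Matrix.mul_apply, Fintype.sum_sigma]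
      refine Finset.sum_congr rfl fun i _ => Finset.sum_congr rfl fun z _ => ?_
      rw [Matrix.mul_diagonal]
    rw [h1, Finset.sum_eq_single (a q)]
    · rw [Matrix.of_apply]
      by_cases h : a p = a q
      · rw [if_pos h, hd', Matrix.mul_apply, Finset.mul_sum, Finset.sum_mul]
        refine Finset.sum_congr rfl fun z _ => ?_
        rw [Matrix.mul_diagonal, hE, hE', Matrix.of_apply, Matrix.of_apply]
        change _ = (if a p = a q then u p * V (a q) (x (a q) p) z else 0) * d (a q) z *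
          (if a q = a q then V' (a q) z (x (a q) q) * v q else 0)
        rw [if_pos h, if_pos rfl]
        ring
      · rw [if_neg h]
        refine (Finset.sum_eq_zero fun z _ => ?_).symm
        rw [hE, Matrix.of_apply]
        change (if a p = a q then u p * V (a q) (x (a q) p) z else 0) * d (a q) z * _ = 0
        rw [if_neg h, zero_mul, zero_mul]
    · intro i _ hi
      refine Finset.sum_eq_zero fun z _ => ?_
      rw [hE', Matrix.of_apply]
      change _ * (if a q = i then V' i z (x i q) * v q else 0) = 0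
      rw [if_neg (fun h => hi h.symm), mul_zero]
    · intro h
      exact absurd (Finset.mem_univ _) h
  rw [hc2, key]
  simp only [Matrix.mul_assoc]

/-- The trivial group: `Z = Unit`. PROOF. `Z = Q`, `U = U' = 1` (`blk_one`), `d x = tmat α c x x`. -/
theorem td_trivial {Q : Type} [Group Q] [Finite Q] (h : ∀ x : Q, x = 1) (α : Coc Q) {s : ℝ}
    (hs : 1 ≤ s) : TD (Nat.card Q) s 1 α := by
  classical
  have hF : Fintype Q := Fintype.ofFinite Q
  have h1 : (Fintype.card Q : ℝ) ≤ Nat.card Q := by rw [Nat.card_eq_fintype_card]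
  have h2 : Bx (Nat.card Q) s 1 (1 : Matrix Q Q ℂ) := bx_of_blk (blk_one hs) hs h1 h1
  refine ⟨Q, hF, inferInstance, 1, 1, h2, h2, fun c _ => ⟨fun x => tmat α c x x, ?_⟩⟩
  rw [Matrix.one_mul, Matrix.mul_one]
  ext x y
  have hxy : x = y := (h x).trans (h y).symm
  rw [hxy, Matrix.diagonal_apply_eq]

end MP0775d3.Cf
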