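import Pool.Agent.Lib.MP_0775d3_lc.Cf.CalcB

/-! From products of block diagonal matrices to low rank plus sparse (`Bf.width`). -/

set_option linter.unusedSectionVars false
set_option linter.unusedVariables false

namespace MP0775d3.Cf

open Matrix MP0775d3.Kron MP0775d3.Bf

/-- PROOF. The labels in `L` are replaced by natural numbers: `L' = ` the finite set of the labels used
by rows or columns, any injection of it into `ℕ`. -/
theorem isBlock_of_blk {m : ℕ} {s : ℝ} (hs : 0 ≤ s) {M : Matrix (Fin m) (Fin m) ℂ} (h : Blk s M) :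
    IsBlock s M := by
  obtain ⟨L, r, c, h1, h2, h3⟩ := h
  obtain ⟨φ, hφ⟩ := Set.countable_iff_exists_injOn.1
    ((Set.finite_range r).union (Set.finite_range c)).countable
  have key : ∀ u : Fin m → L, (∀ i, u i ∈ Set.range r ∪ Set.range c) →
      (∀ l, (({i | u i = l} : Set (Fin m)).ncard : ℝ) ≤ s) →
      ∀ l : ℕ, (({i | φ (u i) = l} : Set (Fin m)).ncard : ℝ) ≤ s := by
    intro u hu hul l
    by_cases hex : ∃ i, φ (u i) = l
    · obtain ⟨i, hi⟩ := hex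
      have h4 : ({j | φ (u j) = l} : Set (Fin m)) = {j | u j = u i} := by
        ext j
        simp only [Set.mem_ofPred_eq]
        constructor
        · intro h5
          exact hφ (hu j) (hu i) (h5.trans hi.symm)
        · intro h5
          rw [h5, hi]
      rw [h4]
      exact hul _
    · have h4 : ({j | φ (u j) = l} : Set (Fin m)) = ∅ := by
        ext j
        simp only [Set.mem_ofPred_eq, Set.mem_empty_iff_false, iff_false]
        exact fun h5 => hex ⟨j, h5⟩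
      rw [h4, Set.ncard_empty, Nat.cast_zero]
      exact hs
  refine ⟨fun i => φ (r i), fun j => φ (c j), key r (fun i => Or.inl ⟨i, rfl⟩) h1,
    key c (fun i => Or.inr ⟨i, rfl⟩) h2, fun i j hij => ?_⟩
  change φ (r i) = φ (c j)
  rw [h3 i j hij]

/-- PROOF. `width δ ε hδ hε t`, `m = ⌊n ^ (1 + γ)⌋₊`, `Bx.ambient` with `X' = Fin m`: if
`w ≤ n ^ (1 + γ)` then (the real ambient type has `card ≤ m`) `Bx m s t A`. Reindex `X` by
`Fintype.equivFin`. -/
theorem bx_dec (δ ε : ℝ) (hδ : 0 < δ) (hε : 0 < ε) (t : ℕ) : ∃ γ : ℝ, 0 < γ ∧ ∃ n₀ : ℕ,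
    ∀ (X : Type) [Fintype X] [DecidableEq X], n₀ ≤ Fintype.card X → ∀ A : Matrix X X ℂ,
      Bx ((Fintype.card X : ℝ) ^ (1 + γ)) ((Fintype.card X : ℝ) ^ δ) t A →
      Dec A ((Fintype.card X : ℝ) ^ (1 - γ)) ((Fintype.card X : ℝ) ^ (δ + ε)) := by
  obtain ⟨γ, hγ, n₀, h⟩ := width δ ε hδ hε t
  refine ⟨γ, hγ, max n₀ 1, ?_⟩
  intro X _ _ hn A hA
  obtain ⟨n, hnX⟩ : ∃ n, n = Fintype.card X := ⟨_, rfl⟩
  rw [← hnX] at hn hA ⊢
  have hn1 : (1 : ℝ) ≤ n := by exact_mod_cast (le_max_right n₀ 1).trans hn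
  have hs : 1 ≤ (n : ℝ) ^ δ := Real.one_le_rpow hn1 hδ.le
  have hw0 : (0 : ℝ) ≤ (n : ℝ) ^ (1 + γ) := by positivity
  obtain ⟨m, hm⟩ : ∃ m : ℕ, m = ⌊(n : ℝ) ^ (1 + γ)⌋₊ := ⟨_, rfl⟩
  have hA' : Bx (m : ℝ) ((n : ℝ) ^ δ) t A := by
    obtain ⟨X0, i1, i2, M, f, g, h1, h2⟩ := hA
    refine ⟨X0, i1, i2, M, f, g, ?_, h2⟩
    rw [hm]
    exact_mod_cast Nat.le_floor h1
  obtain ⟨M, f, g, hM, hf, hg, hAM⟩ := hA'.ambient hs (Fin m) (by rw [Fintype.card_fin])
  have hmn : (m : ℝ) ≤ (n : ℝ) ^ (1 + γ) := by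
    rw [hm]
    exact Nat.floor_le hw0
  obtain ⟨e⟩ : Nonempty (X ≃ Fin n) := ⟨Fintype.equivFinOfCardEq hnX.symm⟩
  have hd := h n ((le_max_left _ _).trans hn) m hmn ℂ two_ne_zero M
    (fun j => isBlock_of_blk (by linarith) (hM j)) (f ∘ e.symm) (g ∘ e.symm)
    (hf.comp e.symm.injective) (hg.comp e.symm.injective)
  have hd' := MP0775d3.Bf.Dec.sub hd e.injective e.injective
  have h3 : ((List.ofFn M).prod.submatrix (f ∘ e.symm) (g ∘ e.symm)).submatrix e e = A := by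
    rw [hAM, Matrix.submatrix_submatrix]
    congr 1
    · funext x
      simp
    · funext x
      simp
  rwa [h3] at hd'

end MP0775d3.Cf
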