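import Pool.Agent.Lib.MP_0775d3_lc.Cf.BaseGd
import Pool.Agent.Lib.MP_0775d3_lc.Cf.CalcD
import Pool.Agent.Lib.MP_0775d3_lc.Sl2H.Hmat

/-! From `GD` to low rank plus sparse. -/

set_option linter.unusedSectionVars false
set_option linter.unusedVariables false

namespace MP0775d3.Cf

open Matrix MP0775d3.Sl2 MP0775d3.Kron

/-- PROOF. `d = δ ^ 2 / 4`; `η`, `t` from `base_gd d`; `γ₁`, `n₁` from `bx_dec (δ / 2) (δ / 2) (2 t + 3)`;
`e = γ₁ / 2` (or `min`), `h` from `base_gd`; `γ = δ * min γ₁ 1`. Given `A`: `C₀` from `base_gd`. Let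
`n = |G| ≤ A N`. If `n ≤ N ^ δ` or `n ≤ n₂` (a constant that depends on `C₀`, `n₁`, `A`): rank `0`,
sparsity `n`. Otherwise `N ≤ n ^ (1 / δ)`, `C₀ N ^ d ≤ C₀ n ^ (δ / 4) ≤ n ^ (δ / 2)`,
`C₀ n ^ d ≤ n ^ (δ / 2)`, `C₀ n ^ (1 + e) ≤ n ^ (1 + γ₁)`: `GD.bx`, `bx_dec`: rank
`≤ n ^ (1 - γ₁) ≤ n N ^ (- δ γ₁)`, sparsity `≤ n ^ δ ≤ A N ^ δ`. -/
theorem base_gb (δ : ℝ) (hδ : 0 < δ) (hδ1 : δ ≤ 1) : ∃ η : ℝ, 0 < η ∧ ∃ h : ℝ, 0 < h ∧
    ∃ γ : ℝ, 0 < γ ∧ ∀ A : ℝ, 1 ≤ A → ∃ C : ℝ, 1 ≤ C ∧ ∀ N : ℝ, 1 ≤ N →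
      ∀ (k : ℕ) (G : Type) [Group G] [Finite G],
      Mult (fun P _ => IsSymType (N ^ h) P ∧ N ^ η < Nat.card P)
        (fun D _ => HasSeries (N ^ η) D) k G → (Nat.card G : ℝ) ≤ A * N →
      Sl2H.GBound G (Nat.card G * (C * N ^ (-γ))) (C * N ^ δ) := by
  have hd : 0 < δ ^ 2 / 4 := by positivity
  have hd1 : δ ^ 2 / 4 ≤ 1 := by nlinarith
  obtain ⟨η, hη, t, ht, hgd⟩ := base_gd (δ ^ 2 / 4) hd hd1
  obtain ⟨γ₁, hγ₁, n₁, hdec⟩ := bx_dec (δ / 2) (δ / 2) (half_pos hδ) (half_pos hδ) (2 * t + 3)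
  obtain ⟨h, hh, hgd⟩ := hgd (γ₁ / 2) (half_pos hγ₁)
  refine ⟨η, hη, h, hh, δ * γ₁, mul_pos hδ hγ₁, ?_⟩
  intro A hA
  obtain ⟨C₀, hC₀, hgd⟩ := hgd A hA
  have hC₀0 : 0 < C₀ := by linarith
  obtain ⟨X₀, hX₀⟩ : ∃ X₀ : ℝ, X₀ = max (max (C₀ ^ (4 / δ)) (C₀ ^ (2 / γ₁))) (max (n₁ : ℝ) 1) :=
    ⟨_, rfl⟩
  have hX1 : C₀ ^ (4 / δ) ≤ X₀ := by
    rw [hX₀]
    exact (le_max_left _ _).trans (le_max_left _ _)
  have hX2 : C₀ ^ (2 / γ₁) ≤ X₀ := by
    rw [hX₀]
    exact (le_max_right _ _).trans (le_max_left _ _)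
  have hX3 : (n₁ : ℝ) ≤ X₀ := by
    rw [hX₀]
    exact (le_max_left _ _).trans (le_max_right _ _)
  have hX4 : 1 ≤ X₀ := by
    rw [hX₀]
    exact (le_max_right _ _).trans (le_max_right _ _)
  refine ⟨max A X₀, le_max_of_le_left hA, ?_⟩
  intro N hN k G _ _ hG hcard _ f hf
  have hN0 : 0 < N := by linarith
  have hC0 : 0 < max A X₀ := by
    have : A ≤ max A X₀ := le_max_left _ _
    linarith
  obtain ⟨n, hn⟩ : ∃ n : ℝ, n = Nat.card G := ⟨_, rfl⟩
  have hn1 : 1 ≤ n := by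
    rw [hn]
    exact_mod_cast Nat.card_pos
  have hn0 : 0 < n := by linarith
  have hNδ : 1 ≤ N ^ δ := Real.one_le_rpow hN hδ.le
  by_cases hsmall : n ≤ max A X₀ * N ^ δ
  · refine ⟨0, groupMat f, (zero_add _).symm, ?_, fun x => ?_, fun y => ?_⟩
    · rw [Matrix.rank_zero, Nat.cast_zero]
      positivity
    · refine le_trans ?_ hsmall
      rw [hn]
      exact_mod_cast (Set.ncard_le_card _)
    · refine le_trans ?_ hsmall
      rw [hn]
      exact_mod_cast (Set.ncard_le_card _)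
  · have hbig := not_le.1 hsmall
    have hnN : N ^ δ ≤ n := by
      have h1 : N ^ δ ≤ max A X₀ * N ^ δ := by
        have h2 : 1 ≤ max A X₀ := le_max_of_le_left hA
        nlinarith
      linarith
    have hnX : X₀ ≤ n := by
      have h1 : X₀ ≤ max A X₀ * N ^ δ := by
        have h2 : X₀ ≤ max A X₀ := le_max_right _ _
        nlinarith
      linarith
    have hpow : ∀ {a b : ℝ}, a ≤ b → n ^ a ≤ n ^ b := fun hab =>
      Real.rpow_le_rpow_of_exponent_le hn1 hab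
    have hCa : C₀ ≤ n ^ (δ / 4) := by
      calc C₀ = (C₀ ^ (4 / δ)) ^ (δ / 4) := by
            rw [← Real.rpow_mul hC₀0.le]
            have : 4 / δ * (δ / 4) = 1 := by field_simp
            rw [this, Real.rpow_one]
        _ ≤ n ^ (δ / 4) := Real.rpow_le_rpow (by positivity) (hX1.trans hnX) (by positivity)
    have hCb : C₀ ≤ n ^ (γ₁ / 2) := by
      calc C₀ = (C₀ ^ (2 / γ₁)) ^ (γ₁ / 2) := by
            rw [← Real.rpow_mul hC₀0.le]
            have : 2 / γ₁ * (γ₁ / 2) = 1 := by field_simp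
            rw [this, Real.rpow_one]
        _ ≤ n ^ (γ₁ / 2) := Real.rpow_le_rpow (by positivity) (hX2.trans hnX) (by positivity)
    have hw : C₀ * n ^ (1 + γ₁ / 2) ≤ n ^ (1 + γ₁) := by
      calc C₀ * n ^ (1 + γ₁ / 2) ≤ n ^ (γ₁ / 2) * n ^ (1 + γ₁ / 2) :=
            mul_le_mul_of_nonneg_right hCb (by positivity)
        _ = n ^ (1 + γ₁) := by
            rw [← Real.rpow_add hn0]
            congr 1
            ring
    have hNd : N ^ (δ ^ 2 / 4) ≤ n ^ (δ / 4) := by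
      calc N ^ (δ ^ 2 / 4) = (N ^ δ) ^ (δ / 4) := by
            rw [← Real.rpow_mul hN0.le]
            congr 1
            ring
        _ ≤ n ^ (δ / 4) := Real.rpow_le_rpow (by positivity) hnN (by positivity)
    have hdd : n ^ (δ / 4) * n ^ (δ / 4) = n ^ (δ / 2) := by
      rw [← Real.rpow_add hn0]
      congr 1
      ring
    have hs : C₀ * N ^ (δ ^ 2 / 4) ≤ n ^ (δ / 2) := by
      rw [← hdd]
      exact mul_le_mul hCa hNd (by positivity) (by positivity)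
    have hu : C₀ * n ^ (δ ^ 2 / 4) ≤ n ^ (δ / 2) := by
      rw [← hdd]
      exact mul_le_mul hCa (hpow (by nlinarith)) (by positivity) (by positivity)
    have hg := hgd N hN k G hG hcard
    rw [← hn] at hg
    have hs1 : 1 ≤ n ^ (δ / 2) := Real.one_le_rpow hn1 (by positivity)
    have hb := ((hg.mono hw hs hu le_rfl hs1).bx hs1 le_rfl hf)
    classical
    have hcardF : (Fintype.card G : ℝ) = n := by
      rw [hn, Nat.card_eq_fintype_card]
    have hn₁ : n₁ ≤ Fintype.card G := by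
      have : (n₁ : ℝ) ≤ Fintype.card G := by
        rw [hcardF]
        exact hX3.trans hnX
      exact_mod_cast this
    have hD := hdec G hn₁ (groupMat f) (by rw [hcardF]; exact hb)
    rw [hcardF] at hD
    refine (rdec_of_dec hD).mono ?_ ?_
    · rw [← hn]
      have h1 : n ^ (-γ₁) ≤ N ^ (-(δ * γ₁)) := by
        calc n ^ (-γ₁) ≤ (N ^ δ) ^ (-γ₁) :=
              Real.rpow_le_rpow_of_nonpos (by positivity) hnN (by linarith)
          _ = N ^ (-(δ * γ₁)) := by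
              rw [← Real.rpow_mul hN0.le]
              congr 1
              ring
      calc n ^ (1 - γ₁) = n * n ^ (-γ₁) := by
            rw [sub_eq_add_neg, Real.rpow_add hn0, Real.rpow_one]
        _ ≤ n * (max A X₀ * N ^ (-(δ * γ₁))) := by
            refine mul_le_mul_of_nonneg_left ?_ hn0.le
            have h2 : 1 ≤ max A X₀ := le_max_of_le_left hA
            have h3 : 0 < N ^ (-(δ * γ₁)) := by positivity
            nlinarith
    · have e1 : δ / 2 + δ / 2 = δ := by ring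
      rw [e1]
      calc n ^ δ ≤ (A * N) ^ δ := Real.rpow_le_rpow hn0.le (by rw [hn]; exact hcard) hδ.le
        _ = A ^ δ * N ^ δ := Real.mul_rpow (by linarith) hN0.le
        _ ≤ max A X₀ * N ^ δ := by
            refine mul_le_mul_of_nonneg_right ?_ (by positivity)
            calc A ^ δ ≤ A ^ (1 : ℝ) := Real.rpow_le_rpow_of_exponent_le hA hδ1
              _ = A := Real.rpow_one A
              _ ≤ max A X₀ := le_max_left _ _

end MP0775d3.Cf
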