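import Pool.Agent.Lib.MP_0775d3_lc.Cf.FbA

/-! Fourier matrices of all finite abelian groups. -/

set_option linter.unusedSectionVars false
set_option linter.unusedVariables false

namespace MP0775d3.Cf

open Matrix MP0775d3.Bf

private theorem fbB_normal {W : Type} [Group W] (hW : ∀ a b : W, a * b = b * a)
    (V : Subgroup W) : V.Normal :=
  ⟨fun n hn g => by rwa [hW g n, mul_inv_cancel_right]⟩

/-- One round. PROOF. `V` = a subgroup with `|V| ≤ b` of largest order (`⊥` is one since `1 ≤ b`).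
If `V ≠ ⊤` take `g ∉ V` and `V' = V ⊔ zpowers g`; `V < V'`, so `|V'| > b`; `V.subgroupOf V'` is normal
(commutative) and its quotient is generated by the class of `g`. -/
theorem ab_round {W : Type} [Group W] [Finite W] (hW : ∀ a b : W, a * b = b * a) {b : ℝ}
    (hb : 1 ≤ b) (hbW : b < Nat.card W) : ∃ (V V' : Subgroup W) (hV : V ≤ V'),
      (Nat.card V : ℝ) ≤ b ∧ b < Nat.card V' ∧ ∃ g ∈ V', ∀ x ∈ V', ∃ (k : ℤ), x * (g ^ k)⁻¹ ∈ V := by
  obtain ⟨V, hV, hmax⟩ := Set.exists_max_image {V : Subgroup W | (Nat.card V : ℝ) ≤ b}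
    (fun V => Nat.card V) (Set.toFinite _) ⟨⊥, by
      change ((Nat.card (⊥ : Subgroup W) : ℕ) : ℝ) ≤ b
      rw [Subgroup.card_bot]
      exact_mod_cast hb⟩
  have hne : V ≠ ⊤ := by
    rintro rfl
    rw [Set.mem_ofPred_eq, Subgroup.card_top] at hV
    exact absurd hbW (not_lt.2 hV)
  obtain ⟨g, hg⟩ : ∃ g, g ∉ V := by
    by_contra hcon
    push Not at hcon
    exact hne (Subgroup.eq_top_iff' V |>.2 hcon)
  have := fbB_normal hW V
  have hle : V ≤ V ⊔ Subgroup.zpowers g := le_sup_left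
  have hgm : g ∈ V ⊔ Subgroup.zpowers g :=
    (le_sup_right : Subgroup.zpowers g ≤ V ⊔ Subgroup.zpowers g) (Subgroup.mem_zpowers g)
  refine ⟨V, V ⊔ Subgroup.zpowers g, hle, hV, ?_, g, hgm, fun x hx => ?_⟩
  · by_contra hcon
    have h1 := hmax (V ⊔ Subgroup.zpowers g) (not_lt.1 hcon)
    have h2 : V = V ⊔ Subgroup.zpowers g := Subgroup.eq_of_le_of_card_ge hle h1
    rw [← h2] at hgm
    exact hg hgm
  · rw [← SetLike.mem_coe, Subgroup.normal_mul] at hx
    obtain ⟨v, hv, y, hy, rfl⟩ := hx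
    obtain ⟨k, rfl⟩ := Subgroup.mem_zpowers_iff.1 hy
    refine ⟨k, ?_⟩
    change v * g ^ k * (g ^ k)⁻¹ ∈ V
    rw [mul_inv_cancel_right]
    exact hv

private theorem fbB_ind (δ : ℝ) (hδ : 0 < δ) (k : ℕ) : ∃ t : ℕ, 1 ≤ t ∧ ∃ C : ℝ, 1 ≤ C ∧
    ∀ N : ℝ, 1 ≤ N → ∀ (W : Type) [Group W] [Finite W], (∀ a b : W, a * b = b * a) →
      (Nat.card W : ℝ) ≤ N ^ (δ * k) → (Nat.card W : ℝ) ≤ N →
      FB (C * Nat.card W) (C * N ^ δ) t W := by
  obtain ⟨t₁, ht₁, C₁, hC₁, hdft⟩ := bx_dft δ hδ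
  induction k with
  | zero =>
    refine ⟨1, le_rfl, 1, le_rfl, fun N hN W _ _ hW h0 h1 => ?_⟩
    rw [Nat.cast_zero, mul_zero, Real.rpow_zero] at h0
    rw [one_mul, one_mul]
    have hN1 : 1 ≤ N ^ δ := Real.one_le_rpow hN hδ.le
    exact fb_small (h0.trans hN1)
  | succ k ih =>
    obtain ⟨t, ht, C, hC, ih⟩ := ih
    have hCC : 1 ≤ C₁ * C := one_le_mul_of_one_le_of_one_le hC₁ hC
    refine ⟨1 + t₁ + 1 + t + 1, by omega, C₁ * C, hCC, fun N hN W _ _ hW h0 h1 => ?_⟩
    have hN1 : 1 ≤ N ^ δ := Real.one_le_rpow hN hδ.le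
    have hs : 1 ≤ C₁ * C * N ^ δ := one_le_mul_of_one_le_of_one_le hCC hN1
    have hs0 : N ^ δ ≤ C₁ * C * N ^ δ := le_mul_of_one_le_left (by linarith) hCC
    have hs1 : C₁ * N ^ δ ≤ C₁ * C * N ^ δ := by
      refine mul_le_mul_of_nonneg_right ?_ (by linarith)
      exact le_mul_of_one_le_right (by linarith) hC
    have hs2 : C * N ^ δ ≤ C₁ * C * N ^ δ := by
      refine mul_le_mul_of_nonneg_right ?_ (by linarith)
      exact le_mul_of_one_le_left (by linarith) hC₁
    have hW1 : (0 : ℝ) ≤ Nat.card W := Nat.cast_nonneg _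
    by_cases hsmall : (Nat.card W : ℝ) ≤ N ^ δ
    · exact (fb_small hsmall).mono (le_mul_of_one_le_left hW1 hCC) hs0 (by omega) hs
    · rw [not_le] at hsmall
      obtain ⟨V, V', hV, hVb, hV'b, g, hg, hgen⟩ := ab_round hW hN1 hsmall
      have hWV' : ∀ a b : V', a * b = b * a := fun a b => Subtype.ext (hW a b)
      have n1 : (V.subgroupOf V').Normal := fbB_normal hWV' _
      have n2 : V'.Normal := fbB_normal hW _
      have hcV : Nat.card (V.subgroupOf V') = Nat.card V :=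
        Nat.card_congr (Subgroup.subgroupOfEquivOfLe hV).toEquiv
      have hq1 : Nat.card V' = Nat.card (V' ⧸ V.subgroupOf V') * Nat.card (V.subgroupOf V') :=
        Subgroup.card_eq_card_quotient_mul_card_subgroup _
      have hq2 : Nat.card W = Nat.card (W ⧸ V') * Nat.card V' :=
        Subgroup.card_eq_card_quotient_mul_card_subgroup _
      have hp1 : 0 < Nat.card (V' ⧸ V.subgroupOf V') := Nat.card_pos
      have hp2 : 0 < Nat.card (W ⧸ V') := Nat.card_pos
      have hp3 : 0 < Nat.card V' := Nat.card_pos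
      have hp4 : 0 < Nat.card (V.subgroupOf V') := Nat.card_pos
      have hl1 : (Nat.card (V' ⧸ V.subgroupOf V') : ℝ) ≤ N := by
        refine le_trans ?_ h1
        have h5 : Nat.card (V' ⧸ V.subgroupOf V') ≤ Nat.card V' := by
          rw [hq1]
          exact Nat.le_mul_of_pos_right _ hp4
        have h6 : Nat.card V' ≤ Nat.card W := by
          rw [hq2]
          exact Nat.le_mul_of_pos_left _ hp2
        exact_mod_cast h5.trans h6
      have hl2 : (Nat.card (W ⧸ V') : ℝ) ≤ N := by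
        refine le_trans ?_ h1
        have h5 : Nat.card (W ⧸ V') ≤ Nat.card W := by
          rw [hq2]
          exact Nat.le_mul_of_pos_right _ hp3
        exact_mod_cast h5
      have hl3 : (Nat.card (W ⧸ V') : ℝ) ≤ N ^ (δ * k) := by
        have h5 : (Nat.card (W ⧸ V') : ℝ) * N ^ δ ≤ N ^ (δ * k) * N ^ δ := by
          rw [← Real.rpow_add (by linarith)]
          have h6 : δ * k + δ = δ * (k + 1 : ℕ) := by
            push_cast
            ring
          rw [h6]
          refine le_trans ?_ h0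
          rw [hq2, Nat.cast_mul]
          exact mul_le_mul_of_nonneg_left hV'b.le (Nat.cast_nonneg _)
        exact le_of_mul_le_mul_right h5 (by linarith)
      have f1 : FB (Nat.card (V.subgroupOf V')) (C₁ * C * N ^ δ) 1 (V.subgroupOf V') := by
        refine (fb_small (s := N ^ δ) ?_).mono le_rfl hs0 le_rfl hs
        rw [hcV]
        exact hVb
      have f2 : FB (C₁ * Nat.card (V' ⧸ V.subgroupOf V')) (C₁ * C * N ^ δ) t₁
          (V' ⧸ V.subgroupOf V') := by
        have h5 : FB (C₁ * Nat.card (V' ⧸ V.subgroupOf V')) (C₁ * N ^ δ) t₁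
            (V' ⧸ V.subgroupOf V') := by
          refine fb_cyclic (QuotientGroup.mk ⟨g, hg⟩) (fun w => ?_) (hdft N hN _ hp1 hl1 1)
          obtain ⟨⟨x, hx⟩, rfl⟩ := QuotientGroup.mk_surjective w
          obtain ⟨k, hk⟩ := hgen x hx
          rw [Subgroup.mem_zpowers_iff]
          refine ⟨k, ?_⟩
          rw [← QuotientGroup.mk_zpow, QuotientGroup.eq, Subgroup.mem_subgroupOf]
          change (g ^ k)⁻¹ * x ∈ V
          rw [hW]
          exact hk
        exact h5.mono le_rfl hs1 le_rfl hs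
      have f3 := FB.ext hWV' (V.subgroupOf V') le_rfl ht₁ hs f1 f2
      have f4 : FB (C * Nat.card (W ⧸ V')) (C₁ * C * N ^ δ) t (W ⧸ V') :=
        (ih N hN (W ⧸ V') (fun a b => by
          obtain ⟨x, rfl⟩ := QuotientGroup.mk_surjective a
          obtain ⟨y, rfl⟩ := QuotientGroup.mk_surjective b
          rw [← QuotientGroup.mk_mul, ← QuotientGroup.mk_mul, hW]) hl3 hl2).mono le_rfl hs2
            le_rfl hs
      have f5 := FB.ext hW V' (by omega) ht hs f3 f4
      refine f5.mono (le_of_eq ?_) le_rfl le_rfl hs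
      rw [hq2, hq1]
      push_cast
      ring

/-- PROOF. Induction on `k`: for every `k` there are `t`, `C` such that all `N` and all commutative
`W` with `|W| ≤ N ^ (δ k)` and `|W| ≤ N` have `FB (C |W|) (C N ^ δ) t W`. `k = 0`: `W` trivial,
`fb_small`. Step: if `|W| ≤ N ^ δ` `fb_small`; otherwise `V`, `V'` from `ab_round` with `b = N ^ δ`:
`FB` of `V` (`fb_small`), of `V' / V` (`fb_cyclic`, `bx_dft` with the same `δ`; `V.subgroupOf V'`), of
`W / V'` by the induction hypothesis (`|W / V'| < |W| / N ^ δ ≤ N ^ (δ k)`), `FB.ext` twice. Finally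
`k = ⌈1 / δ⌉₊`. -/
theorem fb_abelian (δ : ℝ) (hδ : 0 < δ) : ∃ t : ℕ, 1 ≤ t ∧ ∃ C : ℝ, 1 ≤ C ∧ ∀ N : ℝ, 1 ≤ N →
    ∀ (W : Type) [Group W] [Finite W], (∀ a b : W, a * b = b * a) → (Nat.card W : ℝ) ≤ N →
      FB (C * Nat.card W) (C * N ^ δ) t W := by
  obtain ⟨t, ht, C, hC, h⟩ := fbB_ind δ hδ ⌈1 / δ⌉₊
  refine ⟨t, ht, C, hC, fun N hN W _ _ hW h1 => h N hN W hW (h1.trans ?_) h1⟩
  have h2 : 1 ≤ δ * (⌈1 / δ⌉₊ : ℕ) := by
    have h3 := Nat.le_ceil (1 / δ)
    rw [div_le_iff₀ hδ] at h3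
    linarith
  calc N = N ^ (1 : ℝ) := (Real.rpow_one N).symm
    _ ≤ N ^ (δ * (⌈1 / δ⌉₊ : ℕ)) := Real.rpow_le_rpow_of_exponent_le hN h2

end MP0775d3.Cf
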