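import Pool.Agent.Lib.MP_0775d3_lc.Cf.SmallA

/-! Existence of matrix units (Maschke, Wedderburn and Artin). -/

set_option linter.unusedSectionVars false
set_option linter.unusedVariables false

namespace MP0775d3.Cf

open Matrix MP0775d3.Sl2 MP0775d3.Solv

/-- Maschke for an algebra spanned by a finite projective group of units. -/
private theorem smallW_maschke {A N : Type} [Ring A] [Algebra ℂ A] [Group N] [Fintype N]
    (T T' : N → A) (a : N → N → ℂ) (hm : ∀ x y, T x * T y = a x y • T (x * y))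
    (h1 : ∀ x, T' x * T x = 1) (h2 : ∀ x, T x * T' x = 1)
    (hs : Submodule.span ℂ (Set.range T) = ⊤) : IsSemisimpleRing A := by
  refine (isSemisimpleModule_iff A A).2 ⟨fun V => ?_⟩
  obtain ⟨f₀, hf₀⟩ := LinearMap.exists_extend (p := V.restrictScalars ℂ)
    (LinearMap.id : V.restrictScalars ℂ →ₗ[ℂ] V.restrictScalars ℂ)
  obtain ⟨f, hfV, hf⟩ : ∃ f : A →ₗ[ℂ] A, (∀ b, f b ∈ V) ∧ ∀ v ∈ V, f v = v := by
    refine ⟨(V.restrictScalars ℂ).subtype.comp f₀, fun b => (f₀ b).2, fun v hv => ?_⟩
    have h3 := congrArg (fun g => ((g ⟨v, hv⟩ : V.restrictScalars ℂ) : A)) hf₀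
    exact h3
  have hc : (Fintype.card N : ℂ) ≠ 0 := Nat.cast_ne_zero.2 Fintype.card_ne_zero
  -- the average
  obtain ⟨g, hg⟩ : ∃ g : A →ₗ[ℂ] A, ∀ b, g b =
      (Fintype.card N : ℂ)⁻¹ • ∑ x, T' x * f (T x * b) :=
    ⟨(Fintype.card N : ℂ)⁻¹ • ∑ x, (LinearMap.mulLeft ℂ (T' x)).comp
      (f.comp (LinearMap.mulLeft ℂ (T x))), fun b => by
        rw [LinearMap.smul_apply, LinearMap.sum_apply]
        rfl⟩
  have hgV : ∀ b, g b ∈ V := by
    intro b
    rw [hg]
    exact V.smul_of_tower_mem _ (V.sum_mem fun x _ => V.smul_mem (T' x) (hfV _))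
  have hgv : ∀ v ∈ V, g v = v := by
    intro v hv
    have h3 : ∀ x ∈ (Finset.univ : Finset N), T' x * f (T x * v) = v := by
      intro x _
      have h4 : f (T x * v) = T x * v := hf _ (V.smul_mem (T x) hv)
      rw [h4, ← mul_assoc, h1, one_mul]
    rw [hg, Finset.sum_congr rfl h3, Finset.sum_const, Finset.card_univ, ← Nat.cast_smul_eq_nsmul ℂ,
      smul_smul, inv_mul_cancel₀ hc, one_smul]
  have hT : ∀ y b, g (T y * b) = T y * g b := by
    intro y b
    have h3 : ∀ x, T' x * f (T x * (T y * b)) = T y * (T' (x * y) * f (T (x * y) * b)) := by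
      intro x
      have h4 : T y * T' (x * y) = a x y • T' x := by
        have h5 : T' x * (T x * T y) * T' (x * y) = T y * T' (x * y) := by
          rw [← mul_assoc (T' x), h1, one_mul]
        rw [← h5, hm, mul_smul_comm, smul_mul_assoc, mul_assoc, h2, mul_one]
      rw [← mul_assoc (T x), hm, smul_mul_assoc, map_smul, mul_smul_comm, ← smul_mul_assoc, ← h4,
        mul_assoc]
    rw [hg, hg, mul_smul_comm, Finset.mul_sum]
    congr 1
    rw [← Fintype.sum_equiv (Equiv.mulRight y) (fun x => T' x * f (T x * (T y * b)))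
      (fun z => T y * (T' z * f (T z * b))) h3]
  have hA : ∀ c b, g (c * b) = c * g b := by
    intro c b
    have hcs : c ∈ Submodule.span ℂ (Set.range T) := by
      rw [hs]
      exact Submodule.mem_top
    induction hcs using Submodule.span_induction with
    | mem x hx =>
      obtain ⟨y, rfl⟩ := hx
      exact hT y b
    | zero => rw [zero_mul, zero_mul, map_zero]
    | add x y _ _ hx hy => rw [add_mul, add_mul, map_add, hx, hy]
    | smul t x _ hx => rw [smul_mul_assoc, smul_mul_assoc, map_smul, hx]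
  obtain ⟨G, hG⟩ : ∃ G : A →ₗ[A] A, ∀ b, G b = g b :=
    ⟨{ toFun := fun b => g b
       map_add' := map_add g
       map_smul' := fun c b => hA c b }, fun _ => rfl⟩
  refine ⟨LinearMap.ker G, ?_, ?_⟩
  · rw [Submodule.disjoint_def]
    intro v hv hk
    rw [LinearMap.mem_ker, hG, hgv v hv] at hk
    exact hk
  · rw [codisjoint_iff, eq_top_iff]
    intro b _
    rw [Submodule.mem_sup]
    refine ⟨g b, hgV b, b - g b, ?_, by abel⟩
    rw [LinearMap.mem_ker, hG, map_sub, hgv (g b) (hgV b), sub_self]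

/-- PROOF. The set `spN F N` is a subalgebra `B` of the matrices (`spN_mul`, `spN_one`), finite
dimensional. It is semisimple (Maschke): if `V` is a left ideal of `B` choose a linear projection
`π` of `B` onto `V` and average: `π' b = |N|⁻¹ ∑_{x ∈ N} (T x)⁻¹ * π (T x * b)`; `π'` is
`B`-linear since `(T x * T y)⁻¹` is a nonzero multiple of `(T (x y))⁻¹` and the same multiple appears in
`π (T x * T y * b)`, inverse to it; it is a projection onto `V` (`(T x)⁻¹` is a multiple of `T x⁻¹`, in
`B`). So every left ideal has a complement (`isSemisimpleModule` / `ComplementedLattice`), and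
`IsSemisimpleRing.exists_algEquiv_pi_matrix_of_isAlgClosed` gives
`e : B ≃ₐ[ℂ] Π i : Fin n, Matrix (Fin (d i)) (Fin (d i)) ℂ` with `NeZero (d i)`; `I = Fin n`,
`X i = Fin (d i)`, `E i a b = e.symm (Pi.single i (Matrix.single a b 1))`. -/
theorem exists_munits {Q : Type} [Group Q] [Fintype Q] [DecidableEq Q] {F : TFam Q Q} (h : Rg F)
    (N : Subgroup Q) : ∃ (n : ℕ) (d : Fin n → ℕ),
      Nonempty (MUnits F N (Fin n) (fun i => Fin (d i))) := by
  classical
  obtain ⟨B, hB⟩ : ∃ B : Subalgebra ℂ (Matrix Q Q ℂ), ∀ y, y ∈ B ↔ y ∈ spN F N :=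
    ⟨(spN F N).toSubalgebra (spN_one h) (fun _ _ hy hz => spN_mul hy hz), fun _ => Iff.rfl⟩
  have : Fintype N := Fintype.ofFinite N
  obtain ⟨T, hT⟩ : ∃ T : N → B, ∀ x, (T x : Matrix Q Q ℂ) = F.T (x : Q) :=
    ⟨fun x => ⟨F.T (x : Q), (hB _).2 (spN_T x.2)⟩, fun _ => rfl⟩
  have hm : ∀ x y : N, T x * T y = F.c.a (x : Q) (y : Q) • T (x * y) := by
    intro x y
    apply Subtype.ext
    rw [MulMemClass.coe_mul, hT, hT, F.mul, SetLike.val_smul, hT]
    rfl
  have hinv : ∀ x : N, T x * ((F.c.a (x : Q) ((x⁻¹ : N) : Q) * F.c.a 1 1)⁻¹ • T x⁻¹) = 1 := by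
    intro x
    have hne : F.c.a (x : Q) ((x⁻¹ : N) : Q) * F.c.a 1 1 ≠ 0 := mul_ne_zero (F.c.ne _ _) (F.c.ne _ _)
    have h3 : T (x * x⁻¹) = F.c.a 1 1 • (1 : B) := by
      apply Subtype.ext
      rw [hT, mul_inv_cancel, SetLike.val_smul]
      exact h.one
    rw [mul_smul_comm, hm, h3, smul_smul (F.c.a (x : Q) ((x⁻¹ : N) : Q)), smul_smul,
      inv_mul_cancel₀ hne, one_smul]
  have hinv2 : ∀ x : N, ((F.c.a (x : Q) ((x⁻¹ : N) : Q) * F.c.a 1 1)⁻¹ • T x⁻¹) * T x = 1 := by
    intro x
    have h3 := congrArg (fun b : B => (b : Matrix Q Q ℂ)) (hinv x)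
    apply Subtype.ext
    exact mul_eq_one_comm.1 h3
  have hspan : Submodule.span ℂ (Set.range T) = ⊤ := by
    rw [eq_top_iff]
    rintro ⟨b, hb⟩ -
    have h3 : ∀ (m : Matrix Q Q ℂ) (hm : m ∈ Submodule.span ℂ (Set.range fun x : N => F.T (x : Q))),
        ∃ m' ∈ Submodule.span ℂ (Set.range T), (m' : Matrix Q Q ℂ) = m := by
      intro m hm
      induction hm using Submodule.span_induction with
      | mem x hx =>
        obtain ⟨y, rfl⟩ := hx
        exact ⟨T y, Submodule.subset_span ⟨y, rfl⟩, hT y⟩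
      | zero => exact ⟨0, Submodule.zero_mem _, rfl⟩
      | add x y _ _ hx hy =>
        obtain ⟨x', hx', rfl⟩ := hx
        obtain ⟨y', hy', rfl⟩ := hy
        exact ⟨x' + y', Submodule.add_mem _ hx' hy', rfl⟩
      | smul t x _ hx =>
        obtain ⟨x', hx', rfl⟩ := hx
        exact ⟨t • x', Submodule.smul_mem _ t hx', rfl⟩
    obtain ⟨m', hm', h4⟩ := h3 b ((hB b).1 hb)
    have h5 : (⟨b, hb⟩ : B) = m' := Subtype.ext h4.symm
    rw [h5]
    exact hm'
  have hss : IsSemisimpleRing B := smallW_maschke T _ (fun x y : N => F.c.a (x : Q) (y : Q)) hm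
    hinv2 hinv hspan
  obtain ⟨n, d, -, ⟨e⟩⟩ := IsSemisimpleRing.exists_algEquiv_pi_matrix_of_isAlgClosed ℂ B
  refine ⟨n, d, ⟨{
    E := fun i a b => ((e.symm (Pi.single i (Matrix.single a b 1)) : B) : Matrix Q Q ℂ)
    mem := fun i a b => (hB _).1 (e.symm (Pi.single i (Matrix.single a b 1))).2
    mul := ?_
    mul0 := ?_
    one := ?_
    ne := ?_
    span := ?_ }⟩⟩
  · intro i a b c
    rw [← MulMemClass.coe_mul, ← map_mul, ← Pi.single_mul, Matrix.single_mul_single_same, one_mul]
  · intro i a b j c d' hne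
    rw [← MulMemClass.coe_mul, ← map_mul]
    have h3 : (Pi.single i (Matrix.single a b 1) * Pi.single j (Matrix.single c d' 1) :
        ∀ i, Matrix (Fin (d i)) (Fin (d i)) ℂ) = 0 := by
      by_cases hij : i = j
      · subst hij
        rw [← Pi.single_mul, Matrix.single_mul_single_of_ne, Pi.single_zero]
        intro hbc
        apply hne
        rw [hbc]
      · funext k
        rw [Pi.mul_apply]
        by_cases hk : k = i
        · subst hk
          rw [Pi.single_eq_of_ne hij, mul_zero]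
          rfl
        · rw [Pi.single_eq_of_ne hk, zero_mul]
          rfl
    rw [h3, map_zero]
    rfl
  · have h3 : ∑ i, ∑ a, e.symm (Pi.single i (Matrix.single a a 1)) = 1 := by
      rw [← map_one e.symm, ← Finset.univ_sum_single (1 : ∀ i, Matrix (Fin (d i)) (Fin (d i)) ℂ),
        map_sum]
      refine Finset.sum_congr rfl fun i _ => ?_
      rw [← map_sum]
      congr 1
      have h4 := map_sum (AddMonoidHom.single (fun i => Matrix (Fin (d i)) (Fin (d i)) ℂ) i)
        (fun a => Matrix.single a a (1 : ℂ)) Finset.univ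
      rw [Matrix.sum_single_one] at h4
      exact h4.symm
    have h4 := congrArg (fun b : B => (b : Matrix Q Q ℂ)) h3
    simpa using h4
  · intro i a b h0
    have h3 : e.symm (Pi.single i (Matrix.single a b 1)) = 0 := Subtype.ext h0
    rw [map_eq_zero_iff e.symm e.symm.injective, Pi.single_eq_zero_iff] at h3
    have h4 := congrFun (congrFun h3 a) b
    rw [Matrix.single_apply_same] at h4
    exact one_ne_zero h4
  · intro y hy
    refine ⟨fun i a b => e ⟨y, (hB y).2 hy⟩ i a b, ?_⟩
    have h3 : ∀ z : (∀ i, Matrix (Fin (d i)) (Fin (d i)) ℂ),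
        e.symm z = ∑ i, ∑ a, ∑ b, z i a b • e.symm (Pi.single i (Matrix.single a b 1)) := by
      intro z
      conv_lhs => rw [← Finset.univ_sum_single z]
      rw [map_sum]
      refine Finset.sum_congr rfl fun i _ => ?_
      have h4 : Pi.single i (z i) = ∑ a, ∑ b, Pi.single (M := fun i =>
          Matrix (Fin (d i)) (Fin (d i)) ℂ) i (Matrix.single a b (z i a b)) := by
        have h5 := map_sum (AddMonoidHom.single (fun i => Matrix (Fin (d i)) (Fin (d i)) ℂ) i)
          (fun a => ∑ b, Matrix.single a b (z i a b)) Finset.univ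
        rw [← Matrix.matrix_eq_sum_single] at h5
        refine h5.trans (Finset.sum_congr rfl fun a _ => ?_)
        exact map_sum (AddMonoidHom.single (fun i => Matrix (Fin (d i)) (Fin (d i)) ℂ) i)
          (fun b => Matrix.single a b (z i a b)) Finset.univ
      rw [h4, map_sum]
      refine Finset.sum_congr rfl fun a _ => ?_
      rw [map_sum]
      refine Finset.sum_congr rfl fun b _ => ?_
      rw [← map_smul, ← Pi.single_smul, Matrix.smul_single, smul_eq_mul, mul_one]
    have h6 := congrArg (fun b : B => (b : Matrix Q Q ℂ)) (h3 (e ⟨y, (hB y).2 hy⟩))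
    simp only [AlgEquiv.symm_apply_apply] at h6
    refine h6.trans ?_
    simp only [AddSubmonoidClass.coe_finsetSum, SetLike.val_smul]

end MP0775d3.Cf
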