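import Pool.Agent.Lib.MP_0775d3_lc.Cf.SmallC
import Pool.Agent.Lib.MP_0775d3_lc.Cf.SmallW
import Pool.Agent.Lib.MP_0775d3_lc.Cf.Assemble

/-! The small step. -/

set_option linter.unusedSectionVars false
set_option linter.unusedVariables false

namespace MP0775d3.Cf

open Matrix MP0775d3.Sl2 MP0775d3.Solv

section
variable {Q : Type} [Group Q] [Fintype Q] [DecidableEq Q] {F : TFam Q Q} {N : Subgroup Q}
  {I : Type} {X : I → Type} [Fintype I] [∀ i, Fintype (X i)]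

private theorem smd_commute {z : Matrix Q Q ℂ} (hz : ∀ y, z * F.T y = F.T y * z)
    {A : Matrix Q Q ℂ} (hA : A ∈ spN F N) : z * A = A * z := by
  unfold spN at hA
  induction hA using Submodule.span_induction with
  | mem x hx =>
    obtain ⟨n, rfl⟩ := hx
    exact hz _
  | zero => rw [Matrix.mul_zero, Matrix.zero_mul]
  | add x y _ _ hx hy => rw [Matrix.mul_add, Matrix.add_mul, hx, hy]
  | smul a x _ hx => rw [Matrix.mul_smul, Matrix.smul_mul, hx]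

/-- A central element cut by `e = E i a a`. PROOF. `z = ∑ c g • T g` commutes with all `T y`, hence
with `e ∈ spN F N`. `z * e = e * z * e = ∑_g c g • (e * T g * e)`; the terms with `g ∉ Q₁` vanish, the
other ones are multiples of `F'.T (class of g)` (hypotheses `h4`, `h5` with `y = 1`; sum over the
classes). `c'` is central for `F'.c`: `TFam.central`, since `z * e` commutes with
`F'.T x = e * y * T x * e` (`z` commutes with all `T`, so with `spN`). -/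
theorem cut_central (h : Rg F) (M : MUnits F N I X) (i : I) (a : X i) [N.Normal]
    (Q₁ : Subgroup Q) [Fintype (Q₁ ⧸ N.subgroupOf Q₁)] (F' : TFam (Q₁ ⧸ N.subgroupOf Q₁) Q)
    (h1 : ∀ x : Q₁, ∃ y ∈ spN F N,
        F'.T (x : Q₁ ⧸ N.subgroupOf Q₁) = M.E i a a * y * F.T (x : Q) * M.E i a a)
    (h4 : ∀ (g : Q₁), ∀ y ∈ spN F N, ∃ s : ℂ,
        M.E i a a * y * F.T (g : Q) * M.E i a a = s • F'.T (g : Q₁ ⧸ N.subgroupOf Q₁))
    (h5 : ∀ g : Q, g ∉ Q₁ → ∀ y ∈ spN F N, M.E i a a * y * F.T g * M.E i a a = 0)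
    (c : Q → ℂ) (hc : Central F.c c) : ∃ c' : Q₁ ⧸ N.subgroupOf Q₁ → ℂ, Central F'.c c' ∧
      (∑ g, c g • F.T g) * M.E i a a = ∑ x, c' x • F'.T x := by
  classical
  obtain ⟨e, he⟩ : ∃ e, e = M.E i a a := ⟨_, rfl⟩
  rw [← he] at h1 h4 h5 ⊢
  have hee : e * e = e := by
    rw [he]
    exact M.mul i a a a
  have heN : e ∈ spN F N := by
    rw [he]
    exact M.mem i a a
  obtain ⟨z, hz⟩ : ∃ z : Matrix Q Q ℂ, z = ∑ x, c x • F.T x := ⟨_, rfl⟩
  have hzc : ∀ y, z * F.T y = F.T y * z := fun y => by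
    rw [hz]
    exact F.comm_of_central c hc y
  have hze : z * e = e * z := smd_commute hzc heN
  have heze : e * z * e = z * e := by rw [← hze, Matrix.mul_assoc, hee]
  have hs : ∀ g : Q₁, ∃ s : ℂ, e * F.T (g : Q) * e = s • F'.T (g : Q₁ ⧸ N.subgroupOf Q₁) := by
    intro g
    obtain ⟨s, hs⟩ := h4 g 1 (spN_one h)
    rw [Matrix.mul_one] at hs
    exact ⟨s, hs⟩
  choose s hs using hs
  have hsum : z * e = ∑ x, (∑ g : Q₁, if (g : Q₁ ⧸ N.subgroupOf Q₁) = x then c g * s g else 0) •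
      F'.T x := by
    have h6 : ∀ g : Q, e * (c g • F.T g) * e =
        if hg : g ∈ Q₁ then (c g * s ⟨g, hg⟩) • F'.T ((⟨g, hg⟩ : Q₁) : Q₁ ⧸ N.subgroupOf Q₁)
          else 0 := by
      intro g
      by_cases hg : g ∈ Q₁
      · rw [dif_pos hg, Matrix.mul_smul, Matrix.smul_mul, mul_smul]
        congr 1
        exact hs ⟨g, hg⟩
      · rw [dif_neg hg, Matrix.mul_smul, Matrix.smul_mul]
        have h7 := h5 g hg 1 (spN_one h)
        rw [Matrix.mul_one] at h7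
        rw [h7, smul_zero]
    rw [← heze]
    conv_lhs => rw [hz]
    rw [Finset.mul_sum, Finset.sum_mul, Finset.sum_congr rfl fun g _ => h6 g]
    have h8 : ∑ g : Q, (if hg : g ∈ Q₁ then
        (c g * s ⟨g, hg⟩) • F'.T ((⟨g, hg⟩ : Q₁) : Q₁ ⧸ N.subgroupOf Q₁) else 0) =
        ∑ g : Q₁, (c g * s g) • F'.T (g : Q₁ ⧸ N.subgroupOf Q₁) := by
      rw [Finset.sum_dite, Finset.sum_const_zero, add_zero]
      refine Finset.sum_bij' (fun g _ => (⟨g.1, (Finset.mem_filter.1 g.2).2⟩ : Q₁))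
        (fun g _ => ⟨g.1, Finset.mem_filter.2 ⟨Finset.mem_univ _, g.2⟩⟩) ?_ ?_ ?_ ?_ ?_
      · intro g _
        exact Finset.mem_univ _
      · intro g _
        exact Finset.mem_univ _
      · intro g _
        rfl
      · intro g _
        rfl
      · intro g _
        rfl
    rw [h8]
    simp only [Finset.sum_smul]
    rw [Finset.sum_comm]
    refine Finset.sum_congr rfl fun g _ => ?_
    rw [Finset.sum_eq_single (g : Q₁ ⧸ N.subgroupOf Q₁)]
    · rw [if_pos rfl]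
    · intro x _ hx
      rw [if_neg hx.symm, zero_smul]
    · intro h9
      exact absurd (Finset.mem_univ _) h9
  refine ⟨_, ?_, by rw [← hz]; exact hsum⟩
  refine F'.central _ fun y => ?_
  rw [← hsum]
  obtain ⟨g, rfl⟩ := QuotientGroup.mk_surjective y
  obtain ⟨y', hy', hg⟩ := h1 g
  have h10 : z * F'.T (g : Q₁ ⧸ N.subgroupOf Q₁) = F'.T (g : Q₁ ⧸ N.subgroupOf Q₁) * z := by
    have h11 : Commute z (e * y' * F.T (g : Q) * e) :=
      (((show Commute z e from hze).mul_right (show Commute z y' from smd_commute hzc hy')).mul_right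
        (show Commute z (F.T (g : Q)) from hzc g)).mul_right (show Commute z e from hze)
    rw [hg]
    exact h11
  have h12 : e * F'.T (g : Q₁ ⧸ N.subgroupOf Q₁) = F'.T (g : Q₁ ⧸ N.subgroupOf Q₁) := by
    rw [hg, ← Matrix.mul_assoc, ← Matrix.mul_assoc, ← Matrix.mul_assoc, hee]
  have h13 : F'.T (g : Q₁ ⧸ N.subgroupOf Q₁) * e = F'.T (g : Q₁ ⧸ N.subgroupOf Q₁) := by
    rw [hg, Matrix.mul_assoc, hee]
  rw [Matrix.mul_assoc, h12, h10, hze, ← Matrix.mul_assoc, h13]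

end

/-- PROOF. `F` from `exists_reg` for `α` (so `F.c = α`, `tmat α c = z = ∑ c g • F.T g`, `Rg F`), `M` from
`exists_munits`, `Q₁ p`, `F' p` from `cl_fam` (`choose`), `U`, `U'` from `exists_UU` (`bx_of_blk`:
`|J| = |N| |Q / N| = |Q|`, `MUnits.card`). `td_of_blocks` with `tU = 1`,
`I' = Σ q : (Σ i, X i × X i), Quotient (QuotientGroup.rightRel (Q₁ ⟨q.1, q.2.1⟩))`,
`a j = ⟨j.1, cs_rc N _ j.2⟩`, `G b = Q₁ _ ⧸ N.subgroupOf (Q₁ _)`, `β b = (F' _).c`,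
`x b j = cs_yc N (Q₁ _) j.2` (injective on the fibres: `cs_bij`), `u = v = 1`; widths:
`∑_q ∑_t p |Q₁ / N| = ∑_q p |Q / N| = |N| p |Q / N| = p |Q|` (`cs_rc_card`, `MUnits.card`). `hD`:
`change_basis` with `b = F.T`, `d = dfam`, `φ` = left multiplication by `z`: for `j = ((i, a, b), k)`,
`z * d j = z * F'.T (yc k) * E i a b * T (rc k).out`, `F'.T = e * F'.T`, `z * e = ∑ c' x • F'.T x`
(`cut_central`), `(∑ c' x • F'.T x) * F'.T y = ∑ x, tmat F'.c c' x y • F'.T x` (`TFam.sum_mul`), and the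
sum over `x` is the sum over the `k'` with the same `rc` and `yc k' = x` (`cs_rc_sum`). -/
theorem td_small {Q : Type} [Group Q] [Finite Q] (α : Coc Q) (N : Subgroup Q) [N.Normal]
    {p s : ℝ} {t : ℕ} (hp : 1 ≤ p) (hN : (Nat.card N : ℝ) ≤ s) (ht : 1 ≤ t)
    (hM : ∀ (Q₁ : Subgroup Q), N ≤ Q₁ → ∀ α' : Coc (Q₁ ⧸ N.subgroupOf Q₁),
      TD (p * Nat.card (Q₁ ⧸ N.subgroupOf Q₁)) s t α') :
    TD (p * Nat.card Q) s (t + 2) α := by
  classical
  have hQf : Fintype Q := Fintype.ofFinite Q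
  obtain ⟨F, rfl, hsum, hunit, hone⟩ := exists_reg α
  have hR : Rg F := ⟨hunit, hone⟩
  obtain ⟨n, dd, ⟨M⟩⟩ := exists_munits hR N
  choose Q₁ hNQ F' hF1 hF2 hF3 hF4 hF5 using
    fun (q : Σ i, Fin (dd i)) => cl_fam hR M q.1 q.2
  obtain ⟨U, U', hU, hU', hBU, hBU'⟩ := exists_UU hR M Q₁ F' hNQ hF1 hF2 hF3
  have hs : 1 ≤ s := by
    refine le_trans ?_ hN
    have h1 : 0 < Nat.card N := Nat.card_pos
    exact_mod_cast h1
  have hcN : Fintype.card (Σ i, Fin (dd i) × Fin (dd i)) = Nat.card N := by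
    rw [Fintype.card_sigma, ← M.card]
    exact Finset.sum_congr rfl fun i _ => Fintype.card_prod _ _
  have hcQ : Nat.card Q = Nat.card (Q ⧸ N) * Nat.card N :=
    Subgroup.card_eq_card_quotient_mul_card_subgroup N
  have hcJ : Fintype.card ((Σ i, Fin (dd i) × Fin (dd i)) × (Q ⧸ N)) = Nat.card Q := by
    rw [Fintype.card_prod, hcN, hcQ, Nat.card_eq_fintype_card (α := Q ⧸ N), mul_comm]
  have hQ0 : (0 : ℝ) ≤ Nat.card Q := Nat.cast_nonneg _
  have hw1 : (Fintype.card Q : ℝ) ≤ p * Nat.card Q := by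
    rw [← Nat.card_eq_fintype_card]
    exact le_mul_of_one_le_left hQ0 hp
  have hw2 : (Fintype.card ((Σ i, Fin (dd i) × Fin (dd i)) × (Q ⧸ N)) : ℝ) ≤ p * Nat.card Q := by
    rw [hcJ]
    exact le_mul_of_one_le_left hQ0 hp
  have key := td_of_blocks (J := (Σ i, Fin (dd i) × Fin (dd i)) × (Q ⧸ N))
    (I := (q : Σ i, Fin (dd i) × Fin (dd i)) ×
      Quotient (QuotientGroup.rightRel (Q₁ ⟨q.1, q.2.1⟩)))
    F.c U U' (w := p * Nat.card Q) (s := s) (tU := 1) (t := t) hs ht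
    (bx_of_blk (hBU.mono hN) hs hw1 hw2) (bx_of_blk (hBU'.mono hN) hs hw2 hw1)
    (fun j => ⟨j.1, cs_rc N (Q₁ ⟨j.1.1, j.1.2.1⟩) j.2⟩)
    (fun b => Q₁ ⟨b.1.1, b.1.2.1⟩ ⧸ N.subgroupOf (Q₁ ⟨b.1.1, b.1.2.1⟩))
    (fun b => (F' ⟨b.1.1, b.1.2.1⟩).c)
    (fun b j => cs_yc N (Q₁ ⟨b.1.1, b.1.2.1⟩) j.2)
    (by
      rintro b ⟨i, k⟩ ⟨i', k'⟩ rfl h2 h3
      simp only [Sigma.mk.injEq] at h2 h3
      obtain ⟨h2, h4⟩ := h2
      subst h2
      have h5 := (cs_bij N (Q₁ ⟨i'.1, i'.2.1⟩) (hNQ _)).1 (Prod.ext (eq_of_heq h4).symm h3 :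
        (cs_rc N (Q₁ ⟨i'.1, i'.2.1⟩) k, cs_yc N (Q₁ ⟨i'.1, i'.2.1⟩) k) =
          (cs_rc N (Q₁ ⟨i'.1, i'.2.1⟩) k', cs_yc N (Q₁ ⟨i'.1, i'.2.1⟩) k'))
      rw [h5])
    (fun b => p * Nat.card (Q₁ ⟨b.1.1, b.1.2.1⟩ ⧸ N.subgroupOf (Q₁ ⟨b.1.1, b.1.2.1⟩)))
    (fun b => hM _ (hNQ _) _)
    (by
      rw [Fintype.sum_sigma]
      have h1 : ∀ q : (Σ i, Fin (dd i) × Fin (dd i)),
          ∑ _t : Quotient (QuotientGroup.rightRel (Q₁ ⟨q.1, q.2.1⟩)),
            (p * Nat.card (Q₁ ⟨q.1, q.2.1⟩ ⧸ N.subgroupOf (Q₁ ⟨q.1, q.2.1⟩)) : ℝ) =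
              p * Nat.card (Q ⧸ N) := by
        intro q
        rw [Finset.sum_const, Finset.card_univ, nsmul_eq_mul,
          cs_rc_card (Q₁ ⟨q.1, q.2.1⟩) (hNQ _),
          Nat.card_eq_fintype_card (α := Quotient (QuotientGroup.rightRel (Q₁ ⟨q.1, q.2.1⟩)))]
        push_cast
        ring
      rw [Finset.sum_congr rfl fun q _ => h1 q, Finset.sum_const, Finset.card_univ, nsmul_eq_mul,
        hcN, hcQ]
      push_cast
      apply le_of_eq
      ring)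
    (fun _ => 1) (fun _ => 1)
    (fun c hc => by
      have hcut := fun (q : Σ i, Fin (dd i)) => cut_central hR M q.1 q.2 (Q₁ q) (F' q) (hF1 q)
        (hF4 q) (hF5 q) c hc
      choose c' hc'1 hc'2 using hcut
      refine ⟨fun b => c' ⟨b.1.1, b.1.2.1⟩, fun b => hc'1 _, ?_⟩
      obtain ⟨z, hz⟩ : ∃ z : Matrix Q Q ℂ, z = ∑ x, c x • F.T x := ⟨_, rfl⟩
      refine change_basis F.T F.indep (dfam M Q₁ F') (LinearMap.mulLeft ℂ z) (tmat F.c c) _ U U'
        (fun y => ?_) ?_ hU hU'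
      · rw [LinearMap.mulLeft_apply, hz]
        exact F.sum_mul c y
      · rintro ⟨q, k⟩
        rw [LinearMap.mulLeft_apply, Fintype.sum_prod_type, Finset.sum_eq_single q]
        · have h1 : ∀ k' : Q ⧸ N, (Matrix.of fun (p q : (Σ i, Fin (dd i) × Fin (dd i)) × (Q ⧸ N)) =>
              if (⟨p.1, cs_rc N (Q₁ ⟨p.1.1, p.1.2.1⟩) p.2⟩ :
                (q : Σ i, Fin (dd i) × Fin (dd i)) ×
                  Quotient (QuotientGroup.rightRel (Q₁ ⟨q.1, q.2.1⟩))) =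
                ⟨q.1, cs_rc N (Q₁ ⟨q.1.1, q.1.2.1⟩) q.2⟩ then
              (1 : ℂ) * tmat (F' ⟨q.1.1, q.1.2.1⟩).c (c' ⟨q.1.1, q.1.2.1⟩)
                (cs_yc N (Q₁ ⟨q.1.1, q.1.2.1⟩) p.2) (cs_yc N (Q₁ ⟨q.1.1, q.1.2.1⟩) q.2) * 1
              else 0) (q, k') (q, k) • dfam M Q₁ F' (q, k') =
              if cs_rc N (Q₁ ⟨q.1, q.2.1⟩) k' = cs_rc N (Q₁ ⟨q.1, q.2.1⟩) k then
                tmat (F' ⟨q.1, q.2.1⟩).c (c' ⟨q.1, q.2.1⟩) (cs_yc N (Q₁ ⟨q.1, q.2.1⟩) k')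
                  (cs_yc N (Q₁ ⟨q.1, q.2.1⟩) k) •
                ((F' ⟨q.1, q.2.1⟩).T (cs_yc N (Q₁ ⟨q.1, q.2.1⟩) k') *
                  M.E q.1 q.2.1 q.2.2 * F.T (cs_rc N (Q₁ ⟨q.1, q.2.1⟩) k).out) else 0 := by
            intro k'
            by_cases hk : cs_rc N (Q₁ ⟨q.1, q.2.1⟩) k' = cs_rc N (Q₁ ⟨q.1, q.2.1⟩) k
            · rw [Matrix.of_apply, if_pos hk, if_pos (by simp only [hk]), one_mul, mul_one, dfam]
              simp only [hk]
            · rw [Matrix.of_apply, if_neg hk, if_neg, zero_smul]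
              intro h2
              simp only [Sigma.mk.injEq, heq_eq_eq, true_and] at h2
              exact hk h2
          rw [Finset.sum_congr rfl fun k' _ => h1 k',
            cs_rc_sum (Q₁ ⟨q.1, q.2.1⟩) (hNQ _) (cs_rc N (Q₁ ⟨q.1, q.2.1⟩) k) (fun x =>
              tmat (F' ⟨q.1, q.2.1⟩).c (c' ⟨q.1, q.2.1⟩) x (cs_yc N (Q₁ ⟨q.1, q.2.1⟩) k) •
                ((F' ⟨q.1, q.2.1⟩).T x * M.E q.1 q.2.1 q.2.2 *
                  F.T (cs_rc N (Q₁ ⟨q.1, q.2.1⟩) k).out))]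
          have h2 : z * (F' ⟨q.1, q.2.1⟩).T (cs_yc N (Q₁ ⟨q.1, q.2.1⟩) k) =
              ∑ x, tmat (F' ⟨q.1, q.2.1⟩).c (c' ⟨q.1, q.2.1⟩) x
                (cs_yc N (Q₁ ⟨q.1, q.2.1⟩) k) • (F' ⟨q.1, q.2.1⟩).T x := by
            have h3 := hc'2 ⟨q.1, q.2.1⟩
            rw [← hz] at h3
            rw [← (F' ⟨q.1, q.2.1⟩).sum_mul, ← h3, Matrix.mul_assoc,
              (hF3 ⟨q.1, q.2.1⟩ (cs_yc N (Q₁ ⟨q.1, q.2.1⟩) k)).1]
          rw [dfam]
          simp only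
          rw [← Matrix.mul_assoc, ← Matrix.mul_assoc, h2, Finset.sum_mul, Finset.sum_mul]
          refine Finset.sum_congr rfl fun x _ => ?_
          rw [Matrix.smul_mul, Matrix.smul_mul]
        · intro q' _ hq'
          refine Finset.sum_eq_zero fun k' _ => ?_
          rw [Matrix.of_apply, if_neg, zero_smul]
          intro h1
          simp only [Sigma.mk.injEq] at h1
          exact hq' h1.1
        · intro h
          exact absurd (Finset.mem_univ _) h)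
  rw [show t + 2 = 1 + t + 1 by ring]
  exact key

end MP0775d3.Cf
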