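import Pool.Agent.Lib.MP_0775d3_lc.Cf.Defs

/-! Cosets of a normal subgroup `R` and right cosets of a subgroup `S ≥ R`. -/

set_option linter.unusedSectionVars false
set_option linter.unusedVariables false

namespace MP0775d3.Cf

open Matrix MP0775d3.Sl2 MP0775d3.Solv

section Cosets
variable {Q : Type} [Group Q]

theorem cs_mem_coset (R : Subgroup Q) [R.Normal] (g : Q) (k : Q ⧸ R) :
    (g : Q ⧸ R) = k ↔ g * k.out⁻¹ ∈ R := by
  have h : ((k.out : Q) : Q ⧸ R) = k := QuotientGroup.out_eq' k
  constructor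
  · intro h1
    have h2 : k.out⁻¹ * g ∈ R := QuotientGroup.eq.1 (h.trans h1.symm)
    exact Subgroup.Normal.mem_comm inferInstance h2
  · intro h1
    have h2 : k.out⁻¹ * g ∈ R := Subgroup.Normal.mem_comm inferInstance h1
    exact ((QuotientGroup.eq.2 h2).symm.trans h)

variable (R S : Subgroup Q)

/-- the right coset of the representative -/
noncomputable def cs_rc (k : Q ⧸ R) : Quotient (QuotientGroup.rightRel S) :=
  Quotient.mk'' k.out

theorem cs_rc_mem (k : Q ⧸ R) : k.out * (cs_rc R S k).out⁻¹ ∈ S := by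
  have h : (QuotientGroup.rightRel S) (cs_rc R S k).out k.out := Quotient.mk_out _
  exact QuotientGroup.rightRel_apply.1 h

/-- the class of the quotient of the representatives -/
noncomputable def cs_yc (k : Q ⧸ R) : S ⧸ R.subgroupOf S :=
  ((⟨k.out * (cs_rc R S k).out⁻¹, cs_rc_mem R S k⟩ : S) : S ⧸ R.subgroupOf S)

theorem cs_bij [R.Normal] (hRS : R ≤ S) :
    Function.Bijective (fun k : Q ⧸ R => (cs_rc R S k, cs_yc R S k)) := by
  constructor
  · intro k k' h
    obtain ⟨h1, h2⟩ := Prod.mk.inj h
    have h3 := QuotientGroup.eq.1 h2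
    rw [Subgroup.mem_subgroupOf] at h3
    simp only [Subgroup.coe_mul, InvMemClass.coe_inv, h1] at h3
    have h4 : (cs_rc R S k').out * (k.out⁻¹ * k'.out) * (cs_rc R S k').out⁻¹ ∈ R := by
      convert h3 using 1
      group
    have h5 : k.out⁻¹ * k'.out ∈ R := by
      have := (inferInstance : R.Normal).conj_mem _ h4 (cs_rc R S k').out⁻¹
      convert this using 1
      group
    rw [← QuotientGroup.out_eq' k, ← QuotientGroup.out_eq' k']
    exact QuotientGroup.eq.2 h5
  · rintro ⟨t, x⟩
    obtain ⟨k, hk⟩ : ∃ k : Q ⧸ R, k = (((x.out : S) : Q) * t.out : Q) := ⟨_, rfl⟩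
    have hr : k.out * t.out⁻¹ * ((x.out : S) : Q)⁻¹ ∈ R := by
      have h1 := (cs_mem_coset R (((x.out : S) : Q) * t.out) k).1 hk.symm
      have h2 := R.inv_mem h1
      convert h2 using 1
      group
    have hS : k.out * t.out⁻¹ ∈ S := by
      have := S.mul_mem (hRS hr) (x.out).2
      convert this using 1
      group
    have ht : cs_rc R S k = t := by
      have h1 : (QuotientGroup.rightRel S) t.out k.out := QuotientGroup.rightRel_apply.2 hS
      have h2 : (Quotient.mk'' t.out : Quotient (QuotientGroup.rightRel S)) =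
          Quotient.mk'' k.out := Quotient.sound h1
      rw [cs_rc, ← h2]
      exact Quotient.out_eq' t
    refine ⟨k, Prod.ext ht ?_⟩
    change cs_yc R S k = x
    rw [← QuotientGroup.out_eq' x, cs_yc]
    symm
    rw [QuotientGroup.eq, Subgroup.mem_subgroupOf]
    simp only [Subgroup.coe_mul, InvMemClass.coe_inv, ht]
    exact Subgroup.Normal.mem_comm (inferInstance : R.Normal) hr

end Cosets

section Sums
variable {Q : Type} [Group Q] [Fintype Q] [DecidableEq Q] {R : Subgroup Q}

open Classical in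
/-- a sum over a coset -/
theorem cs_coset_sum [R.Normal] {V : Type} [AddCommMonoid V] (k : Q ⧸ R) (H : Q → V) :
    ∑ g : Q, (if (g : Q ⧸ R) = k then H g else 0) = ∑ r : R, H (r * k.out) := by
  rw [← Equiv.sum_comp (Equiv.mulRight k.out)
    (fun g : Q => (if (g : Q ⧸ R) = k then H g else 0))]
  have h1 : ∀ g : Q, (if (((Equiv.mulRight k.out) g : Q) : Q ⧸ R) = k then
      H ((Equiv.mulRight k.out) g) else 0) = if g ∈ R then H (g * k.out) else 0 := by
    intro g
    rw [Equiv.coe_mulRight]
    have h2 : ((g * k.out : Q) : Q ⧸ R) = k ↔ g ∈ R := by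
      rw [cs_mem_coset, mul_inv_cancel_right]
    simp only [h2]
  simp only [h1]
  rw [← Finset.sum_filter]
  exact Finset.sum_subtype _ (fun x => by simp) _

open Classical in
/-- a sum over a right coset -/
theorem cs_rc_sum [R.Normal] (S : Subgroup Q) (hRS : R ≤ S) {V : Type}
    [AddCommMonoid V] (t : Quotient (QuotientGroup.rightRel S))
    (G : S ⧸ R.subgroupOf S → V) :
    ∑ k : Q ⧸ R, (if cs_rc R S k = t then G (cs_yc R S k) else 0) = ∑ x, G x := by
  have h := (cs_bij R S hRS).sum_comp (fun p => if p.1 = t then G p.2 else 0)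
  simp only at h
  rw [h, Fintype.sum_prod_type, Finset.sum_comm]
  simp

theorem cs_rc_card [R.Normal] (S : Subgroup Q) (hRS : R ≤ S) :
    Nat.card (Q ⧸ R) = Nat.card (Quotient (QuotientGroup.rightRel S)) *
      Nat.card (S ⧸ R.subgroupOf S) := by
  rw [Nat.card_congr (Equiv.ofBijective _ (cs_bij R S hRS)), Nat.card_prod]


end Sums

end MP0775d3.Cf
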