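import Pool.Agent.Lib.MP_0775d3_lc.Cf.Assemble
import Pool.Agent.Lib.MP_0775d3_lc.Cf.Cosets
import Pool.Agent.Lib.MP_0775d3_lc.Solv.StepOne

/-! The radical step: port of `Solv/StepOneMain.lean`. -/

set_option linter.unusedSectionVars false
set_option linter.unusedVariables false

namespace MP0775d3.Cf

open Matrix MP0775d3.Sl2 MP0775d3.Solv

section Fou
variable {Q : Type} [Group Q] [Fintype Q] [DecidableEq Q] {F : TFam Q Q} {R : Subgroup Q}
  {ι : Type} [Fintype ι] {M : ι → Q → ℂ}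

private theorem tdo_one (hM : Chars F.c R ι M) (i : ι) : M i 1 = F.c.a 1 1 := by
  have h := hM.mul i 1 R.one_mem 1 R.one_mem
  rw [mul_one] at h
  exact mul_right_cancel₀ (hM.ne i 1 R.one_mem) h

private theorem tdo_nonempty (hM : Chars F.c R ι M) : Nonempty ι := by
  have h := hM.card
  have h2 : 0 < Nat.card R := Nat.card_pos
  exact Fintype.card_pos_iff.1 (by omega)

open Classical in
/-- the Fourier matrix of the quotients of characters -/
private theorem tdo_fou (hM : Chars F.c R ι M) (j0 : ι) {w s : ℝ} {t : ℕ} (hF : FB w s t R) :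
    Bx w s t (Matrix.of fun (w : R) (i : ι) => M i w / M j0 w) := by
  refine hF ι (fun i w => M i w / M j0 w) (fun i => ?_) (fun i v w => ?_) (fun i j h => ?_)
  · have h1 : M j0 ((1 : R) : Q) = F.c.a 1 1 := tdo_one hM j0
    have h2 : M i ((1 : R) : Q) = F.c.a 1 1 := tdo_one hM i
    rw [h1, h2, div_self (F.c.ne 1 1)]
  · have h1 := hM.mul i v v.2 w w.2
    have h2 := hM.mul j0 v v.2 w w.2
    have ha := F.c.ne (v : Q) (w : Q)
    have n1 := hM.ne j0 v v.2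
    have n2 := hM.ne j0 w w.2
    have n3 := hM.ne j0 _ (R.mul_mem v.2 w.2)
    rw [Subgroup.coe_mul, div_mul_div_comm, h1, h2, mul_div_mul_left _ _ ha]
  · apply hM.inj
    intro r hr
    have h1 := congrFun h ⟨r, hr⟩
    simp only at h1
    exact (div_left_inj' (hM.ne j0 r hr)).1 h1

open Classical in
private theorem tdo_fou' (hM : Chars F.c R ι M) (j0 : ι) {w s : ℝ} {t : ℕ} (hF : FB w s t R) :
    Bx w s t (Matrix.of fun (w : R) (i : ι) => (M i w / M j0 w)⁻¹) := by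
  refine hF ι (fun i w => (M i w / M j0 w)⁻¹) (fun i => ?_) (fun i v w => ?_) (fun i j h => ?_)
  · have h1 : M j0 ((1 : R) : Q) = F.c.a 1 1 := tdo_one hM j0
    have h2 : M i ((1 : R) : Q) = F.c.a 1 1 := tdo_one hM i
    rw [h1, h2, div_self (F.c.ne 1 1), inv_one]
  · have h1 := hM.mul i v v.2 w w.2
    have h2 := hM.mul j0 v v.2 w w.2
    have ha := F.c.ne (v : Q) (w : Q)
    rw [Subgroup.coe_mul, ← mul_inv, div_mul_div_comm, h1, h2, mul_div_mul_left _ _ ha]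
  · apply hM.inj
    intro r hr
    have h1 := congrFun h ⟨r, hr⟩
    simp only at h1
    exact (div_left_inj' (hM.ne j0 r hr)).1 (inv_injective h1)

open Classical in
private theorem tdo_card (R : Subgroup Q) (x : ℝ) :
    ∑ _k : Q ⧸ R, x * (Nat.card R : ℝ) = x * Nat.card Q := by
  rw [Finset.sum_const, Finset.card_univ, nsmul_eq_mul,
    Subgroup.card_eq_card_quotient_mul_card_subgroup R, Nat.card_eq_fintype_card (α := Q ⧸ R)]
  push_cast
  ring

open Classical in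
private theorem tdo_U' [R.Normal] (hM : Chars F.c R ι M) {p s : ℝ} {t : ℕ} (ht : 1 ≤ t)
    (hF : FB (p * Nat.card R) s t R) :
    Bx (p * Nat.card Q) s t (Matrix.of fun (j : ι × (Q ⧸ R)) (g : Q) => if j.2 = (g : Q ⧸ R) then
      (F.c.a (g * j.2.out⁻¹) j.2.out)⁻¹ * M j.1 (g * j.2.out⁻¹) else 0) := by
  obtain ⟨j0⟩ := tdo_nonempty hM
  have h := bx_blocks (Matrix.of fun (j : ι × (Q ⧸ R)) (g : Q) =>
      if j.2 = (g : Q ⧸ R) then
      (F.c.a (g * j.2.out⁻¹) j.2.out)⁻¹ * M j.1 (g * j.2.out⁻¹) else 0)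
    (fun j => j.2) (fun g => (g : Q ⧸ R)) (fun j g hjg => by
      rw [Matrix.of_apply, if_neg hjg]) (fun _ => p * Nat.card R) ht (fun _ => ι) (fun _ => R)
    (fun _ => (Matrix.of fun (w : R) (i : ι) => M i w / M j0 w)ᵀ)
    (fun _ => (tdo_fou hM j0 hF).transpose) (fun _ j => j.1)
    (fun k g => if h : g * k.out⁻¹ ∈ R then ⟨g * k.out⁻¹, h⟩ else 1)
    (fun k j j' h1 h2 h3 => Prod.ext h3 (h1.trans h2.symm))
    (fun k g g' h1 h2 h3 => by
      have m1 := (cs_mem_coset R g k).1 h1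
      have m2 := (cs_mem_coset R g' k).1 h2
      simp only [dif_pos m1, dif_pos m2, Subtype.mk.injEq] at h3
      exact mul_right_cancel h3)
    (fun _ => 1) (fun g => (F.c.a (g * (g : Q ⧸ R).out⁻¹) (g : Q ⧸ R).out)⁻¹ *
      M j0 (g * (g : Q ⧸ R).out⁻¹))
    (fun k j g h1 h2 => by
      have m2 := (cs_mem_coset R g k).1 h2
      change j.2 = k at h1
      change (g : Q ⧸ R) = k at h2
      subst h1
      have n := hM.ne j0 _ m2
      rw [Matrix.of_apply, if_pos h2.symm, Matrix.transpose_apply, Matrix.of_apply, dif_pos m2,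
        h2, one_mul]
      field_simp)
  rw [tdo_card] at h
  exact h

open Classical in
private theorem tdo_U [R.Normal] (hM : Chars F.c R ι M) {p s : ℝ} {t : ℕ} (ht : 1 ≤ t)
    (hF : FB (p * Nat.card R) s t R) :
    Bx (p * Nat.card Q) s t (Matrix.of fun (g : Q) (j : ι × (Q ⧸ R)) => if (g : Q ⧸ R) = j.2 then
      (Nat.card R : ℂ)⁻¹ * ((M j.1 (g * j.2.out⁻¹))⁻¹ * F.c.a (g * j.2.out⁻¹) j.2.out) else 0) := by
  obtain ⟨j0⟩ := tdo_nonempty hM
  have h := bx_blocks (Matrix.of fun (g : Q) (j : ι × (Q ⧸ R)) =>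
      if (g : Q ⧸ R) = j.2 then
      (Nat.card R : ℂ)⁻¹ * ((M j.1 (g * j.2.out⁻¹))⁻¹ * F.c.a (g * j.2.out⁻¹) j.2.out) else 0)
    (fun g => (g : Q ⧸ R)) (fun j => j.2) (fun g j hjg => by
      rw [Matrix.of_apply, if_neg hjg]) (fun _ => p * Nat.card R) ht (fun _ => R) (fun _ => ι)
    (fun _ => (Matrix.of fun (w : R) (i : ι) => (M i w / M j0 w)⁻¹))
    (fun _ => (tdo_fou' hM j0 hF))
    (fun k g => if h : g * k.out⁻¹ ∈ R then ⟨g * k.out⁻¹, h⟩ else 1) (fun _ j => j.1)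
    (fun k g g' h1 h2 h3 => by
      have m1 := (cs_mem_coset R g k).1 h1
      have m2 := (cs_mem_coset R g' k).1 h2
      simp only [dif_pos m1, dif_pos m2, Subtype.mk.injEq] at h3
      exact mul_right_cancel h3)
    (fun k j j' h1 h2 h3 => Prod.ext h3 (h1.trans h2.symm))
    (fun g => (Nat.card R : ℂ)⁻¹ * ((M j0 (g * (g : Q ⧸ R).out⁻¹))⁻¹ *
      F.c.a (g * (g : Q ⧸ R).out⁻¹) (g : Q ⧸ R).out)) (fun _ => 1)
    (fun k g j h1 h2 => by
      have m1 := (cs_mem_coset R g k).1 h1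
      change (g : Q ⧸ R) = k at h1
      change j.2 = k at h2
      subst h2
      have n := hM.ne j0 _ m1
      have n' := hM.ne j.1 _ m1
      rw [Matrix.of_apply, if_pos h1, Matrix.of_apply, dif_pos m1, h1, mul_one]
      field_simp)
  rw [tdo_card] at h
  exact h

end Fou

/-- PROOF. Copy the proof of `Solv.step_one` (Lib/MP_0775d3_lc/Solv/StepOneMain.lean; its private
lemmas on cosets are public in Cf/Cosets: `som_` is `cs_`). Everything up to the matrices `U`, `U'` of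
the change of basis is chosen before `c` (and does not depend on `c`); then `td_of_blocks` with
`J = ι × (Q ⧸ R)`, `I = Σ i, Quotient (QuotientGroup.rightRel (Q₁ i))`,
`a p = ⟨p.1, cs_rc R (Q₁ p.1) p.2⟩`, `G b = Q₁ b.1 ⧸ R.subgroupOf (Q₁ b.1)`, `β b = (F' b.1).c`,
`x b p = cs_yc R (Q₁ b.1) p.2`, `u p = (ω p)⁻¹`, `v = ω`; the widths of the blocks add up as in the proof
of `hDB` there (`cs_rc_card`, `Chars.card`). `Bx` of `U`, `U'`: as `som_U`, `som_U'` there, `bx_blocks`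
over `Q ⧸ R` with the Fourier matrices of `R` (width `p |R|` each, in all `p |Q|`). -/
theorem td_one {Q : Type} [Group Q] [Finite Q] (α : Coc Q) (R A : Subgroup Q) [R.Normal]
    [A.Normal] (hRA : R ≤ A) (hA : ∀ a ∈ A, ∀ b ∈ A, a * b = b * a)
    (hrad : ∀ r ∈ R, ∀ a ∈ A, α.a r a = α.a a r) {p s : ℝ} {tF t : ℕ} (hp : 1 ≤ p) (hs : 1 ≤ s)
    (htF : 1 ≤ tF) (ht : 1 ≤ t) (hF : FB (p * Nat.card R) s tF R)
    (hM : ∀ (Q₁ : Subgroup Q), A ≤ Q₁ → ∀ (α' : Coc (Q₁ ⧸ R.subgroupOf Q₁)),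
      (∀ a b : Q₁, (a : Q) ∈ A → (b : Q) ∈ A →
        α'.a (a : Q₁ ⧸ R.subgroupOf Q₁) (b : Q₁ ⧸ R.subgroupOf Q₁) * α.a b a =
          α'.a (b : Q₁ ⧸ R.subgroupOf Q₁) (a : Q₁ ⧸ R.subgroupOf Q₁) * α.a a b) →
      TD (p * Nat.card (Q₁ ⧸ R.subgroupOf Q₁)) s t α') :
    TD (p * Nat.card Q) s (tF + t + 1) α := by
  classical
  have hQf : Fintype Q := Fintype.ofFinite Q
  obtain ⟨F, rfl, hsum, hunit, hone⟩ := exists_reg α
  have hReg : Reg F A := ⟨hunit, hone, inferInstance, hA⟩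
  have hRR : ∀ r ∈ R, ∀ s ∈ R, F.c.a r s = F.c.a s r := fun r hr s hs => hrad r hr s (hRA hs)
  obtain ⟨ι, hι, M, hM'⟩ := exists_chars hReg R hRA hRR
  obtain ⟨e, he⟩ : ∃ e : ι → Matrix Q Q ℂ, ∀ i, e i = idem F R (M i) := ⟨_, fun _ => rfl⟩
  have hsq : ∀ i, e i * e i = e i := fun i => by rw [he]; exact idem_sq hReg hM' i
  choose Q₁ hQ₁ using fun i => exists_stab hReg (e i)
  have hAQ : ∀ i, A ≤ Q₁ i := fun i a ha => (hQ₁ i a).2 (by
    rw [he]
    exact idem_comm hReg hRA hrad hM' i a ha)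
  have hRQ : ∀ i, R ≤ Q₁ i := fun i => hRA.trans (hAQ i)
  choose F' hF'1 hF'2 using fun i => exists_fam1 hReg hRA hrad hM' i (Q₁ i)
    (fun g => by rw [← he]; exact hQ₁ i g)
  choose ω' hω'0 hω' using hF'1
  -- the scalars
  obtain ⟨ω, hω⟩ : ∃ ω : ι × (Q ⧸ R) → ℂ, ∀ p, ω p =
      (F.c.a (p.2.out * (cs_rc R (Q₁ p.1) p.2).out⁻¹) (cs_rc R (Q₁ p.1) p.2).out)⁻¹ *
        ω' p.1 ⟨p.2.out * (cs_rc R (Q₁ p.1) p.2).out⁻¹, cs_rc_mem R (Q₁ p.1) p.2⟩ :=
    ⟨_, fun _ => rfl⟩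
  have hω0 : ∀ p, ω p ≠ 0 := fun p => by
    rw [hω]
    exact mul_ne_zero (inv_ne_zero (F.c.ne _ _)) (hω'0 _ _)
  have hd : ∀ i k, e i * F.T (Quotient.out k) = ω (i, k) • ((F' i).T (cs_yc R (Q₁ i) k) *
      F.T (cs_rc R (Q₁ i) k).out) := by
    intro i k
    have h1 := F.mul (Quotient.out k * (cs_rc R (Q₁ i) k).out⁻¹) (cs_rc R (Q₁ i) k).out
    rw [inv_mul_cancel_right] at h1
    have h2 := hω' i ⟨Quotient.out k * (cs_rc R (Q₁ i) k).out⁻¹, cs_rc_mem R (Q₁ i) k⟩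
    rw [← he] at h2
    simp only at h2
    have h3 : F.T (Quotient.out k) = (F.c.a (Quotient.out k * (cs_rc R (Q₁ i) k).out⁻¹)
        (cs_rc R (Q₁ i) k).out)⁻¹ • (F.T (Quotient.out k * (cs_rc R (Q₁ i) k).out⁻¹) *
          F.T (cs_rc R (Q₁ i) k).out) := by
      rw [h1, smul_smul, inv_mul_cancel₀ (F.c.ne _ _), one_smul]
    rw [h3, Matrix.mul_smul, ← Matrix.mul_assoc, h2, Matrix.smul_mul, smul_smul, hω]
    rfl
  have hU := tdo_U (F := F) hM' htF hF
  have hU' := tdo_U' (F := F) hM' htF hF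
  have hqf : ∀ i, Fintype (Quotient (QuotientGroup.rightRel (Q₁ i))) := fun i => inferInstance
  refine td_of_blocks (J := ι × (Q ⧸ R)) (I := (i : ι) × Quotient (QuotientGroup.rightRel (Q₁ i)))
    F.c _ _ hs ht hU hU' (fun q => ⟨q.1, cs_rc R (Q₁ q.1) q.2⟩)
    (fun b => Q₁ b.1 ⧸ R.subgroupOf (Q₁ b.1)) (fun b => (F' b.1).c)
    (fun b q => cs_yc R (Q₁ b.1) q.2) ?_
    (fun b => p * Nat.card (Q₁ b.1 ⧸ R.subgroupOf (Q₁ b.1)))
    (fun b => hM (Q₁ b.1) (hAQ b.1) (F' b.1).c (hF'2 b.1)) ?_ (fun q => (ω q)⁻¹) ω ?_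
  · rintro b ⟨i, k⟩ ⟨i', k'⟩ rfl h2 h3
    simp only [Sigma.mk.injEq] at h2 h3
    obtain ⟨h2, h4⟩ := h2
    subst h2
    have h5 := (cs_bij R (Q₁ i') (hRQ i')).1 (Prod.ext (eq_of_heq h4).symm h3 :
      (cs_rc R (Q₁ i') k, cs_yc R (Q₁ i') k) = (cs_rc R (Q₁ i') k', cs_yc R (Q₁ i') k'))
    rw [h5]
  · rw [Fintype.sum_sigma]
    have h1 : ∀ i, ∑ _t : Quotient (QuotientGroup.rightRel (Q₁ i)),
        (p * Nat.card (Q₁ i ⧸ R.subgroupOf (Q₁ i)) : ℝ) = Nat.card (Q ⧸ R) * p := by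
      intro i
      rw [Finset.sum_const, Finset.card_univ, nsmul_eq_mul, cs_rc_card (Q₁ i) (hRQ i),
        Nat.card_eq_fintype_card (α := Quotient (QuotientGroup.rightRel (Q₁ i)))]
      push_cast
      ring
    rw [Finset.sum_congr rfl fun i _ => h1 i, Finset.sum_const, Finset.card_univ, nsmul_eq_mul,
      hM'.card, Subgroup.card_eq_card_quotient_mul_card_subgroup R]
    push_cast
    apply le_of_eq
    ring
  intro c hc
  -- the central element
  obtain ⟨z, hz⟩ : ∃ z : Matrix Q Q ℂ, z = ∑ x, c x • F.T x := ⟨_, rfl⟩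
  have hzc : ∀ y, z * F.T y = F.T y * z := fun y => by
    rw [hz]
    exact F.comm_of_central c hc y
  have hze : ∀ i, z * e i = e i * z := by
    intro i
    rw [he, idem, Matrix.mul_smul, Matrix.smul_mul, Finset.mul_sum, Finset.sum_mul]
    congr 1
    refine Finset.sum_congr rfl fun r _ => ?_
    rw [Matrix.mul_smul, Matrix.smul_mul, hzc]
  have heze : ∀ i, e i * z * e i = e i * z := by
    intro i
    rw [Matrix.mul_assoc, hze, ← Matrix.mul_assoc, hsq]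
  have hez : ∀ i, e i * z = ∑ g : Q₁ i, c g • (e i * F.T g) := by
    intro i
    have h1 : ∀ g : Q, e i * (c g • F.T g) * e i =
        if g ∈ Q₁ i then c g • (e i * F.T g) else 0 := by
      intro g
      by_cases hg : g ∈ Q₁ i
      · rw [if_pos hg, Matrix.mul_smul, Matrix.smul_mul, Matrix.mul_assoc, (hQ₁ i g).1 hg,
          ← Matrix.mul_assoc, hsq]
      · rw [if_neg hg]
        rcases idem_dich hReg hRA hRR hM' i g with h | h
        · exact absurd ((hQ₁ i g).2 (by rw [he]; exact h)) hg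
        · rw [Matrix.mul_smul, Matrix.smul_mul, he, h, smul_zero]
    rw [← heze, hz, Finset.mul_sum, Finset.sum_mul]
    simp only [h1]
    rw [← Finset.sum_filter]
    exact Finset.sum_subtype _ (fun x => by simp) _
  -- the coefficients
  obtain ⟨c', hc'⟩ : ∃ c' : (i : ι) → (Q₁ i ⧸ R.subgroupOf (Q₁ i)) → ℂ, ∀ i x, c' i x =
      ∑ g : Q₁ i, if (g : Q₁ i ⧸ R.subgroupOf (Q₁ i)) = x then c g * ω' i g else 0 :=
    ⟨_, fun _ _ => rfl⟩
  have hsum' : ∀ i, ∑ x, c' i x • (F' i).T x = e i * z := by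
    intro i
    rw [hez]
    simp only [hc', Finset.sum_smul]
    rw [Finset.sum_comm]
    refine Finset.sum_congr rfl fun g _ => ?_
    have h0 := hω' i g
    rw [← he] at h0
    rw [h0, smul_smul, Finset.sum_eq_single (g : Q₁ i ⧸ R.subgroupOf (Q₁ i))]
    · rw [if_pos rfl]
    · intro x _ hx
      rw [if_neg hx.symm, zero_smul]
    · intro h
      exact absurd (Finset.mem_univ _) h
  -- the elements of the new family
  have hT' : ∀ i (g : Q₁ i), (F' i).T (g : Q₁ i ⧸ R.subgroupOf (Q₁ i)) =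
      (ω' i g)⁻¹ • (e i * F.T g) := by
    intro i g
    have h1 := hω' i g
    rw [← he] at h1
    rw [h1, smul_smul, inv_mul_cancel₀ (hω'0 i g), one_smul]
  have hzT : ∀ i (y : Q₁ i ⧸ R.subgroupOf (Q₁ i)), z * (F' i).T y = e i * z * (F' i).T y := by
    intro i y
    obtain ⟨g, rfl⟩ := QuotientGroup.mk_surjective y
    rw [hT', Matrix.mul_smul, Matrix.mul_smul, ← Matrix.mul_assoc, ← Matrix.mul_assoc, heze, hze]
  have hcen : ∀ i, Central (F' i).c (c' i) := by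
    intro i
    refine (F' i).central (c' i) fun y => ?_
    rw [hsum']
    obtain ⟨g, rfl⟩ := QuotientGroup.mk_surjective y
    have h1 : e i * F.T g * (e i * z) = e i * z * F.T g := by
      rw [← hze, Matrix.mul_assoc, ← Matrix.mul_assoc (F.T g) z, ← hzc, Matrix.mul_assoc z,
        (hQ₁ i g).1 g.2, ← Matrix.mul_assoc, ← hze, Matrix.mul_assoc z, ← Matrix.mul_assoc (e i),
        hsq]
      rw [Matrix.mul_assoc]
    rw [hT', Matrix.mul_smul, Matrix.smul_mul, ← Matrix.mul_assoc, heze, h1]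
  refine ⟨fun b => c' b.1, fun b => hcen b.1, ?_⟩
  -- the matrix in the new basis
  obtain ⟨D, hD⟩ : ∃ D : Matrix (ι × (Q ⧸ R)) (ι × (Q ⧸ R)) ℂ, ∀ p p', D p p' =
      if p.1 = p'.1 ∧ cs_rc R (Q₁ p'.1) p.2 = cs_rc R (Q₁ p'.1) p'.2 then
        (ω p)⁻¹ * tmat (F' p'.1).c (c' p'.1) (cs_yc R (Q₁ p'.1) p.2) (cs_yc R (Q₁ p'.1) p'.2) *
          ω p' else 0 := ⟨Matrix.of fun p p' => if p.1 = p'.1 ∧
            cs_rc R (Q₁ p'.1) p.2 = cs_rc R (Q₁ p'.1) p'.2 then
        (ω p)⁻¹ * tmat (F' p'.1).c (c' p'.1) (cs_yc R (Q₁ p'.1) p.2) (cs_yc R (Q₁ p'.1) p'.2) *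
          ω p' else 0, fun _ _ => rfl⟩
  -- the change of basis
  have hcb := change_basis F.T F.indep (fun p : ι × (Q ⧸ R) => e p.1 * F.T p.2.out)
    (LinearMap.mulLeft ℂ z) (tmat F.c c) D
    (Matrix.of fun (g : Q) (j : ι × (Q ⧸ R)) => if (g : Q ⧸ R) = j.2 then
      (Nat.card R : ℂ)⁻¹ * ((M j.1 (g * j.2.out⁻¹))⁻¹ * F.c.a (g * j.2.out⁻¹) j.2.out) else 0)
    (Matrix.of fun (j : ι × (Q ⧸ R)) (g : Q) => if j.2 = (g : Q ⧸ R) then
      (F.c.a (g * j.2.out⁻¹) j.2.out)⁻¹ * M j.1 (g * j.2.out⁻¹) else 0)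
    (fun y => by
      rw [LinearMap.mulLeft_apply, hz]
      exact F.sum_mul c y)
    (by
      rintro ⟨i, k⟩
      rw [LinearMap.mulLeft_apply, Fintype.sum_prod_type, Finset.sum_eq_single i]
      · have h1 : ∀ k' : Q ⧸ R, D (i, k') (i, k) • (e i * F.T (Quotient.out k')) =
            if cs_rc R (Q₁ i) k' = cs_rc R (Q₁ i) k then
              (ω (i, k) * tmat (F' i).c (c' i) (cs_yc R (Q₁ i) k') (cs_yc R (Q₁ i) k)) •
              ((F' i).T (cs_yc R (Q₁ i) k') * F.T (cs_rc R (Q₁ i) k).out) else 0 := by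
          intro k'
          rw [hD]
          by_cases hk : cs_rc R (Q₁ i) k' = cs_rc R (Q₁ i) k
          · rw [if_pos ⟨rfl, hk⟩, if_pos hk, hd i k', hk, smul_smul]
            congr 1
            have := hω0 (i, k')
            field_simp
          · rw [if_neg (fun h => hk h.2), if_neg hk, zero_smul]
        simp only [h1]
        rw [cs_rc_sum (Q₁ i) (hRQ i) (cs_rc R (Q₁ i) k) (fun x =>
          (ω (i, k) * tmat (F' i).c (c' i) x (cs_yc R (Q₁ i) k)) •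
              ((F' i).T x * F.T (cs_rc R (Q₁ i) k).out)), hd i k, Matrix.mul_smul,
          ← Matrix.mul_assoc, hzT, ← hsum', (F' i).sum_mul, Finset.sum_mul, Finset.smul_sum]
        refine Finset.sum_congr rfl fun x _ => ?_
        rw [Matrix.smul_mul, smul_smul]
      · intro i' _ hi'
        refine Finset.sum_eq_zero fun k' _ => ?_
        rw [hD, if_neg (fun h => hi' h.1), zero_smul]
      · intro h
        exact absurd (Finset.mem_univ _) h)
    (by
      rintro ⟨i, k⟩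
      simp only [Matrix.of_apply, ite_smul, zero_smul]
      rw [cs_coset_sum k (fun g => ((Nat.card R : ℂ)⁻¹ * ((M i (g * k.out⁻¹))⁻¹ *
        F.c.a (g * k.out⁻¹) k.out)) • F.T g), he, idem, Matrix.smul_mul, Finset.sum_mul,
        Finset.smul_sum]
      refine Finset.sum_congr rfl fun r _ => ?_
      rw [Matrix.smul_mul, F.mul, smul_smul, smul_smul, mul_inv_cancel_right, mul_assoc])
    (by
      intro g
      have hmem : g * (g : Q ⧸ R).out⁻¹ ∈ R := (cs_mem_coset R g _).1 rfl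
      simp only [Matrix.of_apply, ite_smul, zero_smul]
      rw [Fintype.sum_prod_type]
      simp only [Finset.sum_ite_eq', Finset.mem_univ, if_true]
      have h1 : ∀ i, ((F.c.a (g * (g : Q ⧸ R).out⁻¹) (g : Q ⧸ R).out)⁻¹ *
          M i (g * (g : Q ⧸ R).out⁻¹)) • (e i * F.T (g : Q ⧸ R).out) =
          (F.c.a (g * (g : Q ⧸ R).out⁻¹) (g : Q ⧸ R).out)⁻¹ •
            (F.T (g * (g : Q ⧸ R).out⁻¹) * e i * F.T (g : Q ⧸ R).out) := by
        intro i
        have h2 := idem_left hReg hM' i _ hmem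
        rw [← he] at h2
        rw [h2, Matrix.smul_mul, smul_smul]
      rw [Finset.sum_congr rfl fun i _ => h1 i, ← Finset.smul_sum, ← Finset.sum_mul,
        ← Finset.mul_sum]
      have h3 : ∑ i, e i = 1 := by
        simp only [he]
        exact idem_sum hReg hM'
      rw [h3, Matrix.mul_one, F.mul, smul_smul, inv_mul_cancel₀ (F.c.ne _ _), one_smul,
        inv_mul_cancel_right])
  have hDe : D = (Matrix.of fun q q' : ι × (Q ⧸ R) =>
      if (⟨q.1, cs_rc R (Q₁ q.1) q.2⟩ : (i : ι) × Quotient (QuotientGroup.rightRel (Q₁ i))) =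
        ⟨q'.1, cs_rc R (Q₁ q'.1) q'.2⟩ then
      (ω q)⁻¹ * tmat (F' q'.1).c (c' q'.1) (cs_yc R (Q₁ q'.1) q.2) (cs_yc R (Q₁ q'.1) q'.2) *
        ω q' else 0) := by
    ext q q'
    obtain ⟨i, k⟩ := q
    obtain ⟨i', k'⟩ := q'
    rw [hD, Matrix.of_apply]
    by_cases h1 : i = i' ∧ cs_rc R (Q₁ i') k = cs_rc R (Q₁ i') k'
    · obtain ⟨h2, h3⟩ := h1
      subst h2
      rw [if_pos ⟨rfl, h3⟩, if_pos (by simp only [h3])]
    · rw [if_neg h1, if_neg (fun h2 => h1 ?_)]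
      simp only [Sigma.mk.injEq] at h2
      obtain ⟨h3, h4⟩ := h2
      subst h3
      exact ⟨rfl, eq_of_heq h4⟩
  rw [hcb, hDe]

end MP0775d3.Cf
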