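import Pool.Agent.Lib.MP_0775d3_lc.Cf.CalcC

/-! The matrices of the change of basis in the nondegenerate step: port of `Solv/Kappa.lean`. -/

set_option linter.unusedSectionVars false
set_option linter.unusedVariables false

namespace MP0775d3.Cf

open Matrix MP0775d3.Sl2 MP0775d3.Solv

/-- PROOF. Copy the proof of `Solv.Kap.rdec` (Lib/MP_0775d3_lc/Solv/Kappa.lean), replacing `RDec` by
`Bx`, `FBound` by `FB`, `rdec_blocks'` by `bx_blocks` (the widths add up: `|A| / |W|` blocks of width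
`p |W|`). -/
theorem kap_bx {A : Type} [Group A] [Fintype A] {B : A → A → ℂ} {σ : A ≃* A} {κ : A → A → ℂ}
    (h : Kap B σ κ) {p s : ℝ} {t : ℕ} (ht : 1 ≤ t)
    (hF : ∀ V : Subgroup A, FB (p * Nat.card V) s t V) :
    Bx (p * Nat.card A) s t (Matrix.of κ) := by
  classical
  -- the subgroup of all `c * (σ c)⁻¹`
  let W : Subgroup A :=
    { carrier := {w | ∃ c, w = c * (σ c)⁻¹}
      one_mem' := ⟨1, by rw [map_one, inv_one, mul_one]⟩
      mul_mem' := by
        rintro _ _ ⟨c, rfl⟩ ⟨d, rfl⟩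
        refine ⟨c * d, ?_⟩
        rw [map_mul, _root_.mul_inv_rev, mul_assoc c, h.comm (σ c)⁻¹, ← mul_assoc, ← mul_assoc,
          ← mul_assoc]
      inv_mem' := by
        rintro _ ⟨c, rfl⟩
        refine ⟨c⁻¹, ?_⟩
        rw [map_inv, inv_inv, _root_.mul_inv_rev, inv_inv]
        exact h.comm _ _ }
  have hW : ∀ w : A, w ∈ W ↔ ∃ c, w = c * (σ c)⁻¹ := fun w => Iff.rfl
  choose cc hcc using fun w : W => (hW w.1).mp w.2
  choose θ hθ hr1 using h.r1
  obtain ⟨x₀, hx₀⟩ : ∃ x₀ : A, (∃ x, κ x 1 ≠ 0) → κ x₀ 1 ≠ 0 := by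
    by_cases hx : ∃ x, κ x 1 ≠ 0
    · obtain ⟨x, hx⟩ := hx
      exact ⟨x, fun _ => hx⟩
    · exact ⟨1, fun h1 => absurd h1 hx⟩
  have hone : ∀ c, B c 1 = 1 := by
    intro c
    have h1 := h.hr c 1 1
    rw [mul_one] at h1
    have h2 : (B c 1 - 1) * B c 1 = 0 := by linear_combination -h1
    exact sub_eq_zero.mp ((mul_eq_zero.mp h2).resolve_right (h.h0 c 1))
  let _ : Fintype (A ⧸ W) := Fintype.ofFinite _
  let _ : Fintype W := Fintype.ofFinite _
  have hχ : Bx (p * Nat.card W) s t (Matrix.of fun (v : W) (w : W) => B (cc w) v.1) := by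
    refine hF W W (fun w v => B (cc w) v.1) (fun w => hone _) (fun w v v' => h.hr _ _ _) ?_
    intro w w' hw
    have h1 : ∀ v : W, B (cc w * (cc w')⁻¹) v.1 = 1 := by
      intro v
      have h2 : B (cc w) v.1 = B (cc w * (cc w')⁻¹) v.1 * B (cc w') v.1 := by
        rw [← h.hl, inv_mul_cancel_right]
      have h3 : B (cc w) v.1 = B (cc w') v.1 := congrFun hw v
      have h4 : (B (cc w * (cc w')⁻¹) v.1 - 1) * B (cc w') v.1 = 0 := by
        linear_combination -h2 + h3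
      exact sub_eq_zero.mp ((mul_eq_zero.mp h4).resolve_right (h.h0 _ _))
    have h2 := fix_of_perp B h.hl h.hr h.h0 h.hn σ h.hσ (cc w * (cc w')⁻¹)
      fun c => h1 ⟨c * (σ c)⁻¹, c, rfl⟩
    rw [map_mul, map_inv] at h2
    apply Subtype.ext
    rw [hcc w, hcc w']
    have h3 : cc w = σ (cc w) * (σ (cc w'))⁻¹ * cc w' := by rw [h2, inv_mul_cancel_right]
    calc cc w * (σ (cc w))⁻¹ = (σ (cc w))⁻¹ * cc w := h.comm _ _
      _ = (σ (cc w))⁻¹ * (σ (cc w) * (σ (cc w'))⁻¹ * cc w') := by rw [← h3]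
      _ = (σ (cc w'))⁻¹ * cc w' := by rw [mul_assoc, inv_mul_cancel_left]
      _ = _ := h.comm _ _
  have hmem : ∀ (i : A ⧸ W) (b : A), (b : A ⧸ W) = i → (Quotient.out i)⁻¹ * b ∈ W := by
    intro i b hb
    rw [← QuotientGroup.eq, hb]
    exact Quotient.out_eq i
  have e1 : p * (Nat.card A : ℝ) = ∑ _i : A ⧸ W, p * (Nat.card W : ℝ) := by
    rw [Finset.sum_const, Finset.card_univ, nsmul_eq_mul,
      Subgroup.card_eq_card_quotient_mul_card_subgroup W, Nat.card_eq_fintype_card (α := A ⧸ W)]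
    push_cast
    ring
  rw [e1]
  refine bx_blocks (Matrix.of κ) (fun a => ((a * x₀⁻¹ : A) : A ⧸ W)) (fun b => (b : A ⧸ W)) ?_
    (fun _ => p * (Nat.card W : ℝ)) ht (fun _ => W) (fun _ => W)
    (fun _ => Matrix.of fun (v : W) (w : W) => B (cc w) v.1) (fun _ => hχ)
    (fun i a => if ha : (Quotient.out i)⁻¹ * (a * x₀⁻¹) ∈ W then ⟨_, ha⟩ else 1)
    (fun i b => if hb : (Quotient.out i)⁻¹ * b ∈ W then ⟨_, hb⟩ else 1) ?_ ?_
    (fun a => κ a (Quotient.out ((a * x₀⁻¹ : A) : A ⧸ W)))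
    (fun b => if hb : (Quotient.out (b : A ⧸ W))⁻¹ * b ∈ W then
      B (cc ⟨_, hb⟩) (Quotient.out (b : A ⧸ W) * x₀) *
        θ (Quotient.out (b : A ⧸ W)) (cc ⟨_, hb⟩) else 0) ?_
  · intro a b hab
    by_contra hne
    rw [Matrix.of_apply] at hne
    apply hab
    obtain ⟨φ, -, h4⟩ := h.r2 a b
    have h5 : κ (b⁻¹ * a) 1 ≠ 0 := fun hc => hne (by rw [h4, hc, mul_zero])
    obtain ⟨c, hc⟩ := h.supp_left x₀ (b⁻¹ * a) 1 (hx₀ ⟨_, h5⟩) h5
    symm
    rw [QuotientGroup.eq]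
    refine (hW _).mpr ⟨c, ?_⟩
    rw [← hc, mul_assoc]
  · intro i a a' ha ha' haa
    have h1 := hmem i _ ha
    have h2 := hmem i _ ha'
    simp only [dif_pos h1, dif_pos h2] at haa
    have h3 := congrArg Subtype.val haa
    exact mul_right_cancel (mul_left_cancel h3)
  · intro i b b' hb hb' hbb
    have h1 := hmem i _ hb
    have h2 := hmem i _ hb'
    simp only [dif_pos h1, dif_pos h2] at hbb
    have h3 := congrArg Subtype.val hbb
    exact mul_left_cancel h3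
  · intro i a b ha hb
    have h1 := hmem i _ ha
    have h2 := hmem i _ hb
    have ha' : ((a * x₀⁻¹ : A) : A ⧸ W) = i := ha
    have hb' : (b : A ⧸ W) = i := hb
    clear ha hb
    subst hb'
    simp only [ha', dif_pos h1, dif_pos h2, Matrix.of_apply]
    have h3 := hr1 (Quotient.out (b : A ⧸ W)) (cc ⟨_, h2⟩) a
    rw [← hcc ⟨_, h2⟩] at h3
    simp only [mul_inv_cancel_left] at h3
    have h4 : B (cc ⟨_, h2⟩) a = B (cc ⟨_, h2⟩) (Quotient.out (b : A ⧸ W) * x₀) *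
        B (cc ⟨_, h2⟩) ((Quotient.out (b : A ⧸ W))⁻¹ * (a * x₀⁻¹)) := by
      rw [← h.hr]
      congr 1
      rw [h.comm (Quotient.out (b : A ⧸ W)) x₀, mul_assoc, mul_inv_cancel_left, h.comm a,
        mul_inv_cancel_left]
    rw [h3, h4]
    ring

end MP0775d3.Cf
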