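import Pool.Agent.Lib.MP_0775d3_lc.Cf.Assemble
import Pool.Agent.Lib.MP_0775d3_lc.Cf.KapBx

/-! The nondegenerate step: port of `Solv/StepTwoMain.lean`. -/

set_option linter.unusedSectionVars false
set_option linter.unusedVariables false

namespace MP0775d3.Cf

open Matrix MP0775d3.Sl2 MP0775d3.Solv

section aux
variable {Q : Type} [Group Q] {A : Subgroup Q} [A.Normal]

/-- The part in `A` of an element of the coset of `x.out`. -/
private noncomputable def td2_bp (A : Subgroup Q) [A.Normal] (g : Q) : A :=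
  ⟨g * ((g : Q ⧸ A).out)⁻¹, by
    rw [← QuotientGroup.eq_one_iff, QuotientGroup.mk_mul, QuotientGroup.mk_inv,
      QuotientGroup.out_eq', mul_inv_cancel]⟩

private theorem td2_bp_mul (g : Q) : (td2_bp A g : Q) * (g : Q ⧸ A).out = g := by
  rw [td2_bp, inv_mul_cancel_right]

private theorem td2_bp_inj {g h : Q} (h1 : (g : Q ⧸ A) = (h : Q ⧸ A)) (h2 : td2_bp A g = td2_bp A h) :
    g = h := by
  rw [← td2_bp_mul (A := A) g, ← td2_bp_mul (A := A) h, h1, h2]

private theorem td2_mk_mul_out (a : A) (x : Q ⧸ A) : (((a : Q) * x.out : Q) : Q ⧸ A) = x := by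
  rw [QuotientGroup.mk_mul, QuotientGroup.out_eq', (QuotientGroup.eq_one_iff _).mpr a.2, one_mul]

private theorem td2_bp_mul_out (a : A) (x : Q ⧸ A) : td2_bp A ((a : Q) * x.out) = a := by
  apply Subtype.ext
  rw [td2_bp]
  simp only
  rw [td2_mk_mul_out, mul_inv_cancel_right]

/-- The matrices `U`, `U'`. -/
private theorem td2_bound_U [Fintype Q] [Fintype A] [Fintype (Q ⧸ A)] [DecidableEq (Q ⧸ A)]
    (κ : Q ⧸ A → A → A → ℂ) {p s : ℝ} {t : ℕ} (ht : 1 ≤ t)
    (hB : ∀ x, Bx (p * Nat.card A) s t (Matrix.of (κ x))) (u : A × (Q ⧸ A) → ℂ) (v : Q → ℂ) :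
    Bx (p * Nat.card Q) s t (Matrix.of fun (j : A × (Q ⧸ A)) (g : Q) =>
      if (g : Q ⧸ A) = j.2 then u j * κ j.2 j.1 (td2_bp A g) * v g else 0) := by
  have h := bx_blocks (Matrix.of fun (j : A × (Q ⧸ A)) (g : Q) =>
      if (g : Q ⧸ A) = j.2 then u j * κ j.2 j.1 (td2_bp A g) * v g else 0) Prod.snd
      (fun g : Q => (g : Q ⧸ A)) ?_ (fun _ => p * Nat.card A) ht (fun _ => A) (fun _ => A)
      (fun x => Matrix.of (κ x)) hB (fun _ j => j.1) (fun _ g => td2_bp A g) ?_ ?_ u v ?_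
  · have h1 : ∑ _x : Q ⧸ A, p * (Nat.card A : ℝ) = p * Nat.card Q := by
      rw [Finset.sum_const, nsmul_eq_mul, Finset.card_univ, ← Nat.card_eq_fintype_card,
        mul_left_comm, ← Nat.cast_mul, ← Subgroup.card_eq_card_quotient_mul_card_subgroup]
    rw [h1] at h
    exact h
  · intro j g hjg
    rw [Matrix.of_apply, if_neg fun hc => hjg hc.symm]
  · rintro i ⟨a, x⟩ ⟨a', x'⟩ h1 h2 h3
    exact Prod.ext h3 (h1.trans h2.symm)
  · intro i g g' h1 h2 h3
    exact td2_bp_inj (h1.trans h2.symm) h3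
  · rintro i ⟨a, x⟩ g h1 h2
    simp only at h1 h2
    subst h1
    rw [Matrix.of_apply, Matrix.of_apply, if_pos h2]

private theorem td2_sum_coset [Fintype Q] [Fintype A] {M : Type} [AddCommMonoid M] (x : Q ⧸ A)
    (f : Q → M) (h : ∀ g : Q, (g : Q ⧸ A) ≠ x → f g = 0) :
    ∑ g, f g = ∑ b : A, f ((b : Q) * x.out) := by
  symm
  refine Finset.sum_of_injOn (fun b : A => (b : Q) * x.out) ?_ (fun _ _ => Finset.mem_univ _)
    ?_ fun _ _ => rfl
  · intro b _ b' _ hb
    exact Subtype.ext (mul_right_cancel hb)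
  · intro g _ hg
    refine h g fun hx => hg ⟨td2_bp A g, Finset.mem_coe.mpr (Finset.mem_univ _), ?_⟩
    simp only
    rw [← hx, td2_bp_mul]

section
variable [Fintype Q] [DecidableEq Q] {F : TFam Q Q}

/-- The coefficient of `proj ((T a)⁻¹ * T g)`. -/
private noncomputable def td2_cf (F : TFam Q Q) (A : Subgroup Q) [A.Normal]
    (κ : Q ⧸ A → A → A → ℂ) (a : A) (g : Q) : ℂ :=
  (F.c.a (td2_bp A g) (g : Q ⧸ A).out)⁻¹ * κ (g : Q ⧸ A) a (td2_bp A g)

private theorem td2_proj_cf {F' : TFam (Q ⧸ A) Q} {κ : Q ⧸ A → A → A → ℂ}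
    (hp : ∀ x (a b : A), proj F A ((F.T a)⁻¹ * F.T b * F.T x.out) = κ x a b • F'.T x)
    (a : A) (g : Q) :
    proj F A ((F.T a)⁻¹ * F.T g) = td2_cf F A κ a g • F'.T (g : Q ⧸ A) := by
  have h1 : F.T g = (F.c.a (td2_bp A g) (g : Q ⧸ A).out)⁻¹ •
      (F.T (td2_bp A g) * F.T (g : Q ⧸ A).out) := by
    rw [F.mul, smul_smul, inv_mul_cancel₀ (F.c.ne _ _), one_smul, td2_bp_mul]
  rw [td2_cf, mul_smul, ← hp, ← proj_smul]
  conv_lhs => rw [h1]
  rw [Matrix.mul_smul, Matrix.mul_assoc]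

private theorem td2_proj_T (hR : Reg F A) {F' : TFam (Q ⧸ A) Q} {κ : Q ⧸ A → A → A → ℂ}
    (hp : ∀ x (a b : A), proj F A ((F.T a)⁻¹ * F.T b * F.T x.out) = κ x a b • F'.T x)
    (g : Q) : ∃ s : ℂ, proj F A (F.T g) = s • F'.T (g : Q ⧸ A) := by
  have h1 := td2_proj_cf hp (1 : A) g
  have h2 : F.T (1 : Q) * (F.T (1 : Q))⁻¹ = 1 :=
    Matrix.mul_nonsing_inv _ ((Matrix.isUnit_iff_isUnit_det _).mp (hR.unit 1))
  have h3 : (F.T (1 : Q))⁻¹ = (F.c.a 1 1)⁻¹ • (1 : Matrix Q Q ℂ) := by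
    rw [hR.one, Matrix.smul_mul, Matrix.one_mul] at h2
    rw [← h2, smul_smul, inv_mul_cancel₀ (F.c.ne _ _), one_smul, ← hR.one]
  rw [OneMemClass.coe_one, h3, Matrix.smul_mul, Matrix.one_mul, proj_smul] at h1
  refine ⟨F.c.a 1 1 * td2_cf F A κ 1 g, ?_⟩
  rw [mul_smul, ← h1, smul_smul, mul_inv_cancel₀ (F.c.ne _ _), one_smul]

/-- `z` in the new family. -/
private theorem td2_exists_coeff [Fintype (Q ⧸ A)] (hR : Reg F A) {F' : TFam (Q ⧸ A) Q}
    {κ : Q ⧸ A → A → A → ℂ}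
    (hp : ∀ x (a b : A), proj F A ((F.T a)⁻¹ * F.T b * F.T x.out) = κ x a b • F'.T x)
    (hw : ∀ x, ∃ w : Q → ℂ, F'.T x = ∑ h, w h • F.T h) (c : Q → ℂ) (hc : Central F.c c) :
    ∃ c' : Q ⧸ A → ℂ, ∑ x, c x • F.T x = ∑ x, c' x • F'.T x ∧ Central F'.c c' := by
  classical
  have hz := F.comm_of_central c hc
  choose s hs using td2_proj_T hR hp
  have h1 : ∑ x, c x • F.T x = ∑ x : Q ⧸ A,
      (∑ g : Q, if (g : Q ⧸ A) = x then c g * s g else 0) • F'.T x := by
    rw [← proj_fix hR (∑ x, c x • F.T x) fun b _ => (hz b).symm, proj_sum]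
    simp_rw [Finset.sum_smul]
    rw [Finset.sum_comm]
    refine Finset.sum_congr rfl fun g _ => ?_
    rw [proj_smul, hs, smul_smul, Finset.sum_eq_single (g : Q ⧸ A)]
    · rw [if_pos rfl]
    · intro x _ hx
      rw [if_neg fun h => hx h.symm, zero_smul]
    · intro h
      exact absurd (Finset.mem_univ _) h
  refine ⟨_, h1, F'.central _ ?_⟩
  intro y
  rw [← h1]
  obtain ⟨w, hw⟩ := hw y
  rw [hw, Finset.mul_sum, Finset.sum_mul]
  refine Finset.sum_congr rfl fun g _ => ?_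
  rw [Matrix.mul_smul, hz, Matrix.smul_mul]

end

end aux

/-- PROOF. Copy the proof of `Solv.step_two` (Lib/MP_0775d3_lc/Solv/StepTwoMain.lean, with its private
lemmas). `F`, `F'`, `κ` are chosen before `c`; `td_of_blocks` with `J = A × (Q ⧸ A)`, `I = A`,
`a p = p.1`, `G _ = Q ⧸ A`, `β _ = F'.c`, `x _ p = p.2`, `u = v = 1`, `w' _ = p * |Q ⧸ A|`
(sum over `A`: `p |Q|`). `Bx` of `U`, `U'`: as `bound_U` there, `bx_blocks` over `Q ⧸ A` with `kap_bx`
(for `κ` and for its entrywise inverse, `Kap.inv`), width `p |A|` each. -/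
theorem td_two {Q : Type} [Group Q] [Finite Q] (α : Coc Q) (A : Subgroup Q) [A.Normal]
    (hA : ∀ a ∈ A, ∀ b ∈ A, a * b = b * a)
    (hn : ∀ a ∈ A, (∀ b ∈ A, α.a a b = α.a b a) → a = 1) {p s : ℝ} {tF t : ℕ} (hp : 1 ≤ p)
    (hs : 1 ≤ s) (htF : 1 ≤ tF) (ht : 1 ≤ t) (hF : ∀ V : Subgroup A, FB (p * Nat.card V) s tF V)
    (hM : ∀ α' : Coc (Q ⧸ A), TD (p * Nat.card (Q ⧸ A)) s t α') :
    TD (p * Nat.card Q) s (tF + t + 1) α := by
  classical
  have iQ : Fintype Q := Fintype.ofFinite _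
  have iR : Fintype (Q ⧸ A) := Fintype.ofFinite _
  obtain ⟨F, hFc, hreg, hunit, hone⟩ := exists_reg α
  subst hFc
  have hR : Reg F A := ⟨hunit, by rw [hone], inferInstance, hA⟩
  obtain ⟨F', κ, hκ, hp', hcomm, -, hw⟩ := exists_fam hR hn
  have hU' := td2_bound_U κ htF (fun x => kap_bx (hκ x) htF hF) (fun _ => 1)
    (fun g => (F.c.a (td2_bp A g) (g : Q ⧸ A).out)⁻¹)
  have hU := (td2_bound_U (fun x a b => (κ x a b)⁻¹) htF (fun x => kap_bx (hκ x).inv htF hF)
    (fun j => ((({a | κ j.2 a 1 ≠ 0} : Set A).ncard : ℂ))⁻¹)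
    (fun g => F.c.a (td2_bp A g) (g : Q ⧸ A).out)).transpose
  have h4' : ∀ (b : A) (x : Q ⧸ A), F.c.a b x.out • F.T ((b : Q) * x.out) =
      ∑ a : A, κ x a b • (F.T a * F'.T x) := by
    intro b x
    rw [← F.mul]
    conv_lhs => rw [proj_expand hR hn (F.T b * F.T x.out)]
    refine Finset.sum_congr rfl fun a _ => ?_
    rw [← Matrix.mul_assoc, hp', Matrix.mul_smul]
  have hm : ∀ x : Q ⧸ A, ((({a | κ x a 1 ≠ 0} : Set A).ncard : ℂ)) ≠ 0 := by
    intro x hx
    rw [Nat.cast_eq_zero, Set.ncard_eq_zero (Set.toFinite _)] at hx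
    have h5 : ∀ a, κ x a 1 = 0 := by
      intro a
      by_contra hc
      have : a ∈ ({a | κ x a 1 ≠ 0} : Set A) := hc
      rw [hx] at this
      exact this
    have h6 := h4' 1 x
    rw [Finset.sum_eq_zero fun a _ => by rw [h5, zero_smul]] at h6
    exact (smul_ne_zero (F.c.ne _ _) (F.indep.ne_zero _)) h6
  refine td_of_blocks F.c _ _ hs ht hU hU' (fun j : A × (Q ⧸ A) => j.1) (fun _ => Q ⧸ A)
    (fun _ => F'.c) (fun _ j => j.2) (fun i j j' h1 h2 h3 => Prod.ext (h1.trans h2.symm) h3)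
    (fun _ => p * Nat.card (Q ⧸ A)) (fun _ => hM F'.c) ?_ (fun _ => 1) (fun _ => 1) ?_
  · rw [Finset.sum_const, nsmul_eq_mul, Finset.card_univ, ← Nat.card_eq_fintype_card,
      mul_left_comm, mul_comm (Nat.card A : ℝ), ← Nat.cast_mul,
      ← Subgroup.card_eq_card_quotient_mul_card_subgroup]
  intro c hc
  obtain ⟨c', hz', hc'⟩ := td2_exists_coeff hR hp' hw c hc
  have hz := F.comm_of_central c hc
  refine ⟨fun _ => c', fun _ => hc', ?_⟩
  refine change_basis F.T F.indep (fun j : A × (Q ⧸ A) => F.T j.1 * F'.T j.2)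
    (LinearMap.mulLeft ℂ (∑ x, c x • F.T x)) _ _ _ _ (fun g => F.sum_mul c g) ?_ ?_ ?_
  · rintro ⟨a, x⟩
    rw [LinearMap.mulLeft_apply, ← Matrix.mul_assoc, hz, Matrix.mul_assoc, hz', F'.sum_mul,
      Fintype.sum_prod_type, Finset.sum_eq_single a, Finset.mul_sum]
    · refine Finset.sum_congr rfl fun x' _ => ?_
      rw [Matrix.of_apply, if_pos rfl, Matrix.mul_smul, one_mul, mul_one]
    · intro a' _ ha
      refine Finset.sum_eq_zero fun x' _ => ?_
      rw [Matrix.of_apply, if_neg ha, zero_smul]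
    · intro h
      exact absurd (Finset.mem_univ _) h
  · rintro ⟨a, x⟩
    rw [td2_sum_coset x]
    · have h5 : ∀ b : A, ((({a | κ x a 1 ≠ 0} : Set A).ncard : ℂ)⁻¹ * (κ x a b)⁻¹ *
          F.c.a b x.out) • F.T ((b : Q) * x.out) =
          ∑ a' : A, ((({a | κ x a 1 ≠ 0} : Set A).ncard : ℂ)⁻¹ *
            (κ x a' b * (κ x a b)⁻¹)) • (F.T a' * F'.T x) := by
        intro b
        rw [mul_smul, h4', Finset.smul_sum]
        refine Finset.sum_congr rfl fun a' _ => ?_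
        rw [smul_smul]
        congr 1
        ring
      symm
      calc _ = ∑ b : A, ((({a | κ x a 1 ≠ 0} : Set A).ncard : ℂ)⁻¹ * (κ x a b)⁻¹ *
          F.c.a b x.out) • F.T ((b : Q) * x.out) := by
            refine Finset.sum_congr rfl fun b _ => ?_
            rw [Matrix.transpose_apply, Matrix.of_apply, if_pos (td2_mk_mul_out b x),
              td2_bp_mul_out, td2_mk_mul_out]
        _ = F.T a * F'.T x := by
            rw [Finset.sum_congr rfl fun b _ => h5 b, Finset.sum_comm, Finset.sum_eq_single a]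
            · rw [← Finset.sum_smul, ← Finset.mul_sum, (hκ x).orth a a, if_pos rfl,
                inv_mul_cancel₀ (hm x), one_smul]
            · intro a' _ ha
              rw [← Finset.sum_smul, ← Finset.mul_sum, (hκ x).orth a a', if_neg fun h => ha h.symm,
                mul_zero, zero_smul]
            · intro h
              exact absurd (Finset.mem_univ _) h
    · intro g hg
      rw [Matrix.transpose_apply, Matrix.of_apply, if_neg hg, zero_smul]
  · intro g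
    rw [Fintype.sum_prod_type_right, Finset.sum_eq_single (g : Q ⧸ A)]
    · have h5 := h4' (td2_bp A g) (g : Q ⧸ A)
      rw [td2_bp_mul] at h5
      calc F.T g = (F.c.a (td2_bp A g) (g : Q ⧸ A).out)⁻¹ •
            (F.c.a (td2_bp A g) (g : Q ⧸ A).out • F.T g) := by
              rw [smul_smul, inv_mul_cancel₀ (F.c.ne _ _), one_smul]
        _ = _ := by
            rw [h5, Finset.smul_sum]
            refine Finset.sum_congr rfl fun a _ => ?_
            rw [Matrix.of_apply, if_pos rfl, smul_smul, one_mul, mul_comm]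
    · intro x _ hx
      refine Finset.sum_eq_zero fun a _ => ?_
      rw [Matrix.of_apply, if_neg fun h => hx h.symm, zero_smul]
    · intro h
      exact absurd (Finset.mem_univ _) h

end MP0775d3.Cf
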