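import Pool.Agent.Lib.MP_0775d3_lc.Cf.Compress
import Pool.Agent.Lib.MP_0775d3_lc.Cf.FbB
import Pool.Agent.Lib.MP_0775d3_lc.Cf.TdOne
import Pool.Agent.Lib.MP_0775d3_lc.Cf.TdTwo
import Pool.Agent.Lib.MP_0775d3_lc.Cf.SmallD

/-! `TD` for groups with a normal series. -/

set_option linter.unusedSectionVars false
set_option linter.unusedVariables false

namespace MP0775d3.Cf

open Matrix MP0775d3.Sl2 MP0775d3.Solv

private lemma tds_rad {Q : Type} [Group Q] [Finite Q] (α : Coc Q) (A : Subgroup Q) [A.Normal]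
    (hA : ∀ a ∈ A, ∀ b ∈ A, a * b = b * a) : ∃ R : Subgroup Q, R.Normal ∧ R ≤ A ∧
      ∀ r, r ∈ R ↔ r ∈ A ∧ ∀ a ∈ A, α.a r a = α.a a r := by
  classical
  have : Fintype Q := Fintype.ofFinite Q
  obtain ⟨F, rfl, -, hunit, hone⟩ := exists_reg α
  have hR : Reg F A := ⟨hunit, hone, inferInstance, hA⟩
  have key : ∀ r a, F.c.a r a = F.c.a a r ↔ pair F.c r a = 1 := by
    intro r a
    rw [pair, div_eq_one_iff_eq (F.c.ne _ _)]
  have h1 : ∀ a ∈ A, pair F.c 1 a = 1 := by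
    intro a _
    have h := pair_mul_left F 1 1 a (by rw [one_mul, mul_one]) (by rw [one_mul, mul_one])
    rw [one_mul] at h
    exact mul_left_cancel₀ (pair_ne F.c 1 a) (by rw [← h, mul_one])
  let R : Subgroup Q :=
    { carrier := {r | r ∈ A ∧ ∀ a ∈ A, pair F.c r a = 1}
      one_mem' := ⟨A.one_mem, h1⟩
      mul_mem' := by
        rintro r s ⟨hr, hr'⟩ ⟨hs, hs'⟩
        refine ⟨A.mul_mem hr hs, fun a ha => ?_⟩
        rw [pair_mul_left F r s a (hA r hr a ha) (hA s hs a ha), hr' a ha, hs' a ha, mul_one]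
      inv_mem' := by
        rintro r ⟨hr, hr'⟩
        refine ⟨A.inv_mem hr, fun a ha => ?_⟩
        have h := pair_mul_left F r⁻¹ r a (hA _ (A.inv_mem hr) a ha) (hA r hr a ha)
        rw [inv_mul_cancel, h1 a ha, hr' a ha, mul_one] at h
        exact h.symm }
  refine ⟨R, ⟨?_⟩, fun r hr => hr.1, fun r => ?_⟩
  · rintro r ⟨hr, hr'⟩ g
    refine ⟨Subgroup.Normal.conj_mem inferInstance r hr g, fun a ha => ?_⟩
    have ha' : g⁻¹ * a * g ∈ A := by
      have := Subgroup.Normal.conj_mem (inferInstance : A.Normal) a ha g⁻¹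
      rwa [inv_inv] at this
    have h := pair_conj hR g r (g⁻¹ * a * g) (hA r hr _ ha')
    rw [hr' _ ha', show g * (g⁻¹ * a * g) * g⁻¹ = a by group] at h
    exact h
  · constructor
    · rintro ⟨hr, hr'⟩
      exact ⟨hr, fun a ha => (key r a).mpr (hr' a ha)⟩
    · rintro ⟨hr, hr'⟩
      exact ⟨hr, fun a ha => (key r a).mp (hr' a ha)⟩

/-- The abelian step. PROOF. As in `Solv.solv_tmat` (Lib/MP_0775d3_lc/Solv/Induct.lean): the radical
`R` of `α` on `A` (copy the private lemma `exists_rad`), `td_one` for `R`, and for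
`Q₁ ⧸ R.subgroupOf Q₁` the subgroup `A₂ = (A.subgroupOf Q₁).map (mk' _)` and `td_two`; the hypothesis
`hM` is for the quotients `P` of subgroups `Q₁ ≥ A` with `A` in the kernel. -/
theorem td_ab {Q : Type} [Group Q] [Finite Q] (α : Coc Q) (A : Subgroup Q) [A.Normal]
    (hA : ∀ a ∈ A, ∀ b ∈ A, a * b = b * a) {p s : ℝ} {tF t : ℕ} (hp : 1 ≤ p) (hs : 1 ≤ s)
    (htF : 1 ≤ tF) (ht : 1 ≤ t)
    (hF : ∀ (W : Type) [Group W] [Finite W], (∀ a b : W, a * b = b * a) →
      (Nat.card W : ℝ) ≤ Nat.card Q → FB (p * Nat.card W) s tF W)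
    (hM : ∀ (Q₁ : Subgroup Q) (P : Type) [Group P] [Finite P] (π : Q₁ →* P),
      Function.Surjective π → (∀ x : Q₁, (x : Q) ∈ A → π x = 1) → ∀ α' : Coc P,
      TD (p * Nat.card P) s t α') :
    TD (p * Nat.card Q) s (tF + (tF + t + 1) + 1) α := by
  classical
  obtain ⟨R, hRn, hRA, hRmem⟩ := tds_rad α A hA
  have hcardle : ∀ {X Y : Type} [Finite X] (f : X → Y), Function.Surjective f →
      (Nat.card X : ℝ) ≤ Nat.card Q → (Nat.card Y : ℝ) ≤ Nat.card Q := by
    intro X Y _ f hf h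
    have : Nat.card Y ≤ Nat.card X := Nat.card_le_card_of_surjective f hf
    exact le_trans (by exact_mod_cast this) h
  have hcardle' : ∀ {X Y : Type} [Finite Y] (f : X → Y), Function.Injective f →
      (Nat.card Y : ℝ) ≤ Nat.card Q → (Nat.card X : ℝ) ≤ Nat.card Q := by
    intro X Y _ f hf h
    have : Nat.card X ≤ Nat.card Y := Nat.card_le_card_of_injective f hf
    exact le_trans (by exact_mod_cast this) h
  refine td_one α R A hRA hA (fun r hr a ha => ((hRmem r).mp hr).2 a ha) hp hs htF (by omega) ?_ ?_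
  · refine hF R ?_ ?_
    · intro a b
      exact Subtype.ext (hA a (hRA a.2) b (hRA b.2))
    · exact hcardle' (fun x : R => (x : Q)) Subtype.val_injective le_rfl
  · intro Q₁ hAQ α' hpair
    have hcQ1 : (Nat.card Q₁ : ℝ) ≤ Nat.card Q :=
      hcardle' (fun x : Q₁ => (x : Q)) Subtype.val_injective le_rfl
    have hcQ2 : (Nat.card (Q₁ ⧸ R.subgroupOf Q₁) : ℝ) ≤ Nat.card Q :=
      hcardle (QuotientGroup.mk' (R.subgroupOf Q₁)) (QuotientGroup.mk'_surjective _) hcQ1
    set A₂ : Subgroup (Q₁ ⧸ R.subgroupOf Q₁) :=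
      (A.subgroupOf Q₁).map (QuotientGroup.mk' (R.subgroupOf Q₁)) with hA₂
    have hA₂n : A₂.Normal :=
      Subgroup.Normal.map inferInstance _ (QuotientGroup.mk'_surjective _)
    have hA₂c : ∀ a ∈ A₂, ∀ b ∈ A₂, a * b = b * a := by
      rintro _ ⟨a, ha, rfl⟩ _ ⟨b, hb, rfl⟩
      rw [← map_mul, ← map_mul]
      congr 1
      exact Subtype.ext (hA a ha b hb)
    refine td_two α' A₂ hA₂c ?_ hp hs htF ht ?_ ?_
    · rintro _ ⟨a, ha, rfl⟩ hb
      have haR : (a : Q) ∈ R := by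
        rw [hRmem]
        refine ⟨ha, fun b hbA => ?_⟩
        have h1 := hpair a ⟨b, hAQ hbA⟩ ha hbA
        have h2 := hb (QuotientGroup.mk' (R.subgroupOf Q₁) ⟨b, hAQ hbA⟩) ⟨_, hbA, rfl⟩
        have h3 : α'.a (a : Q₁ ⧸ R.subgroupOf Q₁)
            ((⟨b, hAQ hbA⟩ : Q₁) : Q₁ ⧸ R.subgroupOf Q₁) =
            α'.a ((⟨b, hAQ hbA⟩ : Q₁) : Q₁ ⧸ R.subgroupOf Q₁)
            (a : Q₁ ⧸ R.subgroupOf Q₁) := h2
        rw [h3] at h1
        exact (mul_left_cancel₀ (α'.ne _ _) h1).symm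
      exact (QuotientGroup.eq_one_iff a).mpr haR
    · intro V
      refine hF V ?_ ?_
      · intro a b
        exact Subtype.ext (Subtype.ext (hA₂c a.1 a.1.2 b.1 b.1.2))
      · exact hcardle' (fun x : V => ((x : A₂) : Q₁ ⧸ R.subgroupOf Q₁))
          (Subtype.val_injective.comp Subtype.val_injective) hcQ2
    · intro α''
      refine hM Q₁ ((Q₁ ⧸ R.subgroupOf Q₁) ⧸ A₂)
        ((QuotientGroup.mk' A₂).comp (QuotientGroup.mk' (R.subgroupOf Q₁)))
        ((QuotientGroup.mk'_surjective A₂).comp (QuotientGroup.mk'_surjective _)) ?_ α''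
      intro x hx
      exact (QuotientGroup.eq_one_iff _).mpr ⟨x, hx, rfl⟩

/-- PROOF. Induction on `r` (`t`, `C` depend on `r`). `r = 0`: `Q` is trivial, `td_trivial`. Step: the
first factor `M 1` is abelian (`td_ab`, `fb_abelian`, `ser_step`) or of order at most `c₀ N ^ δ`
(`td_small`, `ser_step` with `π = QuotientGroup.mk' _`). The constants: take `C` at least the constants
of `fb_abelian` and of the induction hypothesis and at least `c₀`, `TD.mono`, `FB.mono`. The order of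
`P` is at most `|Q| ≤ N`. -/
theorem td_ser (δ : ℝ) (hδ : 0 < δ) (c₀ : ℝ) (hc₀ : 1 ≤ c₀) (r : ℕ) : ∃ t : ℕ, 1 ≤ t ∧
    ∃ C : ℝ, 1 ≤ C ∧ ∀ N : ℝ, 1 ≤ N → ∀ (Q : Type) [Group Q] [Finite Q], Ser (c₀ * N ^ δ) r Q →
      (Nat.card Q : ℝ) ≤ N → ∀ α : Coc Q, TD (C * Nat.card Q) (C * N ^ δ) t α := by
  classical
  induction r with
  | zero =>
    refine ⟨1, le_rfl, 1, le_rfl, fun N hN Q _ _ hS hcard α => ?_⟩
    obtain ⟨M, h0, h1, -, -, -⟩ := hS
    have hN1 : 1 ≤ N ^ δ := Real.one_le_rpow hN hδ.le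
    have htriv : ∀ x : Q, x = 1 := by
      intro x
      have h5 : x ∈ M 0 := by
        rw [h1]
        exact Subgroup.mem_top x
      rw [h0] at h5
      exact Subgroup.mem_bot.1 h5
    rw [one_mul, one_mul]
    exact td_trivial htriv α hN1
  | succ r ih =>
    obtain ⟨t₀, ht₀, C₀, hC₀, ih⟩ := ih
    obtain ⟨tF, htF, CF, hCF, hFB⟩ := fb_abelian δ hδ
    refine ⟨tF + (tF + t₀ + 1) + 1, by omega, C₀ + CF + c₀, by linarith,
      fun N hN Q _ _ hS hcard α => ?_⟩
    obtain ⟨M, h0, h1, h2, h3, h4⟩ := hS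
    have hN1 : 1 ≤ N ^ δ := Real.one_le_rpow hN hδ.le
    have hN0 : 0 ≤ N ^ δ := by linarith
    have hC : 1 ≤ C₀ + CF + c₀ := by linarith
    have hs : 1 ≤ (C₀ + CF + c₀) * N ^ δ := one_le_mul_of_one_le_of_one_le hC hN1
    have hM : ∀ (Q₁ : Subgroup Q) (P : Type) [Group P] [Finite P] (π : Q₁ →* P),
        Function.Surjective π → (∀ x : Q₁, (x : Q) ∈ M 1 → π x = 1) → ∀ α' : Coc P,
        TD ((C₀ + CF + c₀) * Nat.card P) ((C₀ + CF + c₀) * N ^ δ) t₀ α' := by
      intro Q₁ P _ _ π hπ hk α'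
      have hP : Ser (c₀ * N ^ δ) r P := ser_step h0 h1 h2 h3 h4 Q₁ π hπ hk
      have hcP : (Nat.card P : ℝ) ≤ N := by
        have e1 : Nat.card P ≤ Nat.card Q₁ := Nat.card_le_card_of_surjective π hπ
        have e2 : Nat.card Q₁ ≤ Nat.card Q :=
          Nat.card_le_card_of_injective (fun x : Q₁ => (x : Q)) Subtype.val_injective
        exact le_trans (by exact_mod_cast e1.trans e2) hcard
      exact (ih N hN P hP hcP α').mono
        (mul_le_mul_of_nonneg_right (by linarith) (Nat.cast_nonneg _))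
        (mul_le_mul_of_nonneg_right (by linarith) hN0) le_rfl hs
    have hn1 : (M 1).Normal := h3 1
    rcases h4 0 (Nat.succ_pos r) with hab | hsm
    · refine td_ab α (M 1) ?_ hC hs htF ht₀ ?_ hM
      · intro a ha b hb
        have h5 := hab a ha b hb
        rw [h0, Subgroup.mem_bot] at h5
        exact mul_inv_eq_one.1 (by rw [_root_.mul_inv_rev, ← mul_assoc]; exact h5)
      · intro W _ _ hW hcW
        exact (hFB N hN W hW (hcW.trans hcard)).mono
          (mul_le_mul_of_nonneg_right (by linarith) (Nat.cast_nonneg _))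
          (mul_le_mul_of_nonneg_right (by linarith) hN0) le_rfl hs
    · have hcM : (Nat.card (M 1) : ℝ) ≤ (C₀ + CF + c₀) * N ^ δ := by
        rw [zero_add, h0, Subgroup.card_bot, Nat.cast_one, mul_one] at hsm
        exact hsm.trans (mul_le_mul_of_nonneg_right (by linarith) hN0)
      refine (td_small α (M 1) hC hcM ht₀ (fun Q₁ hQ₁ α' => ?_)).mono le_rfl le_rfl (by omega) hs
      exact hM Q₁ (Q₁ ⧸ (M 1).subgroupOf Q₁) (QuotientGroup.mk' _)
        (QuotientGroup.mk'_surjective _) (fun x hx => (QuotientGroup.eq_one_iff x).mpr hx) α'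

end MP0775d3.Cf
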