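import Pool.Agent.Lib.MP_0775d3_lc.Cf.SymGd
import Pool.Agent.Lib.MP_0775d3_lc.Cf.TdSer

/-! `GD` for products of groups of symmetric type and of a group with a series. -/

set_option linter.unusedSectionVars false
set_option linter.unusedVariables false

namespace MP0775d3.Cf

open Matrix MP0775d3.Sl2 MP0775d3.Solv

/-- Every group. PROOF. `Z = G`, `U = U' = 1`, constant labels, `B = groupMat f`. -/
theorem gd_card (G : Type) [Group G] [Finite G] : GD (Nat.card G) 1 (Nat.card G) 1 G := by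
  classical
  have hG : Fintype G := Fintype.ofFinite G
  have hc : (Fintype.card G : ℝ) ≤ Nat.card G := by rw [Nat.card_eq_fintype_card]
  have h1 : Bx (Nat.card G : ℝ) 1 1 (1 : Matrix G G ℂ) := bx_of_blk (blk_one le_rfl) le_rfl hc hc
  have h2 : ∀ a : Unit, (({z : G | (fun _ : G => ()) z = a} : Set G).ncard : ℝ) ≤ Nat.card G := by
    intro a
    have h3 : ({z : G | (fun _ : G => ()) z = a} : Set G).ncard ≤ Nat.card G := by
      rw [← Set.ncard_univ]
      exact Set.ncard_le_ncard (Set.subset_univ _)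
    exact_mod_cast h3
  refine ⟨G, hG, inferInstance, 1, 1, Unit, fun _ => (), fun _ => (), h1, h1, h2, h2,
    fun f _ => ⟨groupMat f, fun _ _ _ => rfl, ?_⟩⟩
  rw [Matrix.one_mul, Matrix.mul_one]

/-- Groups with a series. PROOF. `compress`, `td_ser` (with `c₀ = 4`), `gd_of_td`. -/
theorem gd_series (d : ℝ) (hd : 0 < d) : ∃ t : ℕ, 1 ≤ t ∧ ∃ C : ℝ, 1 ≤ C ∧ ∀ N : ℝ, 1 ≤ N →
    ∀ (G : Type) [Group G] [Finite G], HasSeries (N ^ (d / 2)) G → (Nat.card G : ℝ) ≤ N →
      GD (C * Nat.card G) (C * N ^ d) 1 t G := by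
  obtain ⟨r₀, hr⟩ := compress d hd
  obtain ⟨t, ht, C, hC, h⟩ := td_ser d hd 4 (by norm_num) r₀
  exact ⟨t, ht, C, hC, fun N hN G _ _ hG hc => gd_of_td (h N hN G (hr N hN G hG hc) hc)⟩

/-- PROOF. `η = d / 2`. `tD`, `CD` from `gd_series d`, `tS` from `sym_gd d`, `K₀ = ⌈2 / η⌉₊`,
`t = tD + K₀ (tS + 1)`. Given `e`: `hS`, `n₀` from `sym_gd`, `h = η hS`; given `A`:
`N₀ = max (n₀ ^ (1 / η)) A` (or larger). If `N ≤ N₀` then `|G| ≤ A N₀`: `gd_card` and `C ≥ A N₀`.
If `N > N₀`: `N ^ (η k) ≤ |G| ≤ A N ≤ N ^ 2` (`Mult.card`, `κ = N ^ η`), so `k ≤ K₀`. Induction on `k`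
with the statement `GD (C₁ |G| ^ (1 + e)) (C₁ N ^ d) (|G| ^ d) (tD + k (tS + 1)) G`, `C₁ = CD A`:
`k = 0`: `gd_series` at `A N` (`N ^ η ≤ (A N) ^ (d / 2)`). Step: `G ≃* P × R`, `n = |P| > N ^ η ≥ n₀`,
`IsSymType (N ^ h) P` gives `IsSymType (n ^ hS) P`, `sym_gd`, `GD.mono` (`n ^ d ≤ (A N) ^ d ≤ A N ^ d` as
`d ≤ 1`), `GD.prod`, `GD.congr`. -/
theorem base_gd (d : ℝ) (hd : 0 < d) (hd1 : d ≤ 1) : ∃ η : ℝ, 0 < η ∧ ∃ t : ℕ, 1 ≤ t ∧
    ∀ e : ℝ, 0 < e → ∃ h : ℝ, 0 < h ∧ ∀ A : ℝ, 1 ≤ A → ∃ C : ℝ, 1 ≤ C ∧ ∀ N : ℝ, 1 ≤ N →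
      ∀ (k : ℕ) (G : Type) [Group G] [Finite G],
      Mult (fun P _ => IsSymType (N ^ h) P ∧ N ^ η < Nat.card P)
        (fun D _ => HasSeries (N ^ η) D) k G → (Nat.card G : ℝ) ≤ A * N →
      GD (C * (Nat.card G : ℝ) ^ (1 + e)) (C * N ^ d) (C * (Nat.card G : ℝ) ^ d) t G := by
  obtain ⟨tD, htD, CD, hCD, hD⟩ := gd_series d hd
  obtain ⟨tS, htS, hS⟩ := sym_gd d hd
  have hη : 0 < d / 2 := by positivity
  refine ⟨d / 2, hη, tD + ⌈2 / (d / 2)⌉₊ * (tS + 1), by omega, fun e he => ?_⟩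
  obtain ⟨hs, hhs, n₀, hn₀⟩ := hS e he
  refine ⟨d / 2 * hs, by positivity, fun A hA => ?_⟩
  obtain ⟨N₀, hN₀⟩ : ∃ N₀ : ℝ, N₀ = max ((n₀ : ℝ) ^ (1 / (d / 2))) A := ⟨_, rfl⟩
  have hN₀1 : A ≤ N₀ := by
    rw [hN₀]
    exact le_max_right _ _
  have hN₀2 : (n₀ : ℝ) ^ (1 / (d / 2)) ≤ N₀ := by
    rw [hN₀]
    exact le_max_left _ _
  have hA0 : 0 < A := by linarith
  have hC1 : 1 ≤ CD * A := one_le_mul_of_one_le_of_one_le hCD hA
  have hAN : 0 ≤ A * N₀ := mul_nonneg hA0.le (by linarith)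
  refine ⟨CD * A + A * N₀, by linarith, fun N hN k G _ _ hG hc => ?_⟩
  have hN0 : 0 < N := by linarith
  have hNd : 1 ≤ N ^ d := Real.one_le_rpow hN hd.le
  have hcard1 : ∀ (G : Type) [Group G] [Finite G], (1 : ℝ) ≤ Nat.card G := by
    intro G _ _
    have h1 : 1 ≤ Nat.card G := Nat.card_pos
    exact_mod_cast h1
  have hG1 := hcard1 G
  have hGd : 1 ≤ (Nat.card G : ℝ) ^ d := Real.one_le_rpow hG1 hd.le
  have hGe : (Nat.card G : ℝ) ≤ (Nat.card G : ℝ) ^ (1 + e) := by
    have h1 := Real.rpow_le_rpow_of_exponent_le hG1 (show (1 : ℝ) ≤ 1 + e by linarith)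
    rwa [Real.rpow_one] at h1
  have hs1 : 1 ≤ (CD * A + A * N₀) * N ^ d :=
    one_le_mul_of_one_le_of_one_le (by linarith) hNd
  rcases le_or_gt N N₀ with hNN | hNN
  · refine (gd_card G).mono ?_ hs1 ?_ (by omega) hs1
    · exact hGe.trans (le_mul_of_one_le_left (by linarith) (by linarith))
    · have h1 : (Nat.card G : ℝ) ≤ CD * A + A * N₀ := by
        have h2 : A * N ≤ A * N₀ := mul_le_mul_of_nonneg_left hNN hA0.le
        linarith
      exact h1.trans (le_mul_of_one_le_right (by linarith) hGd)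
  · have hN1 : 1 < N := by linarith
    have hNη : 1 ≤ N ^ (d / 2) := Real.one_le_rpow hN hη.le
    have hk : k ≤ ⌈2 / (d / 2)⌉₊ := by
      have h1 := Mult.card hNη (fun P _ (h : IsSymType (N ^ (d / 2 * hs)) P ∧
        N ^ (d / 2) < Nat.card P) => h.2) hG
      have h2 : (N ^ (d / 2)) ^ k ≤ N ^ (2 : ℝ) := by
        refine h1.trans (hc.trans ?_)
        rw [show (2 : ℝ) = 1 + 1 by norm_num, Real.rpow_add hN0, Real.rpow_one]
        exact mul_le_mul_of_nonneg_right (by linarith) hN0.le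
      rw [← Real.rpow_natCast, ← Real.rpow_mul hN0.le, Real.rpow_le_rpow_left_iff hN1] at h2
      have h3 : (k : ℝ) ≤ 2 / (d / 2) := by
        rw [le_div_iff₀ hη, mul_comm]
        exact h2
      exact_mod_cast h3.trans (Nat.le_ceil _)
    have hn : (n₀ : ℝ) ≤ N ^ (d / 2) := by
      have h1 : ((n₀ : ℝ) ^ (1 / (d / 2))) ^ (d / 2) ≤ N ^ (d / 2) :=
        Real.rpow_le_rpow (by positivity) (hN₀2.trans hNN.le) hη.le
      rw [← Real.rpow_mul (Nat.cast_nonneg _), one_div, inv_mul_cancel₀ hη.ne', Real.rpow_one] at h1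
      exact h1
    have hANd : (A * N) ^ d ≤ A * N ^ d := by
      rw [Real.mul_rpow hA0.le hN0.le]
      refine mul_le_mul_of_nonneg_right ?_ (by linarith)
      have h1 := Real.rpow_le_rpow_of_exponent_le hA hd1
      rwa [Real.rpow_one] at h1
    have hs2 : 1 ≤ CD * A * N ^ d := one_le_mul_of_one_le_of_one_le hC1 hNd
    have key : ∀ (k : ℕ) (G : Type) [Group G] [Finite G],
        Mult (fun P _ => IsSymType (N ^ (d / 2 * hs)) P ∧ N ^ (d / 2) < Nat.card P)
          (fun D _ => HasSeries (N ^ (d / 2)) D) k G → (Nat.card G : ℝ) ≤ A * N →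
        GD (CD * A * (Nat.card G : ℝ) ^ (1 + e)) (CD * A * N ^ d) ((Nat.card G : ℝ) ^ d)
          (tD + k * (tS + 1)) G := by
      intro k
      induction k with
      | zero =>
        intro G _ _ hG hc
        have hG1 := hcard1 G
        have h0 : HasSeries (N ^ (d / 2)) G := hG
        have hAN1 : 1 ≤ A * N := one_le_mul_of_one_le_of_one_le hA hN
        have h1 : N ^ (d / 2) ≤ (A * N) ^ (d / 2) :=
          Real.rpow_le_rpow hN0.le (le_mul_of_one_le_left hN0.le hA) hη.le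
        have hGe : (Nat.card G : ℝ) ≤ (Nat.card G : ℝ) ^ (1 + e) := by
          have h1 := Real.rpow_le_rpow_of_exponent_le hG1 (show (1 : ℝ) ≤ 1 + e by linarith)
          rwa [Real.rpow_one] at h1
        refine (hD (A * N) hAN1 G (h0.mono h1) hc).mono ?_ ?_ (Real.one_le_rpow hG1 hd.le)
          (by omega) hs2
        · rw [mul_assoc]
          refine mul_le_mul_of_nonneg_left (hGe.trans ?_) (by linarith)
          exact le_mul_of_one_le_left (by linarith) hA
        · rw [mul_assoc]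
          exact mul_le_mul_of_nonneg_left hANd (by linarith)
      | succ k ih =>
        intro G _ _ hG hc
        obtain ⟨P, R, iP, iR, ⟨hP1, hP2⟩, hR, ⟨f⟩⟩ := hG
        have hf : Finite (P × R) := Finite.of_equiv G f.toEquiv
        have hfP : Finite P := Finite.of_injective (fun p : P => ((p, 1) : P × R))
          fun p q h => (Prod.ext_iff.1 h).1
        have hfR : Finite R := Finite.of_injective (fun r : R => ((1, r) : P × R))
          fun p q h => (Prod.ext_iff.1 h).2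
        have hcG : (Nat.card G : ℝ) = Nat.card P * Nat.card R := by
          have h1 := Nat.card_congr f.toEquiv
          rw [Nat.card_prod] at h1
          exact_mod_cast h1
        have hP := hcard1 P
        have hRc := hcard1 R
        have hPG : (Nat.card P : ℝ) ≤ Nat.card G := by
          rw [hcG]
          exact le_mul_of_one_le_right (by linarith) hRc
        have hRG : (Nat.card R : ℝ) ≤ Nat.card G := by
          rw [hcG]
          exact le_mul_of_one_le_left (by linarith) hP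
        have h1 := ih R hR (hRG.trans hc)
        have h2 : n₀ ≤ Nat.card P := by
          exact_mod_cast hn.trans hP2.le
        have h3 : IsSymType ((Nat.card P : ℝ) ^ hs) P := by
          refine hP1.mono ?_
          rw [Real.rpow_mul hN0.le]
          exact Real.rpow_le_rpow (by linarith) hP2.le hhs.le
        have h4 := hn₀ P h2 h3
        have h5 : (Nat.card P : ℝ) ^ d ≤ CD * A * N ^ d := by
          have h6 : (Nat.card P : ℝ) ^ d ≤ (A * N) ^ d :=
            Real.rpow_le_rpow (Nat.cast_nonneg _) (hPG.trans hc) hd.le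
          have h7 : A * N ^ d ≤ CD * (A * N ^ d) :=
            le_mul_of_one_le_left (mul_nonneg hA0.le (by linarith)) hCD
          rw [mul_assoc]
          exact h6.trans (hANd.trans h7)
        have h6 := h4.mono le_rfl h5 le_rfl le_rfl hs2
        have h7 := GD.congr f.symm (GD.prod h6 h1 hs2 htS (by omega))
        refine h7.mono ?_ le_rfl ?_ ?_ hs2
        · rw [hcG, Real.mul_rpow (Nat.cast_nonneg _) (Nat.cast_nonneg _)]
          exact le_of_eq (by ring)
        · rw [hcG, Real.mul_rpow (Nat.cast_nonneg _) (Nat.cast_nonneg _)]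
        · exact le_of_eq (by ring)
    refine (key k G hG hc).mono ?_ ?_ ?_ ?_ hs1
    · exact mul_le_mul_of_nonneg_right (by linarith) (by linarith)
    · exact mul_le_mul_of_nonneg_right (by linarith) (by linarith)
    · exact le_mul_of_one_le_left (by linarith) (by linarith)
    · exact Nat.add_le_add_left (Nat.mul_le_mul_right _ hk) _

end MP0775d3.Cf
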