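import Pool.Agent.Lib.MP_0775d3_lc.Cf.Dft

/-! Discrete Fourier transforms of arbitrary size (Bluestein). -/

set_option linter.unusedSectionVars false
set_option linter.unusedVariables false

namespace MP0775d3.Cf

open Matrix MP0775d3.Bf

/-- PROOF. `c x y / m = c (x² + y² - (x - y)²) / (2 m)`, so `dft c m` is, up to scaling of rows and
columns, the matrix `ee (- c (x - y)² / (2 m))`, a corner of the circulant matrix of size `P ≥ 2 m` of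
the function `h u = ee (- c v² / (2 m))`, where `v` is the representative of `u` modulo `P` with
`- P / 2 ≤ v < P / 2` or the like (`Int.bmod u P`; `x - y = Int.bmod (x - y) P` since
`|x - y| < m ≤ P / 2`). `bx_circ`, `Bx.submatrix` along `Fin.castLE`, `Bx.scale`. -/
theorem bx_dft_of_pow (c : ℤ) {m P : ℕ} (hm : 0 < m) (hP : 2 * m ≤ P) {s : ℝ} (hs : 1 ≤ s) {t : ℕ}
    (ht : 1 ≤ t) (h1 : Bx P s t (dft 1 P)) (h2 : Bx P s t (dft (-1) P)) :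
    Bx P s (2 * t + 1) (dft c m) := by
  have hP0 : 0 < P := by omega
  have hmP : m ≤ P := by omega
  have hm0 : (m : ℝ) ≠ 0 := by
    have : (0 : ℝ) < m := by exact_mod_cast hm
    exact this.ne'
  have hc := bx_circ hP0 hs ht h1 h2 (fun u : ℤ => ee (-(c : ℝ) * ((Int.bmod u P : ℤ) : ℝ) ^ 2 / (2 * m)))
    (fun u => by
      show ee _ = ee _
      rw [Int.add_bmod_right])
  have hsub := hc.submatrix (Fin.castLE_injective hmP) (Fin.castLE_injective hmP)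
  have hsc := hsub.scale (by omega) (fun x : Fin m => ee ((c : ℝ) * ((x : ℕ) : ℝ) ^ 2 / (2 * m)))
    (fun y : Fin m => ee ((c : ℝ) * ((y : ℕ) : ℝ) ^ 2 / (2 * m)))
  have he : dft c m = Matrix.of fun (x y : Fin m) => ee ((c : ℝ) * ((x : ℕ) : ℝ) ^ 2 / (2 * m)) *
      ((Matrix.of fun x y : Fin P => (fun u : ℤ => ee (-(c : ℝ) * ((Int.bmod u P : ℤ) : ℝ) ^ 2 / (2 * m)))
        ((x : ℕ) - (y : ℕ) : ℤ)).submatrix (Fin.castLE hmP) (Fin.castLE hmP)) x y *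
      ee ((c : ℝ) * ((y : ℕ) : ℝ) ^ 2 / (2 * m)) := by
    ext x y
    have hx := x.isLt
    have hy := y.isLt
    have hb : Int.bmod (((x : ℕ) : ℤ) - ((y : ℕ) : ℤ)) P = ((x : ℕ) : ℤ) - ((y : ℕ) : ℤ) :=
      Int.bmod_eq_of_le_mul_two (by omega) (by omega)
    show ee ((c : ℝ) * (x : ℕ) * (y : ℕ) / m) = ee ((c : ℝ) * ((x : ℕ) : ℝ) ^ 2 / (2 * m)) *
      ee (-(c : ℝ) * ((Int.bmod (((x : ℕ) : ℤ) - ((y : ℕ) : ℤ)) P : ℤ) : ℝ) ^ 2 / (2 * m)) *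
      ee ((c : ℝ) * ((y : ℕ) : ℝ) ^ 2 / (2 * m))
    rw [hb, ← ee_add, ← ee_add]
    congr 1
    push_cast
    field_simp
    ring
  rw [he]
  exact hsc

/-- PROOF. `K = ⌈1 / δ⌉₊`, `B = ⌈(2 m) ^ (1 / K)⌉₊`: `2 m ≤ B ^ K ≤ (2 (2 m) ^ (1 / K)) ^ K =
2 ^ (K + 1) m` and `B ≤ 2 (2 m) ^ (1 / K) ≤ 4 N ^ δ`. `t = 4 K + 1`, `C = 2 ^ (K + 2)`. -/
theorem bx_dft (δ : ℝ) (hδ : 0 < δ) : ∃ t : ℕ, 1 ≤ t ∧ ∃ C : ℝ, 1 ≤ C ∧ ∀ N : ℝ, 1 ≤ N →
    ∀ m : ℕ, 0 < m → (m : ℝ) ≤ N → ∀ c : ℤ, Bx (C * m) (C * N ^ δ) t (dft c m) := by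
  set K : ℕ := ⌈1 / δ⌉₊ with hKdef
  have hK1 : 1 ≤ K := Nat.one_le_ceil_iff.2 (by positivity)
  have hK0 : (0 : ℝ) < K := by exact_mod_cast hK1
  have hKδ : (K : ℝ)⁻¹ ≤ δ := by
    have h1 : 1 / δ ≤ K := Nat.le_ceil _
    rw [div_le_iff₀ hδ] at h1
    rw [inv_le_iff_one_le_mul₀ hK0]
    linarith
  refine ⟨4 * K + 1, by omega, 2 ^ (K + 2), one_le_pow₀ (by norm_num), fun N hN m hm hmN c => ?_⟩
  have hm1 : (1 : ℝ) ≤ m := by exact_mod_cast hm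
  set r : ℝ := (2 * (m : ℝ)) ^ ((K : ℝ)⁻¹) with hr
  have hr1 : 1 ≤ r := Real.one_le_rpow (by linarith) (by positivity)
  have hrK : r ^ K = 2 * m := by
    rw [hr, ← Real.rpow_natCast, ← Real.rpow_mul (by positivity), inv_mul_cancel₀ hK0.ne', Real.rpow_one]
  set B : ℕ := ⌈r⌉₊ with hB
  have hB0 : 0 < B := Nat.one_le_ceil_iff.2 (by linarith)
  have hBr : r ≤ B := Nat.le_ceil _
  have hB2 : (B : ℝ) ≤ 2 * r := by
    have := Nat.ceil_lt_add_one (by linarith : 0 ≤ r)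
    linarith
  have hP1 : 2 * m ≤ B ^ K := by
    have : (2 * (m : ℝ)) ≤ (B : ℝ) ^ K := by
      rw [← hrK]
      exact pow_le_pow_left₀ (by linarith) hBr K
    exact_mod_cast this
  have hP2 : ((B ^ K : ℕ) : ℝ) ≤ 2 ^ (K + 2) * m := by
    push_cast
    calc (B : ℝ) ^ K ≤ (2 * r) ^ K := pow_le_pow_left₀ (Nat.cast_nonneg _) hB2 K
      _ = 2 ^ K * (2 * m) := by rw [mul_pow, hrK]
      _ = 2 ^ (K + 1) * m := by ring
      _ ≤ 2 ^ (K + 2) * m := by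
          refine mul_le_mul_of_nonneg_right (pow_le_pow_right₀ (by norm_num) (by omega)) (by linarith)
  have hNδ : 1 ≤ N ^ δ := Real.one_le_rpow hN hδ.le
  have hBs : (B : ℝ) ≤ 2 ^ (K + 2) * N ^ δ := by
    have e1 : r ≤ 2 * N ^ δ := by
      rw [hr, Real.mul_rpow (by norm_num) (by positivity)]
      have f1 : (2 : ℝ) ^ ((K : ℝ)⁻¹) ≤ 2 := by
        calc (2 : ℝ) ^ ((K : ℝ)⁻¹) ≤ 2 ^ (1 : ℝ) := Real.rpow_le_rpow_of_exponent_le (by norm_num)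
              (inv_le_one_of_one_le₀ (by exact_mod_cast hK1))
          _ = 2 := Real.rpow_one 2
      have f2 : (m : ℝ) ^ ((K : ℝ)⁻¹) ≤ N ^ δ :=
        (Real.rpow_le_rpow (by positivity) hmN (by positivity)).trans
          (Real.rpow_le_rpow_of_exponent_le hN hKδ)
      exact mul_le_mul f1 f2 (by positivity) (by norm_num)
    have e2 : (4 : ℝ) ≤ 2 ^ (K + 2) := by
      calc (4 : ℝ) = 2 ^ 2 := by norm_num
        _ ≤ 2 ^ (K + 2) := pow_le_pow_right₀ (by norm_num) (by omega)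
    calc (B : ℝ) ≤ 2 * r := hB2
      _ ≤ 4 * N ^ δ := by linarith
      _ ≤ 2 ^ (K + 2) * N ^ δ := mul_le_mul_of_nonneg_right e2 (by linarith)
  have hC1 : (1 : ℝ) ≤ 2 ^ (K + 2) := one_le_pow₀ (by norm_num)
  have hs : 1 ≤ 2 ^ (K + 2) * N ^ δ := by
    calc (1 : ℝ) = 1 * 1 := by norm_num
      _ ≤ 2 ^ (K + 2) * N ^ δ := mul_le_mul hC1 hNδ (by norm_num) (by linarith)
  have hfin := bx_dft_of_pow c hm hP1 hs (t := 2 * K) (by omega)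
    (bx_dft_pow 1 B K hB0 hK1 hBs) (bx_dft_pow (-1) B K hB0 hK1 hBs)
  exact hfin.mono hP2 le_rfl (by omega) hs

end MP0775d3.Cf
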