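import Pool.Agent.Lib.MP_0775d3_lc.Cf.Defs

/-! Calculus of block diagonal matrices. -/

set_option linter.unusedSectionVars false
set_option linter.unusedVariables false

namespace MP0775d3.Cf

open Matrix

variable {ι κ : Type} {s s' : ℝ} {A : Matrix ι κ ℂ}

private theorem calcA_one {α : Type*} {S : Set α} (h : ∀ a ∈ S, ∀ b ∈ S, a = b) (hs : 1 ≤ s) :
    (S.ncard : ℝ) ≤ s := by
  have hsub : S.Subsingleton := fun a ha b hb => h a ha b hb
  have h1 : S.ncard ≤ 1 := (Set.ncard_le_one hsub.finite).2 h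
  have h2 : (S.ncard : ℝ) ≤ 1 := by exact_mod_cast h1
  exact h2.trans hs

private theorem calcA_inj {α β : Type*} {S : Set α} {T : Set β} (f : α → β)
    (h1 : ∀ a ∈ S, f a ∈ T) (h2 : ∀ a ∈ S, ∀ b ∈ S, f a = f b → a = b) (hT : T.Finite)
    (hs : (T.ncard : ℝ) ≤ s) : (S.ncard : ℝ) ≤ s := by
  have h3 : S.ncard ≤ T.ncard :=
    Set.ncard_le_ncard_of_injOn f h1 (fun a ha b hb hab => h2 a ha b hb hab) hT
  have h4 : (S.ncard : ℝ) ≤ T.ncard := by exact_mod_cast h3
  exact h4.trans hs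

theorem Blk.mono (h : Blk s A) (hs : s ≤ s') : Blk s' A := by
  obtain ⟨L, r, c, h1, h2, h3⟩ := h
  exact ⟨L, r, c, fun l => (h1 l).trans hs, fun l => (h2 l).trans hs, h3⟩

theorem Blk.transpose (h : Blk s A) : Blk s Aᵀ := by
  obtain ⟨L, r, c, h1, h2, h3⟩ := h
  exact ⟨L, c, r, h2, h1, fun i j hij => (h3 j i hij).symm⟩

theorem Blk.submatrix [Finite ι] [Finite κ] (h : Blk s A) {ι' κ' : Type} {f : ι' → ι} {g : κ' → κ}
    (hf : Function.Injective f) (hg : Function.Injective g) : Blk s (A.submatrix f g) := by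
  obtain ⟨L, r, c, h1, h2, h3⟩ := h
  refine ⟨L, r ∘ f, c ∘ g, fun l => ?_, fun l => ?_, fun i j hij => h3 (f i) (g j) hij⟩
  · exact calcA_inj (T := {i | r i = l}) f (fun i hi => hi) (fun i _ i' _ h => hf h)
      (Set.toFinite _) (h1 l)
  · exact calcA_inj (T := {j | c j = l}) g (fun i hi => hi) (fun i _ i' _ h => hg h)
      (Set.toFinite _) (h2 l)

theorem Blk.scale (h : Blk s A) (u : ι → ℂ) (v : κ → ℂ) :
    Blk s (Matrix.of fun i j => u i * A i j * v j) := by
  obtain ⟨L, r, c, h1, h2, h3⟩ := h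
  refine ⟨L, r, c, h1, h2, fun i j hij => h3 i j fun h0 => hij ?_⟩
  rw [Matrix.of_apply, h0, mul_zero, zero_mul]

theorem blk_diagonal [DecidableEq ι] (hs : 1 ≤ s) (d : ι → ℂ) : Blk s (Matrix.diagonal d) := by
  refine ⟨ι, id, id, fun l => ?_, fun l => ?_, fun i j hij => ?_⟩
  · exact calcA_one (fun a ha b hb => (show a = l from ha).trans (show b = l from hb).symm) hs
  · exact calcA_one (fun a ha b hb => (show a = l from ha).trans (show b = l from hb).symm) hs
  · by_contra hne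
    exact hij (Matrix.diagonal_apply_ne d hne)

theorem blk_one [DecidableEq ι] (hs : 1 ≤ s) : Blk s (1 : Matrix ι ι ℂ) := by
  rw [← Matrix.diagonal_one]
  exact blk_diagonal hs _

/-- Small matrices. -/
theorem blk_card [Fintype ι] [Fintype κ] (h1 : (Fintype.card ι : ℝ) ≤ s)
    (h2 : (Fintype.card κ : ℝ) ≤ s) (A : Matrix ι κ ℂ) : Blk s A := by
  refine ⟨Unit, fun _ => (), fun _ => (), fun l => ?_, fun l => ?_, fun _ _ _ => rfl⟩
  · refine calcA_inj (T := Set.univ) id (fun _ _ => Set.mem_univ _) (fun _ _ _ _ h => h)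
      Set.finite_univ ?_
    rwa [Set.ncard_univ, Nat.card_eq_fintype_card]
  · refine calcA_inj (T := Set.univ) id (fun _ _ => Set.mem_univ _) (fun _ _ _ _ h => h)
      Set.finite_univ ?_
    rwa [Set.ncard_univ, Nat.card_eq_fintype_card]

/-- A partial permutation: at most one nonzero entry in each row and in each column. PROOF. Label the
row `i` by `inl i`, the column `j` by `inl i` if `A i j ≠ 0` for some (the only) `i`, else by
`inr j`. -/
theorem blk_partial (hs : 1 ≤ s) (h1 : ∀ i j j', A i j ≠ 0 → A i j' ≠ 0 → j = j')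
    (h2 : ∀ i i' j, A i j ≠ 0 → A i' j ≠ 0 → i = i') : Blk s A := by
  classical
  have hc1 : ∀ j (h : ∃ i, A i j ≠ 0), (if h : ∃ i, A i j ≠ 0 then Sum.inl h.choose else
      Sum.inr j : ι ⊕ κ) = Sum.inl h.choose := fun j h => dif_pos h
  have hc2 : ∀ j, (¬ ∃ i, A i j ≠ 0) → (if h : ∃ i, A i j ≠ 0 then Sum.inl h.choose else
      Sum.inr j : ι ⊕ κ) = Sum.inr j := fun j h => dif_neg h
  refine ⟨ι ⊕ κ, Sum.inl, fun j => if h : ∃ i, A i j ≠ 0 then Sum.inl h.choose else Sum.inr j,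
    fun l => ?_, fun l => ?_, fun i j hij => ?_⟩
  · refine calcA_one (fun a ha b hb => ?_) hs
    exact Sum.inl_injective ((show (Sum.inl a : ι ⊕ κ) = l from ha).trans
      (show (Sum.inl b : ι ⊕ κ) = l from hb).symm)
  · refine calcA_one (fun a ha b hb => ?_) hs
    have hab := (show (if h : ∃ i, A i a ≠ 0 then Sum.inl h.choose else Sum.inr a : ι ⊕ κ) = l
      from ha).trans (show (if h : ∃ i, A i b ≠ 0 then Sum.inl h.choose else Sum.inr b : ι ⊕ κ) = l
      from hb).symm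
    by_cases h3 : ∃ i, A i a ≠ 0
    · by_cases h4 : ∃ i, A i b ≠ 0
      · rw [hc1 a h3, hc1 b h4] at hab
        have h5 := Sum.inl_injective hab
        refine h1 h3.choose a b h3.choose_spec ?_
        rw [h5]
        exact h4.choose_spec
      · rw [hc1 a h3, hc2 b h4] at hab
        exact absurd hab Sum.inl_ne_inr
    · by_cases h4 : ∃ i, A i b ≠ 0
      · rw [hc2 a h3, hc1 b h4] at hab
        exact absurd hab Sum.inr_ne_inl
      · rw [hc2 a h3, hc2 b h4] at hab
        exact Sum.inr_injective hab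
  · have h3 : ∃ i, A i j ≠ 0 := ⟨i, hij⟩
    refine Eq.trans ?_ (hc1 j h3).symm
    rw [h2 i h3.choose j hij h3.choose_spec]

/-- Direct sums: `A` is block diagonal for the labels `a`, `b` in `J`, and the blocks are parts of the
matrices `B j`, up to scaling. PROOF. Labels in `Σ j, L j` (`L j`, `r j`, `c j` from `hB j`): the row
`i` gets `⟨a i, r (a i) (x (a i) i)⟩`. -/
theorem blk_sum {J : Type} (a : ι → J) (b : κ → J) (h0 : ∀ i k, A i k ≠ 0 → a i = b k)
    {X Y : J → Type} [∀ j, Finite (X j)] [∀ j, Finite (Y j)] {B : ∀ j, Matrix (X j) (Y j) ℂ}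
    (hB : ∀ j, Blk s (B j)) (x : ∀ j, ι → X j) (y : ∀ j, κ → Y j)
    (hx : ∀ j i i', a i = j → a i' = j → x j i = x j i' → i = i')
    (hy : ∀ j k k', b k = j → b k' = j → y j k = y j k' → k = k')
    (hAB : ∀ j i k, a i = j → b k = j → A i k ≠ 0 → B j (x j i) (y j k) ≠ 0) : Blk s A := by
  choose L r c h1 h2 h3 using hB
  refine ⟨Σ j, L j, fun i => ⟨a i, r (a i) (x (a i) i)⟩, fun k => ⟨b k, c (b k) (y (b k) k)⟩,
    fun l => ?_, fun l => ?_, fun i k hik => ?_⟩
  · obtain ⟨j, l⟩ := l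
    have key : ∀ i, (⟨a i, r (a i) (x (a i) i)⟩ : Σ j, L j) = ⟨j, l⟩ →
        a i = j ∧ r j (x j i) = l := by
      intro i hi
      obtain ⟨e1, e2⟩ := Sigma.mk.inj_iff.1 hi
      subst e1
      exact ⟨rfl, eq_of_heq e2⟩
    exact calcA_inj (T := {z | r j z = l}) (x j) (fun i hi => (key i hi).2)
      (fun i hi i' hi' h => hx j i i' (key i hi).1 (key i' hi').1 h) (Set.toFinite _) (h1 j l)
  · obtain ⟨j, l⟩ := l
    have key : ∀ k, (⟨b k, c (b k) (y (b k) k)⟩ : Σ j, L j) = ⟨j, l⟩ →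
        b k = j ∧ c j (y j k) = l := by
      intro k hk
      obtain ⟨e1, e2⟩ := Sigma.mk.inj_iff.1 hk
      subst e1
      exact ⟨rfl, eq_of_heq e2⟩
    exact calcA_inj (T := {z | c j z = l}) (y j) (fun i hi => (key i hi).2)
      (fun i hi i' hi' h => hy j i i' (key i hi).1 (key i' hi').1 h) (Set.toFinite _) (h2 j l)
  · have e := h0 i k hik
    have h4 := h3 (b k) (x (b k) i) (y (b k) k) (hAB (b k) i k e rfl hik)
    show (⟨a i, r (a i) (x (a i) i)⟩ : Σ j, L j) = ⟨b k, c (b k) (y (b k) k)⟩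
    rw [e, h4]

/-- `A` vanishes off equal labels and all fibres are small. -/
theorem blk_of_labels {L : Type} (r : ι → L) (c : κ → L)
    (hr : ∀ l, (({i | r i = l} : Set ι).ncard : ℝ) ≤ s)
    (hc : ∀ l, (({j | c j = l} : Set κ).ncard : ℝ) ≤ s) (h : ∀ i j, A i j ≠ 0 → r i = c j) :
    Blk s A := ⟨L, r, c, hr, hc, h⟩

/-- Extension by zero along injections. PROOF. Labels in `L ⊕ ι'`, `L ⊕ κ'` put together as
`L ⊕ (ι' ⊕ κ')`: rows outside the range get `inr (inl i')`, columns outside `inr (inr k')`. -/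
theorem Blk.extend [Finite ι] [Finite κ] (h : Blk s A) (hs : 1 ≤ s) {ι' κ' : Type} {f : ι → ι'} {g : κ → κ'}
    (hf : Function.Injective f) (hg : Function.Injective g) (A' : Matrix ι' κ' ℂ)
    (h1 : A'.submatrix f g = A) (h2 : ∀ i k, A' i k ≠ 0 → i ∈ Set.range f ∧ k ∈ Set.range g) :
    Blk s A' := by
  classical
  obtain ⟨L, r, c, r1, c1, hrc⟩ := h
  obtain ⟨R, hR⟩ : ∃ R : ι' → L ⊕ (ι' ⊕ κ'), R = fun i' =>
      if h : ∃ i, f i = i' then Sum.inl (r h.choose) else Sum.inr (Sum.inl i') := ⟨_, rfl⟩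
  obtain ⟨C, hC⟩ : ∃ C : κ' → L ⊕ (ι' ⊕ κ'), C = fun k' =>
      if h : ∃ k, g k = k' then Sum.inl (c h.choose) else Sum.inr (Sum.inr k') := ⟨_, rfl⟩
  have hR1 : ∀ i, R (f i) = Sum.inl (r i) := by
    intro i
    have h3 : ∃ i', f i' = f i := ⟨i, rfl⟩
    have h4 : R (f i) = Sum.inl (r h3.choose) := by
      rw [hR]
      exact dif_pos h3
    rw [h4, hf h3.choose_spec]
  have hR2 : ∀ i', (¬ ∃ i, f i = i') → R i' = Sum.inr (Sum.inl i') := by
    intro i' h3
    rw [hR]
    exact dif_neg h3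
  have hC1 : ∀ k, C (g k) = Sum.inl (c k) := by
    intro k
    have h3 : ∃ k', g k' = g k := ⟨k, rfl⟩
    have h4 : C (g k) = Sum.inl (c h3.choose) := by
      rw [hC]
      exact dif_pos h3
    rw [h4, hg h3.choose_spec]
  have hC2 : ∀ k', (¬ ∃ k, g k = k') → C k' = Sum.inr (Sum.inr k') := by
    intro k' h3
    rw [hC]
    exact dif_neg h3
  refine ⟨L ⊕ (ι' ⊕ κ'), R, C, fun l => ?_, fun l => ?_, fun i' k' hik => ?_⟩
  · rcases l with l | l
    · have h5 : ({i' | R i' = Sum.inl l} : Set ι') ⊆ f '' {i | r i = l} := by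
        intro i' hi'
        have hi2 : R i' = Sum.inl l := hi'
        by_cases h3 : ∃ i, f i = i'
        · obtain ⟨i, rfl⟩ := h3
          rw [hR1] at hi2
          exact ⟨i, Sum.inl_injective hi2, rfl⟩
        · rw [hR2 i' h3] at hi2
          exact absurd hi2 Sum.inr_ne_inl
      have h6 : ({i' | R i' = Sum.inl l} : Set ι').ncard ≤ ({i | r i = l} : Set ι).ncard :=
        (Set.ncard_le_ncard h5 (Set.toFinite _)).trans (Set.ncard_image_le (Set.toFinite _))
      have h7 : (({i' | R i' = Sum.inl l} : Set ι').ncard : ℝ) ≤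
          ({i | r i = l} : Set ι).ncard := by exact_mod_cast h6
      exact h7.trans (r1 l)
    · refine calcA_one (fun i' hi' j' hj' => ?_) hs
      have hi2 : R i' = Sum.inr l := hi'
      have hj2 : R j' = Sum.inr l := hj'
      have h3 : ¬ ∃ i, f i = i' := by
        rintro ⟨i, rfl⟩
        rw [hR1] at hi2
        exact Sum.inl_ne_inr hi2
      have h4 : ¬ ∃ i, f i = j' := by
        rintro ⟨i, rfl⟩
        rw [hR1] at hj2
        exact Sum.inl_ne_inr hj2
      rw [hR2 i' h3, ← hj2, hR2 j' h4] at hi2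
      exact Sum.inl_injective (Sum.inr_injective hi2)
  · rcases l with l | l
    · have h5 : ({k' | C k' = Sum.inl l} : Set κ') ⊆ g '' {k | c k = l} := by
        intro k' hk'
        have hk2 : C k' = Sum.inl l := hk'
        by_cases h3 : ∃ k, g k = k'
        · obtain ⟨k, rfl⟩ := h3
          rw [hC1] at hk2
          exact ⟨k, Sum.inl_injective hk2, rfl⟩
        · rw [hC2 k' h3] at hk2
          exact absurd hk2 Sum.inr_ne_inl
      have h6 : ({k' | C k' = Sum.inl l} : Set κ').ncard ≤ ({k | c k = l} : Set κ).ncard :=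
        (Set.ncard_le_ncard h5 (Set.toFinite _)).trans (Set.ncard_image_le (Set.toFinite _))
      have h7 : (({k' | C k' = Sum.inl l} : Set κ').ncard : ℝ) ≤
          ({k | c k = l} : Set κ).ncard := by exact_mod_cast h6
      exact h7.trans (c1 l)
    · refine calcA_one (fun i' hi' j' hj' => ?_) hs
      have hi2 : C i' = Sum.inr l := hi'
      have hj2 : C j' = Sum.inr l := hj'
      have h3 : ¬ ∃ i, g i = i' := by
        rintro ⟨i, rfl⟩
        rw [hC1] at hi2
        exact Sum.inl_ne_inr hi2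
      have h4 : ¬ ∃ i, g i = j' := by
        rintro ⟨i, rfl⟩
        rw [hC1] at hj2
        exact Sum.inl_ne_inr hj2
      rw [hC2 i' h3, ← hj2, hC2 j' h4] at hi2
      exact Sum.inr_injective (Sum.inr_injective hi2)
  · obtain ⟨⟨i, rfl⟩, ⟨k, rfl⟩⟩ := h2 i' k' hik
    rw [hR1, hC1]
    refine congrArg Sum.inl (hrc i k ?_)
    rw [← h1]
    exact hik

end MP0775d3.Cf
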