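import Pool.Agent.Lib.MP_0775d3_lc.Cf.CalcA

/-! Calculus of products of block diagonal matrices: one layer, monotonicity, products. -/

set_option linter.unusedSectionVars false
set_option linter.unusedVariables false

namespace MP0775d3.Cf

open Matrix

variable {ι κ μ : Type} {w s w' s' : ℝ} {t t' : ℕ} {A : Matrix ι κ ℂ}

section Aux

/-- From a list of layers. -/
private theorem bx_of_list {X : Type} [Fintype X] [DecidableEq X] (l : List (Matrix X X ℂ))
    (hl : l.length = t) (hB : ∀ m ∈ l, Blk s m) {f : ι → X} {g : κ → X}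
    (hX : (Fintype.card X : ℝ) ≤ w) (hf : Function.Injective f) (hg : Function.Injective g)
    (hA : A = l.prod.submatrix f g) : Bx w s t A := by
  subst hl
  refine ⟨X, inferInstance, inferInstance, l.get, f, g, hX, fun j => hB _ (List.get_mem l j),
    hf, hg, ?_⟩
  rw [List.ofFn_get]
  exact hA

/-- To a list of layers. -/
private theorem Bx.list (h : Bx w s t A) : ∃ (X : Type) (_ : Fintype X) (_ : DecidableEq X)
    (l : List (Matrix X X ℂ)) (f : ι → X) (g : κ → X), l.length = t ∧
      (Fintype.card X : ℝ) ≤ w ∧ (∀ m ∈ l, Blk s m) ∧ Function.Injective f ∧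
      Function.Injective g ∧ A = l.prod.submatrix f g := by
  obtain ⟨X, i1, i2, M, f, g, hX, hM, hf, hg, hA⟩ := h
  exact ⟨X, i1, i2, List.ofFn M, f, g, List.length_ofFn, hX,
    List.forall_mem_ofFn_iff.2 hM, hf, hg, hA⟩

variable {X Y : Type} [Fintype X] [DecidableEq X] [Fintype Y] [DecidableEq Y]

/-- Extension of a matrix by the identity. -/
private def ext1 (Y : Type) [Fintype Y] [DecidableEq Y] :
    Matrix X X ℂ →* Matrix (X ⊕ Y) (X ⊕ Y) ℂ where
  toFun P := fromBlocks P 0 0 1
  map_one' := fromBlocks_one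
  map_mul' P Q := by
    rw [fromBlocks_multiply]
    simp

private theorem blk_ext1 {P : Matrix X X ℂ} (h : Blk s P) (hs : 1 ≤ s) : Blk s (ext1 Y P) := by
  obtain ⟨L, r, c, hr, hc, hP⟩ := h
  have aux : ∀ (r : X → L), (∀ l, (({i | r i = l} : Set X).ncard : ℝ) ≤ s) →
      ∀ l, (({i | Sum.map r (id : Y → Y) i = l} : Set (X ⊕ Y)).ncard : ℝ) ≤ s := by
    intro r hr l
    rcases l with l | y
    · have e : ({i | Sum.map r (id : Y → Y) i = Sum.inl l} : Set (X ⊕ Y)) =
          Sum.inl '' {i | r i = l} := by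
        ext z
        rcases z with z | z <;> simp
      rw [e, Set.ncard_image_of_injective _ Sum.inl_injective]
      exact hr l
    · have e : ({i | Sum.map r (id : Y → Y) i = Sum.inr y} : Set (X ⊕ Y)) = {Sum.inr y} := by
        ext z
        rcases z with z | z <;> simp
      rw [e, Set.ncard_singleton]
      exact_mod_cast hs
  refine ⟨L ⊕ Y, Sum.map r id, Sum.map c id, aux r hr, aux c hc, ?_⟩
  intro i j hij
  rcases i with i | i <;> rcases j with j | j
  · have : P i j ≠ 0 := hij
    simp [hP i j this]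
  · exact absurd rfl hij
  · exact absurd rfl hij
  · have h1 : (1 : Matrix Y Y ℂ) i j ≠ 0 := hij
    have h2 : i = j := by
      by_contra h3
      exact h1 (Matrix.one_apply_ne h3)
    simp [h2]

/-- The ambient type can be enlarged. -/
private theorem list_ambient (l : List (Matrix X X ℂ)) (hl : ∀ m ∈ l, Blk s m) (hs : 1 ≤ s)
    {X' : Type} [Fintype X'] [DecidableEq X'] (e : X → X') (he : Function.Injective e) :
    ∃ l' : List (Matrix X' X' ℂ), l'.length = l.length ∧ (∀ m ∈ l', Blk s m) ∧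
      l'.prod.submatrix e e = l.prod := by
  classical
  obtain ⟨E, hE⟩ : ∃ E : X ⊕ ((Set.range e)ᶜ : Set X') ≃ X', ∀ x, E (Sum.inl x) = e x := by
    refine ⟨(Equiv.sumCongr (Equiv.ofInjective e he) (Equiv.refl _)).trans
      (Equiv.Set.sumCompl (Set.range e)), fun x => ?_⟩
    simp
  obtain ⟨ψ, hψ⟩ : ∃ ψ : Matrix X X ℂ →* Matrix X' X' ℂ, ∀ P,
      ψ P = (ext1 ((Set.range e)ᶜ : Set X') P).submatrix E.symm E.symm := by
    refine ⟨⟨⟨fun P => (ext1 ((Set.range e)ᶜ : Set X') P).submatrix E.symm E.symm, ?_⟩, ?_⟩,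
      fun P => rfl⟩
    · simp
    · intro P Q
      simp only [map_mul]
      rw [Matrix.submatrix_mul_equiv]
  refine ⟨l.map ψ, by simp, ?_, ?_⟩
  · intro m hm
    obtain ⟨P, hP, rfl⟩ := List.mem_map.1 hm
    rw [hψ]
    exact (blk_ext1 (hl P hP) hs).submatrix E.symm.injective E.symm.injective
  · rw [← map_list_prod ψ l, hψ]
    ext x y
    simp only [submatrix_apply]
    rw [← hE x, ← hE y, Equiv.symm_apply_apply, Equiv.symm_apply_apply]
    rfl

end Aux

/-- The ambient type can be any larger finite type. PROOF. Choose `e : X → X'` injective, extend all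
`M j` by the identity outside the range of `e` (so that the product of the extensions is the extension
of the product, also for `t = 0`), labels in `L ⊕ X'`. -/
theorem Bx.ambient (h : Bx w s t A) (hs : 1 ≤ s) (X' : Type) [Fintype X'] [DecidableEq X']
    (hX : w ≤ Fintype.card X') : ∃ (M : Fin t → Matrix X' X' ℂ) (f : ι → X') (g : κ → X'),
      (∀ j, Blk s (M j)) ∧ Function.Injective f ∧ Function.Injective g ∧
      A = (List.ofFn M).prod.submatrix f g := by
  obtain ⟨X, i1, i2, l, f, g, hl, hw, hB, hf, hg, hA⟩ := h.list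
  have hc : Fintype.card X ≤ Fintype.card X' := by exact_mod_cast hw.trans hX
  obtain ⟨e⟩ := Function.Embedding.nonempty_of_card_le hc
  obtain ⟨l', hl', hB', hp⟩ := list_ambient l hB hs (e : X → X') e.injective
  have hlen : l'.length = t := hl'.trans hl
  subst hlen
  refine ⟨l'.get, e ∘ f, e ∘ g, fun j => hB' _ (List.get_mem l' j), e.injective.comp hf,
    e.injective.comp hg, ?_⟩
  rw [List.ofFn_get, hA, ← hp, submatrix_submatrix]

/-- PROOF. The ambient type does not change; `t' - t` additional layers `1`. -/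
theorem Bx.mono (h : Bx w s t A) (hw : w ≤ w') (hs : s ≤ s') (ht : t ≤ t') (hs' : 1 ≤ s') :
    Bx w' s' t' A := by
  obtain ⟨X, i1, i2, l, f, g, hl, hX, hB, hf, hg, hA⟩ := h.list
  refine bx_of_list (l ++ List.replicate (t' - t) 1) ?_ ?_ (hX.trans hw) hf hg ?_
  · rw [List.length_append, List.length_replicate, hl]
    omega
  · intro m hm
    rcases List.mem_append.1 hm with hm | hm
    · exact (hB m hm).mono hs
    · rw [List.eq_of_mem_replicate hm]
      exact blk_one hs'
  · rw [List.prod_append, List.prod_replicate, one_pow, mul_one]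
    exact hA

/-- PROOF. `X = Fin (max (card ι) (card κ))`, one layer: `A` extended by zero (`Blk.extend`). -/
theorem bx_of_blk [Fintype ι] [Fintype κ] (h : Blk s A) (hs : 1 ≤ s)
    (h1 : (Fintype.card ι : ℝ) ≤ w) (h2 : (Fintype.card κ : ℝ) ≤ w) : Bx w s 1 A := by
  classical
  obtain ⟨m, hm⟩ : ∃ m, m = max (Fintype.card ι) (Fintype.card κ) := ⟨_, rfl⟩
  obtain ⟨f⟩ : Nonempty (ι ↪ Fin m) := Function.Embedding.nonempty_of_card_le (by
    rw [Fintype.card_fin, hm]
    exact le_max_left _ _)
  obtain ⟨g⟩ : Nonempty (κ ↪ Fin m) := Function.Embedding.nonempty_of_card_le (by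
    rw [Fintype.card_fin, hm]
    exact le_max_right _ _)
  obtain ⟨A', hA'⟩ : ∃ A' : Matrix (Fin m) (Fin m) ℂ, A' = Matrix.of fun x y =>
      Function.extend f (fun i => Function.extend g (A i) 0 y) 0 x := ⟨_, rfl⟩
  have e1 : A'.submatrix f g = A := by
    ext i k
    rw [hA', submatrix_apply, of_apply, f.injective.extend_apply, g.injective.extend_apply]
  have e2 : ∀ x y, A' x y ≠ 0 → x ∈ Set.range f ∧ y ∈ Set.range g := by
    intro x y hxy
    by_cases hx : x ∈ Set.range f
    · obtain ⟨i, rfl⟩ := hx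
      refine ⟨⟨i, rfl⟩, ?_⟩
      by_contra hy
      apply hxy
      rw [hA', of_apply, f.injective.extend_apply, Function.extend_apply' _ _ _ hy]
      rfl
    · exfalso
      apply hxy
      rw [hA', of_apply, Function.extend_apply' _ _ _ hx]
      rfl
  refine bx_of_list [A'] rfl ?_ ?_ f.injective g.injective ?_
  · intro m hm
    rw [List.mem_singleton.1 hm]
    exact h.extend hs f.injective g.injective A' e1 e2
  · rw [Fintype.card_fin, hm, Nat.cast_max]
    exact max_le h1 h2
  · rw [List.prod_singleton, e1]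

theorem Bx.transpose (h : Bx w s t A) : Bx w s t Aᵀ := by
  obtain ⟨X, i1, i2, l, f, g, hl, hX, hB, hf, hg, hA⟩ := h.list
  refine bx_of_list (l.map Matrix.transpose).reverse (by simp [hl]) ?_ hX hg hf ?_
  · intro m hm
    rw [List.mem_reverse] at hm
    obtain ⟨P, hP, rfl⟩ := List.mem_map.1 hm
    exact (hB P hP).transpose
  · rw [← Matrix.transpose_list_prod, hA, transpose_submatrix]

theorem Bx.submatrix (h : Bx w s t A) {ι' κ' : Type} {f : ι' → ι} {g : κ' → κ}
    (hf : Function.Injective f) (hg : Function.Injective g) : Bx w s t (A.submatrix f g) := by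
  obtain ⟨X, i1, i2, l, f', g', hl, hX, hB, hf', hg', hA⟩ := h.list
  refine bx_of_list l hl hB hX (hf'.comp hf) (hg'.comp hg) ?_
  rw [hA, submatrix_submatrix]

/-- PROOF. Take the two ambient types `X`, `Y` and move both to `X' = Fin (max (card X) (card Y))`
(`Bx.ambient`).
Between the two products one layer `J x y = 1` if `x = g k`, `y = f' k` for some `k`, else `0`
(`blk_partial`): `A * B = (∏ M) J (∏ M')` at `f i`, `g' j`, since the sum over `k` is the sum over
the pairs `(x, y)` with `J x y ≠ 0`. -/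
theorem Bx.mul [Fintype κ] [DecidableEq κ] {B : Matrix κ μ ℂ} (h : Bx w s t A) (h' : Bx w s t' B)
    (hs : 1 ≤ s) : Bx w s (t + t' + 1) (A * B) := by
  classical
  obtain ⟨X, i1, i2, l₁, f₁, g₁, hl₁, hX₁, hB₁, hf₁, hg₁, hA⟩ := h.list
  obtain ⟨Y, i3, i4, l₂, f₂, g₂, hl₂, hX₂, hB₂, hf₂, hg₂, hB⟩ := h'.list
  obtain ⟨m, hm⟩ : ∃ m, m = max (Fintype.card X) (Fintype.card Y) := ⟨_, rfl⟩
  obtain ⟨e₁⟩ : Nonempty (X ↪ Fin m) := Function.Embedding.nonempty_of_card_le (by
    rw [Fintype.card_fin, hm]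
    exact le_max_left _ _)
  obtain ⟨e₂⟩ : Nonempty (Y ↪ Fin m) := Function.Embedding.nonempty_of_card_le (by
    rw [Fintype.card_fin, hm]
    exact le_max_right _ _)
  obtain ⟨l₁', hlen₁, hB₁', hp₁⟩ := list_ambient l₁ hB₁ hs (e₁ : X → Fin m) e₁.injective
  obtain ⟨l₂', hlen₂, hB₂', hp₂⟩ := list_ambient l₂ hB₂ hs (e₂ : Y → Fin m) e₂.injective
  have hg : Function.Injective (e₁ ∘ g₁) := e₁.injective.comp hg₁
  have hf : Function.Injective (e₂ ∘ f₂) := e₂.injective.comp hf₂
  obtain ⟨G, hG⟩ : ∃ G : Matrix (Fin m) κ ℂ, G = Matrix.of fun x k =>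
      if (e₁ ∘ g₁) k = x then 1 else 0 := ⟨_, rfl⟩
  obtain ⟨F, hF⟩ : ∃ F : Matrix κ (Fin m) ℂ, F = Matrix.of fun k y =>
      if (e₂ ∘ f₂) k = y then 1 else 0 := ⟨_, rfl⟩
  have hJ : ∀ x y, (G * F) x y ≠ 0 → ∃ k, (e₁ ∘ g₁) k = x ∧ (e₂ ∘ f₂) k = y := by
    intro x y hxy
    rw [Matrix.mul_apply] at hxy
    obtain ⟨k, -, hk⟩ := Finset.exists_ne_zero_of_sum_ne_zero hxy
    refine ⟨k, ?_, ?_⟩
    · by_contra h1
      apply hk
      rw [hG, of_apply, if_neg h1, zero_mul]
    · by_contra h1
      apply hk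
      rw [hF, of_apply, if_neg h1, mul_zero]
  have hblk : Blk s (G * F) := by
    refine blk_partial hs ?_ ?_
    · intro x y y' h1 h2
      obtain ⟨k, hk1, hk2⟩ := hJ x y h1
      obtain ⟨k', hk1', hk2'⟩ := hJ x y' h2
      have : k = k' := hg (hk1.trans hk1'.symm)
      rw [← hk2, ← hk2', this]
    · intro x x' y h1 h2
      obtain ⟨k, hk1, hk2⟩ := hJ x y h1
      obtain ⟨k', hk1', hk2'⟩ := hJ x' y h2
      have : k = k' := hf (hk2.trans hk2'.symm)
      rw [← hk1, ← hk1', this]
  have hPG : ∀ P : Matrix (Fin m) (Fin m) ℂ, P * G = P.submatrix id (e₁ ∘ g₁) := by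
    intro P
    ext x k
    rw [Matrix.mul_apply, submatrix_apply, hG]
    simp [of_apply]
  have hFP : ∀ P : Matrix (Fin m) (Fin m) ℂ, F * P = P.submatrix (e₂ ∘ f₂) id := by
    intro P
    ext k y
    rw [Matrix.mul_apply, submatrix_apply, hF]
    simp [of_apply]
  refine bx_of_list (l₁' ++ (G * F) :: l₂') ?_ ?_ ?_ (e₁.injective.comp hf₁)
    (e₂.injective.comp hg₂) ?_
  · rw [List.length_append, List.length_cons, hlen₁, hlen₂, hl₁, hl₂]
    omega
  · intro m hm
    rcases List.mem_append.1 hm with hm | hm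
    · exact hB₁' m hm
    · rcases List.mem_cons.1 hm with hm | hm
      · rw [hm]
        exact hblk
      · exact hB₂' m hm
  · rw [Fintype.card_fin, hm, Nat.cast_max]
    exact max_le hX₁ hX₂
  · rw [List.prod_append, List.prod_cons]
    have e : l₁'.prod * (G * F * l₂'.prod) = (l₁'.prod * G) * (F * l₂'.prod) := by
      simp only [Matrix.mul_assoc]
    rw [e, hPG, hFP, hA, hB, ← hp₁, ← hp₂]
    ext i j
    simp only [Matrix.mul_apply, submatrix_apply, Function.comp_apply, id_eq]

/-- Scaling of rows. -/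
private theorem bx_scale_left (h : Bx w s t A) (ht : 1 ≤ t) (u : ι → ℂ) :
    Bx w s t (Matrix.of fun i j => u i * A i j) := by
  classical
  obtain ⟨X, i1, i2, l, f, g, hl, hX, hB, hf, hg, hA⟩ := h.list
  obtain ⟨m, l', rfl⟩ : ∃ m l', l = m :: l' := by
    cases l with
    | nil => simp at hl; omega
    | cons m l' => exact ⟨m, l', rfl⟩
  obtain ⟨u', hu'⟩ : ∃ u' : X → ℂ, ∀ i, u' (f i) = u i :=
    ⟨Function.extend f u 0, fun i => hf.extend_apply _ _ _⟩
  refine bx_of_list ((Matrix.of fun x y => u' x * m x y * (1 : ℂ)) :: l') (by simpa using hl) ?_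
    hX hf hg ?_
  · intro n hn
    rcases List.mem_cons.1 hn with hn | hn
    · rw [hn]
      exact (hB m (by simp)).scale u' fun _ => 1
    · exact hB n (by simp [hn])
  · ext i j
    rw [hA, List.prod_cons, List.prod_cons]
    simp only [of_apply, submatrix_apply, Matrix.mul_apply, mul_one]
    rw [Finset.mul_sum]
    refine Finset.sum_congr rfl fun x _ => ?_
    rw [hu', mul_assoc]

/-- Scaling of rows and columns. PROOF. Multiply the first layer by the diagonal matrix of an extension
of `u` along `f` and the last layer by that of `v` along `g` (`Blk.scale`); for `t = 1` both. -/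
theorem Bx.scale (h : Bx w s t A) (ht : 1 ≤ t) (u : ι → ℂ) (v : κ → ℂ) :
    Bx w s t (Matrix.of fun i j => u i * A i j * v j) := by
  have h1 := (bx_scale_left (bx_scale_left h ht u).transpose ht v).transpose
  have e : (Matrix.of fun i j => u i * A i j * v j) =
      (Matrix.of fun j i => v j * (Matrix.of fun i j => u i * A i j)ᵀ j i)ᵀ := by
    ext i j
    simp only [of_apply, transpose_apply]
    ring
  rw [e]
  exact h1

/-- Both index types embed in the ambient type. -/
theorem Bx.card_le [Fintype ι] (h : Bx w s t A) : (Fintype.card ι : ℝ) ≤ w := by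
  obtain ⟨X, i1, i2, l, f, g, hl, hX, hB, hf, hg, hA⟩ := h.list
  refine le_trans ?_ hX
  exact_mod_cast Fintype.card_le_of_injective f hf

/-- Extension by zero rows and columns: one more layer on each side is not needed if `t ≥ 1`, but the
ambient type must have room. PROOF. `A' = E * A * E'` with `E : ι' × ι`, `E' : κ × κ'` partial
permutations (`blk_partial`, `bx_of_blk`), `Bx.mul` twice. -/
theorem Bx.extend [Fintype ι] [DecidableEq ι] [Fintype κ] [DecidableEq κ] (h : Bx w s t A)
    (hs : 1 ≤ s) {ι' κ' : Type} [Fintype ι'] [Fintype κ'] (h1 : (Fintype.card ι' : ℝ) ≤ w)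
    (h2 : (Fintype.card κ' : ℝ) ≤ w) {f : ι → ι'} {g : κ → κ'} (hf : Function.Injective f)
    (hg : Function.Injective g) (A' : Matrix ι' κ' ℂ) (h3 : A'.submatrix f g = A)
    (h4 : ∀ i k, A' i k ≠ 0 → i ∈ Set.range f ∧ k ∈ Set.range g) : Bx w s (t + 4) A' := by
  classical
  have hι : (Fintype.card ι : ℝ) ≤ w := h.card_le
  have hκ : (Fintype.card κ : ℝ) ≤ w := h.transpose.card_le
  obtain ⟨E, hE⟩ : ∃ E : Matrix ι' ι ℂ, E = Matrix.of fun i' i => if f i = i' then 1 else 0 :=
    ⟨_, rfl⟩
  obtain ⟨E', hE'⟩ : ∃ E' : Matrix κ κ' ℂ, E' = Matrix.of fun k k' =>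
      if g k = k' then 1 else 0 := ⟨_, rfl⟩
  have nE : ∀ i' i, E i' i ≠ 0 → f i = i' := by
    intro i' i hi
    by_contra h5
    exact hi (by rw [hE, of_apply, if_neg h5])
  have nE' : ∀ k k', E' k k' ≠ 0 → g k = k' := by
    intro k k' hk
    by_contra h5
    exact hk (by rw [hE', of_apply, if_neg h5])
  have b1 : Bx w s 1 E := bx_of_blk (blk_partial hs
    (fun i j j' a b => hf ((nE _ _ a).trans (nE _ _ b).symm))
    (fun i i' j a b => (nE _ _ a).symm.trans (nE _ _ b))) hs h1 hι
  have b2 : Bx w s 1 E' := bx_of_blk (blk_partial hs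
    (fun i j j' a b => (nE' _ _ a).symm.trans (nE' _ _ b))
    (fun i i' j a b => hg ((nE' _ _ a).trans (nE' _ _ b).symm))) hs hκ h2
  have b3 := (b1.mul h hs).mul b2 hs
  have e : A' = E * A * E' := by
    ext i' k'
    rw [Matrix.mul_apply]
    by_cases hi : i' ∈ Set.range f
    · by_cases hk : k' ∈ Set.range g
      · obtain ⟨i, rfl⟩ := hi
        obtain ⟨k, rfl⟩ := hk
        rw [Finset.sum_eq_single k]
        · rw [Matrix.mul_apply, Finset.sum_eq_single i]
          · rw [hE, hE', ← h3]
            simp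
          · intro j _ hj
            rw [hE, of_apply, if_neg (fun h5 => hj (hf h5)), zero_mul]
          · simp
        · intro j _ hj
          rw [hE', of_apply, if_neg (fun h5 => hj (hg h5)), mul_zero]
        · simp
      · have z : A' i' k' = 0 := by
          by_contra h5
          exact hk (h4 _ _ h5).2
        rw [z]
        refine (Finset.sum_eq_zero fun k _ => ?_).symm
        rw [hE', of_apply, if_neg (fun h5 => hk ⟨k, h5⟩), mul_zero]
    · have z : A' i' k' = 0 := by
        by_contra h5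
        exact hi (h4 _ _ h5).1
      rw [z]
      refine (Finset.sum_eq_zero fun k _ => ?_).symm
      have z2 : (E * A) i' k = 0 := by
        rw [Matrix.mul_apply]
        refine Finset.sum_eq_zero fun i _ => ?_
        rw [hE, of_apply, if_neg (fun h5 => hi ⟨i, h5⟩), zero_mul]
      rw [z2, zero_mul]
  rw [e]
  have ht : 1 + t + 1 + 1 + 1 = t + 4 := by omega
  rw [ht] at b3
  exact b3

end MP0775d3.Cf
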