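import Pool.Agent.Lib.MP_0775d3_lc.Cf.CalcB

/-! Direct sums of products of block diagonal matrices. -/

set_option linter.unusedSectionVars false
set_option linter.unusedVariables false

namespace MP0775d3.Cf

open Matrix

/-- The direct sum of block diagonal matrices. -/
private theorem calcc_blk {ι : Type} [Fintype ι] [DecidableEq ι] {Z : ι → Type} {s : ℝ}
    (M : ∀ i, Matrix (Z i) (Z i) ℂ) (hM : ∀ i, Blk s (M i)) : Blk s (Matrix.blockDiagonal' M) := by
  choose L r c hr hc h using hM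
  have key : ∀ (r : ∀ i, Z i → L i), (∀ i l, (({z | r i z = l} : Set (Z i)).ncard : ℝ) ≤ s) →
      ∀ l : Σ i, L i, (({p | (⟨p.1, r p.1 p.2⟩ : Σ i, L i) = l} : Set (Σ i, Z i)).ncard : ℝ) ≤
        s := by
    rintro r hr ⟨i, l⟩
    have h1 : ({p | (⟨p.1, r p.1 p.2⟩ : Σ i, L i) = ⟨i, l⟩} : Set (Σ i, Z i)) =
        Sigma.mk i '' {z | r i z = l} := by
      ext ⟨j, z⟩
      constructor
      · intro h2
        have h3 : (⟨j, r j z⟩ : Σ i, L i) = ⟨i, l⟩ := h2
        obtain ⟨rfl, h4⟩ := Sigma.mk.inj_iff.1 h3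
        exact ⟨z, eq_of_heq h4, rfl⟩
      · rintro ⟨z', h2, h3⟩
        obtain ⟨rfl, h4⟩ := Sigma.mk.inj_iff.1 h3
        obtain rfl := eq_of_heq h4
        have h5 : r i z' = l := h2
        change (⟨i, r i z'⟩ : Σ i, L i) = ⟨i, l⟩
        rw [h5]
    rw [h1, Set.ncard_image_of_injective _ sigma_mk_injective]
    exact hr i l
  refine ⟨Σ i, L i, fun p => ⟨p.1, r p.1 p.2⟩, fun p => ⟨p.1, c p.1 p.2⟩, key r hr, key c hc, ?_⟩
  rintro ⟨i, z⟩ ⟨j, z'⟩ h1
  by_cases hij : i = j
  · subst hij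
    rw [Matrix.blockDiagonal'_apply_eq] at h1
    change (⟨i, r i z⟩ : Σ i, L i) = ⟨i, c i z'⟩
    rw [h i z z' h1]
  · exact absurd (Matrix.blockDiagonal'_apply_ne M z z' hij) h1

/-- The direct sum. PROOF. Ambient type `Σ i, X i` (`X i`, `M i j`, `f i`, `g i` from `hB i`), layers
`Matrix.blockDiagonal' fun i => M i j`; the product of the block diagonal matrices is the block
diagonal matrix of the products (`Matrix.blockDiagonal'_mul`, induction on `t`, or
`Matrix.blockDiagonal'RingHom` and `List.ofFn`, `map_list_prod`); `blk_sum`. -/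
theorem bx_sigma {ι : Type} [Fintype ι] [DecidableEq ι] {X Y : ι → Type}
    {B : ∀ i, Matrix (X i) (Y i) ℂ} {w : ι → ℝ} {s : ℝ} {t : ℕ} (hB : ∀ i, Bx (w i) s t (B i)) :
    Bx (∑ i, w i) s t (Matrix.blockDiagonal' B) := by
  choose Z hZ1 hZ2 M f g h1 h2 h3 h4 h5 using hB
  refine ⟨Σ i, Z i, inferInstance, inferInstance,
    fun j => Matrix.blockDiagonal' fun i => M i j, fun p => ⟨p.1, f p.1 p.2⟩,
    fun p => ⟨p.1, g p.1 p.2⟩, ?_, fun j => calcc_blk _ fun i => h2 i j, ?_, ?_, ?_⟩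
  · rw [Fintype.card_sigma, Nat.cast_sum]
    exact Finset.sum_le_sum fun i _ => h1 i
  · rintro ⟨i, x⟩ ⟨j, y⟩ hxy
    obtain ⟨rfl, h6⟩ := Sigma.mk.inj_iff.1 hxy
    have h7 : x = y := h3 i (eq_of_heq h6)
    exact congrArg (Sigma.mk i) h7
  · rintro ⟨i, x⟩ ⟨j, y⟩ hxy
    obtain ⟨rfl, h6⟩ := Sigma.mk.inj_iff.1 hxy
    have h7 : x = y := h4 i (eq_of_heq h6)
    exact congrArg (Sigma.mk i) h7
  · have h6 : (List.ofFn fun j => Matrix.blockDiagonal' fun i => M i j).prod =
        Matrix.blockDiagonal' fun i => (List.ofFn (M i)).prod := by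
      have h7 := map_list_prod (Matrix.blockDiagonal'RingHom Z ℂ)
        (List.ofFn fun (j : Fin t) (i : ι) => M i j)
      rw [List.map_ofFn] at h7
      refine Eq.trans h7.symm ?_
      change Matrix.blockDiagonal' (List.ofFn fun (j : Fin t) (i : ι) => M i j).prod = _
      refine congrArg Matrix.blockDiagonal' (funext fun i => ?_)
      rw [Pi.list_prod_apply, List.map_ofFn]
      rfl
    rw [h6]
    ext ⟨i, x⟩ ⟨j, y⟩
    rw [Matrix.submatrix_apply]
    by_cases hij : i = j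
    · subst hij
      rw [Matrix.blockDiagonal'_apply_eq, Matrix.blockDiagonal'_apply_eq]
      have h8 := congrFun (congrFun (h5 i) x) y
      rw [h8, Matrix.submatrix_apply]
    · rw [Matrix.blockDiagonal'_apply_ne _ _ _ hij, Matrix.blockDiagonal'_apply_ne _ _ _ hij]

/-- Matrices that are block diagonal for given labels in `ι`; the blocks are parts of the matrices
`B i` (which satisfy `Bx`), up to scaling of rows and columns. The analogue of `Sl2.rdec_blocks'`.
PROOF. `A = u * (submatrix of the matrix of bx_sigma along p ↦ ⟨a p, x (a p) p⟩,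
q ↦ ⟨b q, y (b q) q⟩) * v`: `Bx.submatrix`, `Bx.scale`. -/
theorem bx_blocks {P Q ι : Type} [Fintype ι] [DecidableEq ι] (A : Matrix P Q ℂ) (a : P → ι)
    (b : Q → ι) (h0 : ∀ p q, a p ≠ b q → A p q = 0) (w : ι → ℝ) {s : ℝ} {t : ℕ} (ht : 1 ≤ t)
    (X Y : ι → Type) (B : ∀ i, Matrix (X i) (Y i) ℂ) (hB : ∀ i, Bx (w i) s t (B i))
    (x : ∀ i, P → X i) (y : ∀ i, Q → Y i)
    (hx : ∀ i p p', a p = i → a p' = i → x i p = x i p' → p = p')
    (hy : ∀ i q q', b q = i → b q' = i → y i q = y i q' → q = q') (u : P → ℂ) (v : Q → ℂ)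
    (hAB : ∀ i p q, a p = i → b q = i → A p q = u p * B i (x i p) (y i q) * v q) :
    Bx (∑ i, w i) s t A := by
  have hf : Function.Injective fun p : P => (⟨a p, x (a p) p⟩ : Σ i, X i) := by
    intro p p' h
    obtain ⟨h1, h2⟩ := Sigma.mk.inj_iff.1 h
    have h3 : ∀ i, a p' = i → HEq (x (a p) p) (x i p') → a p = i → p = p' := by
      rintro i hi h4 rfl
      exact hx (a p) p p' rfl hi (eq_of_heq h4)
    exact h3 (a p') rfl h2 h1
  have hg : Function.Injective fun q : Q => (⟨b q, y (b q) q⟩ : Σ i, Y i) := by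
    intro q q' h
    obtain ⟨h1, h2⟩ := Sigma.mk.inj_iff.1 h
    have h3 : ∀ i, b q' = i → HEq (y (b q) q) (y i q') → b q = i → q = q' := by
      rintro i hi h4 rfl
      exact hy (b q) q q' rfl hi (eq_of_heq h4)
    exact h3 (b q') rfl h2 h1
  have h1 := ((bx_sigma hB).submatrix hf hg).scale ht u v
  have h2 : A = Matrix.of fun p q => u p * ((Matrix.blockDiagonal' B).submatrix
      (fun p : P => (⟨a p, x (a p) p⟩ : Σ i, X i))
      (fun q : Q => (⟨b q, y (b q) q⟩ : Σ i, Y i))) p q * v q := by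
    ext p q
    rw [Matrix.of_apply, Matrix.submatrix_apply]
    by_cases hpq : a p = b q
    · have h3 : ∀ i, b q = i → a p = i → A p q = u p * Matrix.blockDiagonal' B ⟨a p, x (a p) p⟩
          ⟨i, y i q⟩ * v q := by
        rintro i hi rfl
        rw [Matrix.blockDiagonal'_apply_eq]
        exact hAB (a p) p q rfl hi
      exact h3 (b q) rfl hpq
    · rw [Matrix.blockDiagonal'_apply_ne _ _ _ hpq, mul_zero, zero_mul]
      exact h0 p q hpq
  rw [h2]
  exact h1

/-- Tensor product with an identity matrix on the left. PROOF. `bx_blocks` with `ι = Y`. -/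
theorem Bx.one_tensor {X X' Y : Type} [Fintype Y] [DecidableEq Y] {A : Matrix X X' ℂ} {w s : ℝ}
    {t : ℕ} (h : Bx w s t A) (ht : 1 ≤ t) :
    Bx (Fintype.card Y * w) s t (Matrix.of fun (p : Y × X) (q : Y × X') =>
      if p.1 = q.1 then A p.2 q.2 else 0) := by
  have h1 := bx_blocks (ι := Y) (Matrix.of fun (p : Y × X) (q : Y × X') =>
    if p.1 = q.1 then A p.2 q.2 else 0) Prod.fst Prod.fst
    (fun p q hpq => by rw [Matrix.of_apply, if_neg hpq]) (fun _ => w) ht (fun _ => X)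
    (fun _ => X') (fun _ => A) (fun _ => h) (fun _ => Prod.snd) (fun _ => Prod.snd)
    (fun i p p' h2 h3 h4 => Prod.ext (h2.trans h3.symm) h4)
    (fun i p p' h2 h3 h4 => Prod.ext (h2.trans h3.symm) h4) (fun _ => 1) (fun _ => 1)
    (fun i p q h2 h3 => by rw [Matrix.of_apply, if_pos (h2.trans h3.symm), one_mul, mul_one])
  rw [Finset.sum_const, Finset.card_univ, nsmul_eq_mul] at h1
  exact h1

/-- Tensor product with an identity matrix on the right. -/
theorem Bx.tensor_one {X X' Y : Type} [Fintype Y] [DecidableEq Y] {A : Matrix X X' ℂ} {w s : ℝ}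
    {t : ℕ} (h : Bx w s t A) (ht : 1 ≤ t) :
    Bx (Fintype.card Y * w) s t (Matrix.of fun (p : X × Y) (q : X' × Y) =>
      if p.2 = q.2 then A p.1 q.1 else 0) := by
  have h1 := bx_blocks (ι := Y) (Matrix.of fun (p : X × Y) (q : X' × Y) =>
    if p.2 = q.2 then A p.1 q.1 else 0) Prod.snd Prod.snd
    (fun p q hpq => by rw [Matrix.of_apply, if_neg hpq]) (fun _ => w) ht (fun _ => X)
    (fun _ => X') (fun _ => A) (fun _ => h) (fun _ => Prod.fst) (fun _ => Prod.fst)
    (fun i p p' h2 h3 h4 => Prod.ext h4 (h2.trans h3.symm))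
    (fun i p p' h2 h3 h4 => Prod.ext h4 (h2.trans h3.symm)) (fun _ => 1) (fun _ => 1)
    (fun i p q h2 h3 => by rw [Matrix.of_apply, if_pos (h2.trans h3.symm), one_mul, mul_one])
  rw [Finset.sum_const, Finset.card_univ, nsmul_eq_mul] at h1
  exact h1

/-- Kronecker products. PROOF. `A ⊗ B = (A ⊗ 1) (1 ⊗ B)`, with `1` of size `Y` and of size `X'`. -/
theorem Bx.kron {X X' Y Y' : Type} [Fintype X'] [DecidableEq X'] [Fintype Y] [DecidableEq Y]
    {A : Matrix X X' ℂ} {B : Matrix Y Y' ℂ} {w w' s : ℝ} {t t' : ℕ} (h : Bx w s t A)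
    (h' : Bx w' s t' B) (ht : 1 ≤ t) (ht' : 1 ≤ t') (hs : 1 ≤ s) :
    Bx (w * w') s (t + t' + 1) (Matrix.of fun (p : X × Y) (q : X' × Y') =>
      A p.1 q.1 * B p.2 q.2) := by
  have h1 : (Fintype.card Y : ℝ) ≤ w' := h'.card_le
  have h2 : (Fintype.card X' : ℝ) ≤ w := h.transpose.card_le
  have hw : 0 ≤ w := (Nat.cast_nonneg _).trans h2
  have hw' : 0 ≤ w' := (Nat.cast_nonneg _).trans h1
  have h3 : Bx (w * w') s t (Matrix.of fun (p : X × Y) (q : X' × Y) =>
      if p.2 = q.2 then A p.1 q.1 else 0) := by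
    refine (h.tensor_one (Y := Y) ht).mono ?_ le_rfl le_rfl hs
    rw [mul_comm]
    exact mul_le_mul_of_nonneg_left h1 hw
  have h4 : Bx (w * w') s t' (Matrix.of fun (p : X' × Y) (q : X' × Y') =>
      if p.1 = q.1 then B p.2 q.2 else 0) := by
    refine (h'.one_tensor (Y := X') ht').mono ?_ le_rfl le_rfl hs
    exact mul_le_mul_of_nonneg_right h2 hw'
  have h5 := h3.mul h4 hs
  have h6 : (Matrix.of fun (p : X × Y) (q : X' × Y') => A p.1 q.1 * B p.2 q.2) =
      (Matrix.of fun (p : X × Y) (q : X' × Y) => if p.2 = q.2 then A p.1 q.1 else 0) *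
        Matrix.of fun (p : X' × Y) (q : X' × Y') => if p.1 = q.1 then B p.2 q.2 else 0 := by
    ext p q
    rw [Matrix.mul_apply, Finset.sum_eq_single (q.1, p.2)]
    · simp only [Matrix.of_apply, if_true]
    · rintro ⟨x', y'⟩ _ hne
      simp only [Matrix.of_apply]
      by_cases h7 : p.2 = y'
      · by_cases h8 : x' = q.1
        · exact absurd (Prod.ext h8 h7.symm) hne
        · rw [if_neg h8, mul_zero]
      · rw [if_neg h7, zero_mul]
    · intro h7
      exact absurd (Finset.mem_univ _) h7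
  rw [h6]
  exact h5

end MP0775d3.Cf
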