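import Pool.Agent.Lib.MP_0775d3_lc.Cf.CalcC

/-! `GD`: first properties. -/

set_option linter.unusedSectionVars false
set_option linter.unusedVariables false

namespace MP0775d3.Cf

open Matrix MP0775d3.Sl2 MP0775d3.Solv

section
variable {G H : Type} [Group G] [Group H] {w s u w' s' u' : ℝ} {t t' : ℕ}

theorem GD.mono (h : GD w s u t G) (hw : w ≤ w') (hs : s ≤ s') (hu : u ≤ u') (ht : t ≤ t')
    (hs' : 1 ≤ s') : GD w' s' u' t' G := by
  obtain ⟨Z, i1, i2, U, U', L, l, l', h1, h2, h3, h4, h5⟩ := h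
  exact ⟨Z, i1, i2, U, U', L, l, l', h1.mono hw hs ht hs', h2.mono hw hs ht hs',
    fun a => (h3 a).trans hu, fun a => (h4 a).trans hu, h5⟩

theorem GD.congr (e : G ≃* H) (h : GD w s u t G) : GD w s u t H := by
  obtain ⟨Z, i1, i2, U, U', L, l, l', h1, h2, h3, h4, h5⟩ := h
  refine ⟨Z, i1, i2, U.submatrix e.symm id, U'.submatrix id e.symm, L, l, l',
    h1.submatrix e.symm.injective Function.injective_id,
    h2.submatrix Function.injective_id e.symm.injective, h3, h4, fun f hf => ?_⟩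
  obtain ⟨B, hB, hE⟩ := h5 (fun g => f (e g)) (by
    intro g x
    change f (e (g * x * g⁻¹)) = f (e x)
    rw [map_mul, map_mul, map_inv]
    exact hf (e g) (e x))
  refine ⟨B, hB, ?_⟩
  ext x y
  have h6 := congrFun (congrFun hE (e.symm x)) (e.symm y)
  have h7 : groupMat (fun g => f (e g)) (e.symm x) (e.symm y) = groupMat f x y := by
    change f (e (e.symm x * (e.symm y)⁻¹)) = f (x * y⁻¹)
    rw [map_mul, map_inv, e.apply_symm_apply, e.apply_symm_apply]
  rw [← h7, h6]
  rfl

/-- PROOF. Take the cocycle `1`, labels `id`; `B = diagonal d`; a class function is central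
(see the end of `Solv.solv_class`). -/
theorem gd_of_td (h : ∀ α : Coc G, TD w s t α) : GD w s 1 t G := by
  let α : Coc G := ⟨fun _ _ => 1, fun _ _ => one_ne_zero, fun _ _ _ => rfl⟩
  obtain ⟨Z, i1, i2, U, U', h1, h2, h3⟩ := h α
  refine ⟨Z, i1, i2, U, U', Z, id, id, h1, h2, fun a => ?_, fun a => ?_, fun f hf => ?_⟩
  · have h4 : ({z | id z = a} : Set Z) = {a} := rfl
    rw [h4, Set.ncard_singleton, Nat.cast_one]
  · have h4 : ({z | id z = a} : Set Z) = {a} := rfl
    rw [h4, Set.ncard_singleton, Nat.cast_one]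
  · have hc : Central α f := by
      intro x y
      have h1 := hf y (y⁻¹ * x * y)
      rw [show y * (y⁻¹ * x * y) * y⁻¹ = x by group] at h1
      change f x * 1 = f (y⁻¹ * x * y) * 1
      rw [h1]
    have h4 : tmat α f = groupMat f := by
      ext x y
      change f (x * y⁻¹) * 1 = f (x * y⁻¹)
      rw [mul_one]
    obtain ⟨d, hd⟩ := h3 f hc
    refine ⟨Matrix.diagonal d, fun z z' hz => ?_, ?_⟩
    · by_contra hne
      exact hz (Matrix.diagonal_apply_ne d hne)
    · rw [← h4, hd]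

/-- PROOF. `B` is `Blk u`, `Z` has at most `w` elements (`Bx.card_le` for a transposed matrix):
`bx_of_blk`, `Bx.mul` twice: `t + 1 + 1 + t + 1`. -/
theorem GD.bx (h : GD w s u t G) (hs : 1 ≤ s) (hu : u ≤ s) {f : G → ℂ} (hf : IsClassFun f) :
    Bx w s (2 * t + 3) (groupMat f) := by
  obtain ⟨Z, i1, i2, U, U', L, l, l', h1, h2, h3, h4, h5⟩ := h
  obtain ⟨B, hB, hE⟩ := h5 f hf
  have hZ : (Fintype.card Z : ℝ) ≤ w := h2.card_le
  have b1 : Blk s B := ⟨L, l, l', fun a => (h3 a).trans hu, fun a => (h4 a).trans hu, hB⟩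
  have b2 : Bx w s 1 B := bx_of_blk b1 hs hZ hZ
  have b3 := (h1.mul b2 hs).mul h2 hs
  rw [hE]
  have e : t + 1 + 1 + t + 1 = 2 * t + 3 := by omega
  rw [e] at b3
  exact b3

private theorem gd_fib {Z Z' L L' : Type} [Finite Z] [Finite Z'] {l : Z → L} {m : Z' → L'}
    (h : ∀ a, (({z | l z = a} : Set Z).ncard : ℝ) ≤ u)
    (h' : ∀ a, (({z | m z = a} : Set Z').ncard : ℝ) ≤ u') (a : L × L') :
    (({z | (l z.1, m z.2) = a} : Set (Z × Z')).ncard : ℝ) ≤ u * u' := by
  have h1 : ({z | (l z.1, m z.2) = a} : Set (Z × Z')) = {z | l z = a.1} ×ˢ {z | m z = a.2} := by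
    ext z
    constructor
    · intro hz
      have hz' : (l z.1, m z.2) = a := hz
      exact ⟨congrArg Prod.fst hz', congrArg Prod.snd hz'⟩
    · rintro ⟨hz1, hz2⟩
      exact Prod.ext hz1 hz2
  have h2 : (0 : ℝ) ≤ u := (Nat.cast_nonneg _).trans (h a.1)
  rw [h1, Set.ncard_prod, Nat.cast_mul]
  exact mul_le_mul (h a.1) (h' a.2) (Nat.cast_nonneg _) h2

/-- PROOF. `Z × Z'`, labels `(l, l')`, `U ⊗ U_H` (`Bx.kron`). A class function `f` on `G × H` is
`∑ C : ConjClasses G, φ C ⊗ ψ C`, `φ C g = 1` if `g ∈ C` else `0`, `ψ C h = f (C.out, h)` (with a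
representative; class functions). `groupMat f = ∑ C, groupMat (φ C) ⊗ groupMat (ψ C) =
(U ⊗ U_H) (∑ C, B C ⊗ B' C) (U' ⊗ U'_H)`. -/
theorem GD.prod [Finite G] [Finite H] (h : GD w s u t G) (h' : GD w' s u' t' H) (hs : 1 ≤ s)
    (ht : 1 ≤ t) (ht' : 1 ≤ t') : GD (w * w') s (u * u') (t + t' + 1) (G × H) := by
  classical
  have := Fintype.ofFinite G
  have := Fintype.ofFinite H
  have : Fintype (ConjClasses G) := Fintype.ofFinite _
  obtain ⟨Z, i1, i2, U, U', L, l, l', h1, h2, h3, h4, h5⟩ := h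
  obtain ⟨Y, i3, i4, V, V', M, m, m', k1, k2, k3, k4, k5⟩ := h'
  refine ⟨Z × Y, inferInstance, inferInstance, kroneckerMap (fun a b => a * b) U V,
    kroneckerMap (fun a b => a * b) U' V', L × M, fun z => (l z.1, m z.2),
    fun z => (l' z.1, m' z.2), ?_, ?_, gd_fib h3 k3, gd_fib h4 k4, fun f hf => ?_⟩
  · exact h1.kron k1 ht ht' hs
  · exact h2.kron k2 ht ht' hs
  · have hφ : ∀ C : ConjClasses G, IsClassFun fun g : G =>
        if ConjClasses.mk g = C then (1 : ℂ) else 0 := by
      intro C g x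
      have h6 : ConjClasses.mk (g * x * g⁻¹) = ConjClasses.mk x := by
        rw [ConjClasses.mk_eq_mk_iff_isConj]
        exact (isConj_iff.2 ⟨g, rfl⟩ : IsConj x (g * x * g⁻¹)).symm
      change (if ConjClasses.mk (g * x * g⁻¹) = C then (1 : ℂ) else 0) = _
      rw [h6]
    have hψ : ∀ C : ConjClasses G, IsClassFun fun y : H => f (Quotient.out C, y) := by
      intro C g x
      have h6 := hf ((1 : G), g) (Quotient.out C, x)
      have h7 : ((1 : G), g) * (Quotient.out C, x) * ((1 : G), g)⁻¹ =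
          (Quotient.out C, g * x * g⁻¹) := by
        rw [Prod.inv_mk, Prod.mk_mul_mk, Prod.mk_mul_mk, one_mul, inv_one, mul_one]
      rw [h7] at h6
      exact h6
    choose B hB hE using fun C => h5 _ (hφ C)
    choose B' hB' hE' using fun C => k5 _ (hψ C)
    refine ⟨∑ C, kroneckerMap (fun a b => a * b) (B C) (B' C), fun z z' hz => ?_, ?_⟩
    · rw [Matrix.sum_apply] at hz
      obtain ⟨C, _, hC⟩ := Finset.exists_ne_zero_of_sum_ne_zero hz
      rw [kroneckerMap_apply] at hC
      exact Prod.ext (hB C _ _ (left_ne_zero_of_mul hC)) (hB' C _ _ (right_ne_zero_of_mul hC))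
    · have h6 : groupMat f = ∑ C, kroneckerMap (fun a b => a * b)
          (groupMat fun g : G => if ConjClasses.mk g = C then (1 : ℂ) else 0)
          (groupMat fun y : H => f (Quotient.out C, y)) := by
        ext p q
        rw [Matrix.sum_apply, Finset.sum_eq_single (ConjClasses.mk (p.1 * q.1⁻¹))]
        · rw [kroneckerMap_apply]
          change f (p * q⁻¹) = (if ConjClasses.mk (p.1 * q.1⁻¹) = ConjClasses.mk (p.1 * q.1⁻¹)
            then (1 : ℂ) else 0) *
            f (Quotient.out (ConjClasses.mk (p.1 * q.1⁻¹)), p.2 * q.2⁻¹)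
          rw [if_pos rfl, one_mul]
          have h7 : IsConj (p.1 * q.1⁻¹) (Quotient.out (ConjClasses.mk (p.1 * q.1⁻¹))) := by
            rw [← ConjClasses.mk_eq_mk_iff_isConj]
            exact (Quotient.out_eq (ConjClasses.mk (p.1 * q.1⁻¹))).symm
          obtain ⟨c, hc⟩ := isConj_iff.1 h7
          have h8 := hf (c, (1 : H)) (p * q⁻¹)
          have h9 : (c, (1 : H)) * (p * q⁻¹) * (c, (1 : H))⁻¹ =
              (Quotient.out (ConjClasses.mk (p.1 * q.1⁻¹)), p.2 * q.2⁻¹) := by
            rw [← hc]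
            ext
            · rfl
            · simp
          rw [h9] at h8
          exact h8.symm
        · intro C _ hC
          rw [kroneckerMap_apply]
          change (if ConjClasses.mk (p.1 * q.1⁻¹) = C then (1 : ℂ) else 0) * _ = 0
          rw [if_neg (fun h7 => hC h7.symm), zero_mul]
        · intro h7
          exact absurd (Finset.mem_univ _) h7
      rw [h6, Matrix.mul_sum, Matrix.sum_mul]
      refine Finset.sum_congr rfl fun C _ => ?_
      rw [hE, hE']
      have h10 := Matrix.mul_kronecker_mul (U * B C) U' (V * B' C) V'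
      have h11 := Matrix.mul_kronecker_mul U (B C) V (B' C)
      rw [h11] at h10
      exact h10

end

end MP0775d3.Cf
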