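import Pool.Agent.Lib.MP_0775d3_lc.Cf.Mult
import Pool.Agent.Lib.MP_0775d3_lc.Cf.Gd
import Pool.Agent.Lib.MP_0775d3_lc.SG.Wr

/-! The class of groups of the theorem. -/

set_option linter.unusedSectionVars false
set_option linter.unusedVariables false

namespace MP0775d3.Cf

open MP0775d3.Sl2

/-- `P` is of wreath type: a quotient by a normal subgroup of order at most `b` of a subgroup `U` of
index at most `b` of a group `W` isomorphic to a wreath product `A ≀ S_m` with `|A| ≤ b`: symmetric
and alternating groups, Weyl groups, ... -/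
def IsSymType (b : ℝ) (P : Type) [Group P] : Prop :=
  ∃ (A W : Type) (_ : Group A) (_ : Group W) (m : ℕ) (_ : W ≃* Sg.Wr A (Fin m)) (U : Subgroup W)
    (φ : U →* P), Finite A ∧ (Nat.card A : ℝ) ≤ b ∧ (U.index : ℝ) ≤ b ∧ Function.Surjective φ ∧
      (Nat.card φ.ker : ℝ) ≤ b

/-- The class of the theorem: direct products of any number of groups of wreath type or of `SL₂`
type and of a group that has a normal series with factors which are abelian or of order at
most `b`. -/
def InCls (b : ℝ) (G : Type) [Group G] : Prop :=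
  ∃ r, Mult (fun P _ => IsSymType b P ∨ IsSL2Type P) (fun D _ => HasSeries b D) r G

theorem IsSymType.mono {b b' : ℝ} (hb : b ≤ b') {P : Type} [Group P]
    (h : IsSymType b P) : IsSymType b' P := by
  obtain ⟨A, W, iA, iW, m, e, U, φ, h1, h2, h3, h4, h5⟩ := h
  exact ⟨A, W, iA, iW, m, e, U, φ, h1, h2.trans hb, h3.trans hb, h4, h5.trans hb⟩

/-- Transport along `W ≃* A ≀ S_m`. -/
theorem IsSymType.isWrType {b : ℝ} {P : Type} [Group P] (h : IsSymType b P) :
    Sg.IsWrType b P := by
  obtain ⟨A, W, iA, iW, m, e, U, φ, h1, h2, h3, h4, h5⟩ := h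
  have e1 : U ≃* U.map (e : W →* Sg.Wr A (Fin m)) :=
    U.equivMapOfInjective (e : W →* Sg.Wr A (Fin m)) e.injective
  refine ⟨A, iA, m, U.map (e : W →* Sg.Wr A (Fin m)), φ.comp e1.symm.toMonoidHom, h1, h2, ?_, ?_, ?_⟩
  · have h6 : (U.map (e : W →* Sg.Wr A (Fin m))).index = U.index :=
      Subgroup.index_map_of_bijective e.bijective U
    rw [h6]
    exact h3
  · exact h4.comp e1.symm.surjective
  · have h6 : Nat.card (φ.comp e1.symm.toMonoidHom).ker = Nat.card φ.ker := by
      refine Nat.card_congr (Equiv.subtypeEquiv e1.symm.toEquiv fun x => ?_)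
      rw [MonoidHom.mem_ker, MonoidHom.mem_ker]
      rfl
    rw [h6]
    exact h5

theorem HasSeries.mono {b b' : ℝ} (hb : b ≤ b') {P : Type} [Group P] (h : HasSeries b P) :
    HasSeries b' P := by
  obtain ⟨r, M, h0, h1, h2, h3, h4⟩ := h
  refine ⟨r, M, h0, h1, h2, h3, fun i hi => ?_⟩
  rcases h4 i hi with h5 | h5
  · exact Or.inl h5
  · exact Or.inr (h5.trans (mul_le_mul_of_nonneg_right hb (Nat.cast_nonneg _)))

end MP0775d3.Cf
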