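import Pool.Agent.Lib.MP_0775d3_lc.Cf.Series

/-! Every normal series has a short subseries. -/

set_option linter.unusedSectionVars false
set_option linter.unusedVariables false

namespace MP0775d3.Cf

/-- PROOF. Induction on `k`. `k = 0` is impossible since `|M i| ≤ |M R|`. Step: let `j'` be the largest
index with `i ≤ j' ≤ R` and `|M j'| ≤ b |M i|`. If `j' = R` take `j 0 = i`, `j a = R` for `a ≥ 1`. Else
`|M (j' + 1)| > b |M i|`, so `|M R| < b ^ k |M (j' + 1)|`; `j 0 = i`, `j 1 = j'`, `j (a + 2) = ` the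
sequence of the induction hypothesis from `j' + 1`; the factor from `j'` to `j' + 1` is a factor of the
series (and `b ≤ b ^ 2`). -/
theorem subseries {Q : Type} [Group Q] [Finite Q] {b : ℝ} (hb : 1 ≤ b) {M : ℕ → Subgroup Q} {R : ℕ}
    (h2 : ∀ i, M i ≤ M (i + 1)) (h4 : ∀ i < R, Fac b (M i) (M (i + 1))) (k : ℕ) : ∀ i ≤ R,
      (Nat.card (M R) : ℝ) < b ^ k * Nat.card (M i) →
      ∃ j : ℕ → ℕ, j 0 = i ∧ j (2 * k) = R ∧ (∀ a, j a ≤ j (a + 1)) ∧
        ∀ a < 2 * k, Fac (b ^ 2) (M (j a)) (M (j (a + 1))) := by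
  have hmono : Monotone M := monotone_nat_of_le_succ h2
  have hcard : ∀ {i j : ℕ}, i ≤ j → (Nat.card (M i) : ℝ) ≤ Nat.card (M j) := fun h =>
    Nat.cast_le.2 (Subgroup.card_le_of_le (hmono h))
  have hbb : b ≤ b ^ 2 := by nlinarith
  have hfac : ∀ {A B : Subgroup Q}, (Nat.card B : ℝ) ≤ b * Nat.card A → Fac (b ^ 2) A B := fun h =>
    Or.inr (h.trans (mul_le_mul_of_nonneg_right hbb (Nat.cast_nonneg _)))
  induction k with
  | zero =>
    intro i hi h
    rw [pow_zero, one_mul] at h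
    exact absurd h (not_lt.2 (hcard hi))
  | succ k ih =>
    intro i hi h
    have hex : ∃ m, m ≤ R ∧ i ≤ m ∧ (Nat.card (M m) : ℝ) ≤ b * Nat.card (M i) :=
      ⟨i, hi, le_rfl, le_mul_of_one_le_left (Nat.cast_nonneg _) hb⟩
    obtain ⟨j', ⟨hj1, hj2, hj3⟩, hmax⟩ : ∃ m, (m ≤ R ∧ i ≤ m ∧ (Nat.card (M m) : ℝ) ≤ b * Nat.card (M i)) ∧
        ∀ m', (m' ≤ R ∧ i ≤ m' ∧ (Nat.card (M m') : ℝ) ≤ b * Nat.card (M i)) → m' ≤ m := by
      classical
      refine ⟨Nat.findGreatest (fun m => m ≤ R ∧ i ≤ m ∧ (Nat.card (M m) : ℝ) ≤ b * Nat.card (M i)) R, ?_, ?_⟩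
      · exact Nat.findGreatest_spec (P := fun m => m ≤ R ∧ i ≤ m ∧
          (Nat.card (M m) : ℝ) ≤ b * Nat.card (M i)) hi ⟨hi, le_rfl, le_mul_of_one_le_left (Nat.cast_nonneg _) hb⟩
      · intro m' hm'
        exact Nat.le_findGreatest hm'.1 hm'
    rcases hj1.eq_or_lt with hR | hR
    · subst hR
      refine ⟨fun a => if a = 0 then i else j', by simp, by simp, ?_, ?_⟩
      · intro a
        rcases a with _ | a
        · simpa using hj2
        · simp
      · intro a _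
        rcases a with _ | a
        · simpa using hfac hj3
        · simp only [Nat.add_eq_zero_iff, one_ne_zero, and_false, if_false]
          exact hfac (le_mul_of_one_le_left (Nat.cast_nonneg _) hb)
    · have h5 : b * Nat.card (M i) < Nat.card (M (j' + 1)) := by
        by_contra hc
        have := hmax (j' + 1) ⟨hR, by omega, not_lt.1 hc⟩
        omega
      obtain ⟨jj, e1, e2, e3, e4⟩ := ih (j' + 1) hR (h.trans_le (by
        rw [pow_succ, mul_assoc]
        exact mul_le_mul_of_nonneg_left h5.le (pow_nonneg (by linarith) k)))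
      refine ⟨fun a => if a = 0 then i else if a = 1 then j' else jj (a - 2), by simp, ?_, ?_, ?_⟩
      · have h6 : 2 * (k + 1) ≠ 0 := by omega
        have h7 : 2 * (k + 1) ≠ 1 := by omega
        have h8 : 2 * (k + 1) - 2 = 2 * k := by omega
        simp only [h6, h7, if_false, h8, e2]
      · intro a
        rcases a with _ | _ | a
        · simpa using hj2
        · simp [e1]
        · simpa using e3 a
      · intro a ha
        rcases a with _ | _ | a
        · simpa using hfac hj3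
        · simp only [zero_add, one_ne_zero, if_false, if_true, Nat.reduceAdd, OfNat.ofNat_ne_zero,
            OfNat.ofNat_ne_one, Nat.sub_self, e1]
          rcases h4 j' hR with h6 | h6
          · exact Or.inl h6
          · exact hfac h6
        · have h6 := e4 a (by omega)
          simpa using h6

/-- PROOF. `b = 2 N ^ (δ / 2)`, `b ^ 2 = 4 N ^ δ`, `k = ⌈2 / δ⌉₊`: `b ^ k ≥ 2 N > |Q|`
(`k ≥ 1`), `r₀ = 2 k`. -/
theorem compress (δ : ℝ) (hδ : 0 < δ) : ∃ r₀ : ℕ, ∀ N : ℝ, 1 ≤ N → ∀ (Q : Type) [Group Q] [Finite Q],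
    HasSeries (N ^ (δ / 2)) Q → (Nat.card Q : ℝ) ≤ N → Ser (4 * N ^ δ) r₀ Q := by
  refine ⟨2 * ⌈2 / δ⌉₊, fun N hN Q _ _ hs hc => ?_⟩
  obtain ⟨r, M, m0, m1, m2, m3, m4⟩ := hs
  have hN0 : 0 < N := by linarith
  have hx1 : 1 ≤ N ^ (δ / 2) := Real.one_le_rpow hN (by positivity)
  have hb : 1 ≤ 2 * N ^ (δ / 2) := by linarith
  have hb2 : (2 * N ^ (δ / 2)) ^ 2 = 4 * N ^ δ := by
    rw [mul_pow, ← Real.rpow_natCast (N ^ (δ / 2)), ← Real.rpow_mul hN0.le]
    norm_num
  have hk : 2 / δ ≤ (⌈2 / δ⌉₊ : ℝ) := Nat.le_ceil _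
  have hk0 : ⌈2 / δ⌉₊ ≠ 0 := by
    intro h
    rw [h, Nat.cast_zero] at hk
    have : 0 < 2 / δ := by positivity
    linarith
  have hbk : N < (2 * N ^ (δ / 2)) ^ ⌈2 / δ⌉₊ := by
    rw [mul_pow, ← Real.rpow_natCast (N ^ (δ / 2)), ← Real.rpow_mul hN0.le]
    have h5 : N ≤ N ^ (δ / 2 * (⌈2 / δ⌉₊ : ℝ)) := by
      refine Real.self_le_rpow_of_one_le hN ?_
      rw [div_le_iff₀ hδ] at hk
      linarith
    have h6 : (2 : ℝ) ≤ 2 ^ ⌈2 / δ⌉₊ := le_self_pow₀ (by norm_num) hk0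
    nlinarith
  obtain ⟨j, j0, j1, j2, j3⟩ := subseries hb m2 (R := r) (fun i hi => by
    rcases m4 i hi with h | h
    · exact Or.inl h
    · exact Or.inr (h.trans (mul_le_mul_of_nonneg_right (by linarith) (Nat.cast_nonneg _))))
    ⌈2 / δ⌉₊ 0 (Nat.zero_le _) (by
      rw [m0, m1, Subgroup.card_bot, Subgroup.card_top, Nat.cast_one, mul_one]
      exact hc.trans_lt hbk)
  rw [hb2] at j3
  exact ⟨fun a => M (j a), by simp only [j0, m0], by simp only [j1, m1],
    fun i => monotone_nat_of_le_succ m2 (j2 i), fun i => m3 _, j3⟩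

end MP0775d3.Cf
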