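import Pool.Agent.Lib.MP_0775d3_lc.Bf.Width
import Pool.Agent.Lib.MP_0775d3_lc.Solv.Induct

/-! Project CF: class functions are box circuits. Definitions. -/

set_option linter.unusedSectionVars false
set_option linter.unusedVariables false

namespace MP0775d3.Cf

open Matrix MP0775d3.Sl2 MP0775d3.Solv

/-- Up to permutations of the rows and of the columns, `A` is block diagonal with blocks of at most
`s` rows and at most `s` columns: nonzero entries join rows and columns with the same label. -/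
def Blk {ι κ : Type} (s : ℝ) (A : Matrix ι κ ℂ) : Prop :=
  ∃ (L : Type) (r : ι → L) (c : κ → L), (∀ l, (({i | r i = l} : Set ι).ncard : ℝ) ≤ s) ∧
    (∀ l, (({j | c j = l} : Set κ).ncard : ℝ) ≤ s) ∧ ∀ i j, A i j ≠ 0 → r i = c j

/-- `A` is a corner of a product of `t` block diagonal matrices of size at most `w`. -/
def Bx {ι κ : Type} (w s : ℝ) (t : ℕ) (A : Matrix ι κ ℂ) : Prop :=
  ∃ (X : Type) (_ : Fintype X) (_ : DecidableEq X) (M : Fin t → Matrix X X ℂ)
    (f : ι → X) (g : κ → X), (Fintype.card X : ℝ) ≤ w ∧ (∀ j, Blk s (M j)) ∧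
    Function.Injective f ∧ Function.Injective g ∧ A = (List.ofFn M).prod.submatrix f g

/-- All class functions on `G` have matrices `U * B * U'` with the same `U`, `U'` and with `B` block
diagonal for fixed labels with blocks of size at most `u`. -/
def GD (w s u : ℝ) (t : ℕ) (G : Type) [Group G] : Prop :=
  ∃ (Z : Type) (_ : Fintype Z) (_ : DecidableEq Z) (U : Matrix G Z ℂ) (U' : Matrix Z G ℂ)
    (L : Type) (l l' : Z → L), Bx w s t U ∧ Bx w s t U' ∧
    (∀ a, (({z | l z = a} : Set Z).ncard : ℝ) ≤ u) ∧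
    (∀ a, (({z | l' z = a} : Set Z).ncard : ℝ) ≤ u) ∧
    ∀ f : G → ℂ, IsClassFun f → ∃ B : Matrix Z Z ℂ, (∀ z z', B z z' ≠ 0 → l z = l' z') ∧
      groupMat f = U * B * U'

/-- The twisted version, with a diagonal matrix in the middle. -/
def TD (w s : ℝ) (t : ℕ) {Q : Type} [Group Q] (α : Coc Q) : Prop :=
  ∃ (Z : Type) (_ : Fintype Z) (_ : DecidableEq Z) (U : Matrix Q Z ℂ) (U' : Matrix Z Q ℂ),
    Bx w s t U ∧ Bx w s t U' ∧
    ∀ c : Q → ℂ, Central α c → ∃ d : Z → ℂ, tmat α c = U * Matrix.diagonal d * U'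

/-- All Fourier matrices of the finite abelian group `W` (any set of different characters). -/
def FB (w s : ℝ) (t : ℕ) (W : Type) [Group W] : Prop :=
  ∀ (X : Type) (χ : X → W → ℂ), (∀ x, χ x 1 = 1) →
    (∀ x v w, χ x (v * w) = χ x v * χ x w) → Function.Injective χ →
    Bx w s t (Matrix.of fun (v : W) (x : X) => χ x v)

end MP0775d3.Cf
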