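import Pool.Agent.Lib.MP_0775d3_lc.Cf.CalcC
import Pool.Agent.Lib.MP_0775d3_lc.Bf.Fft

/-! Discrete Fourier transforms of size `B ^ K` (Cooley and Tukey), circulant matrices. -/

set_option linter.unusedSectionVars false
set_option linter.unusedVariables false

namespace MP0775d3.Cf

open Matrix MP0775d3.Bf

/-- The matrix `exp (2 π i c x y / m)`. -/
noncomputable def dft (c : ℤ) (m : ℕ) : Matrix (Fin m) (Fin m) ℂ :=
  Matrix.of fun x y => ee ((c : ℝ) * (x : ℕ) * (y : ℕ) / m)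

/-- PROOF. Write `x = x₁ + a x₂`, `y = b y₁ + y₂` with `x₁, y₁ < a`, `x₂, y₂ < b`. Then
`c x y / (a b) = c x₁ y₁ / a + c x₁ y₂ / (a b) + c x₂ y₂ / b + integer`, so that, up to the
numbering of rows and columns, `dft c (a b) = L * R` with middle index `(p, q) ∈ Fin a × Fin b`,
`L (x₁, x₂) (p, q) = ee (c x₂ q / b) * ee (c p q / (a b))` if `x₁ = p` (else `0`) and
`R (p, q) (y₁, y₂) = ee (c p y₁ / a)` if `q = y₂` (else `0`). `bx_blocks` over `x₁ ∈ Fin a` (blocks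
`dft c b`) and over `q ∈ Fin b` (blocks `dft c a`), `Bx.mul`, `Bx.submatrix` (`finProdFinEquiv`). -/
theorem bx_dft_mul (c : ℤ) {a b : ℕ} (ha : 0 < a) (hb : 0 < b) {s : ℝ} (hs : 1 ≤ s) {t t' : ℕ}
    (ht : 1 ≤ t) (ht' : 1 ≤ t') (h1 : Bx a s t (dft c a)) (h2 : Bx b s t' (dft c b)) :
    Bx ((a * b : ℕ) : ℝ) s (t' + t + 1) (dft c (a * b)) := by
  have ha' : (a : ℝ) ≠ 0 := by exact_mod_cast ha.ne'
  have hb' : (b : ℝ) ≠ 0 := by exact_mod_cast hb.ne'
  obtain ⟨x1, hx1⟩ : ∃ x1 : Fin (a * b) → Fin a, ∀ x, (x1 x : ℕ) = (x : ℕ) % a :=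
    ⟨fun x => ⟨(x : ℕ) % a, Nat.mod_lt _ ha⟩, fun x => rfl⟩
  obtain ⟨x2, hx2⟩ : ∃ x2 : Fin (a * b) → Fin b, ∀ x, (x2 x : ℕ) = (x : ℕ) / a :=
    ⟨fun x => ⟨(x : ℕ) / a, Nat.div_lt_of_lt_mul x.2⟩, fun x => rfl⟩
  obtain ⟨y2, hy2⟩ : ∃ y2 : Fin (a * b) → Fin b, ∀ y, (y2 y : ℕ) = (y : ℕ) % b :=
    ⟨fun y => ⟨(y : ℕ) % b, Nat.mod_lt _ hb⟩, fun y => rfl⟩
  obtain ⟨y1, hy1⟩ : ∃ y1 : Fin (a * b) → Fin a, ∀ y, (y1 y : ℕ) = (y : ℕ) / b :=
    ⟨fun y => ⟨(y : ℕ) / b, Nat.div_lt_of_lt_mul (lt_of_lt_of_eq y.2 (mul_comm a b))⟩,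
      fun y => rfl⟩
  have ex : ∀ x : Fin (a * b), ((x : ℕ) : ℝ) = (x1 x : ℕ) + a * (x2 x : ℕ) := fun x => by
    rw [hx1, hx2]
    exact_mod_cast (Nat.mod_add_div (x : ℕ) a).symm
  have ey : ∀ y : Fin (a * b), ((y : ℕ) : ℝ) = (y2 y : ℕ) + b * (y1 y : ℕ) := fun y => by
    rw [hy1, hy2]
    exact_mod_cast (Nat.mod_add_div (y : ℕ) b).symm
  have hL : Bx ((a * b : ℕ) : ℝ) s t' (Matrix.of fun (x : Fin (a * b)) (p : Fin a × Fin b) =>
      if x1 x = p.1 then ee ((c : ℝ) * (x2 x : ℕ) * (p.2 : ℕ) / b) *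
        ee ((c : ℝ) * (p.1 : ℕ) * (p.2 : ℕ) / (a * b)) else 0) := by
    have h3 := bx_blocks (Matrix.of fun (x : Fin (a * b)) (p : Fin a × Fin b) =>
      if x1 x = p.1 then ee ((c : ℝ) * (x2 x : ℕ) * (p.2 : ℕ) / b) *
        ee ((c : ℝ) * (p.1 : ℕ) * (p.2 : ℕ) / (a * b)) else 0) x1 Prod.fst
      (fun x p h => by rw [Matrix.of_apply, if_neg h]) (fun _ => (b : ℝ)) ht' (fun _ => Fin b)
      (fun _ => Fin b) (fun _ => dft c b) (fun _ => h2) (fun _ => x2) (fun _ => Prod.snd)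
      (fun i x x' h4 h5 h6 => by
        apply Fin.ext
        have h7 := congrArg Fin.val (h4.trans h5.symm)
        have h8 := congrArg Fin.val h6
        rw [hx1, hx1] at h7
        rw [hx2, hx2] at h8
        rw [← Nat.mod_add_div (x : ℕ) a, h7, h8, Nat.mod_add_div])
      (fun i p p' h4 h5 h6 => Prod.ext (h4.trans h5.symm) h6) (fun _ => 1)
      (fun p => ee ((c : ℝ) * (p.1 : ℕ) * (p.2 : ℕ) / (a * b)))
      (fun i x p h4 h5 => by
        rw [Matrix.of_apply, if_pos (h4.trans h5.symm), one_mul]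
        rfl)
    rw [Finset.sum_const, Finset.card_univ, Fintype.card_fin, nsmul_eq_mul] at h3
    rw [Nat.cast_mul]
    exact h3
  have hR : Bx ((a * b : ℕ) : ℝ) s t (Matrix.of fun (p : Fin a × Fin b) (y : Fin (a * b)) =>
      if p.2 = y2 y then ee ((c : ℝ) * (p.1 : ℕ) * (y1 y : ℕ) / a) else 0) := by
    have h3 := bx_blocks (Matrix.of fun (p : Fin a × Fin b) (y : Fin (a * b)) =>
      if p.2 = y2 y then ee ((c : ℝ) * (p.1 : ℕ) * (y1 y : ℕ) / a) else 0) Prod.snd y2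
      (fun x p h => by rw [Matrix.of_apply, if_neg h]) (fun _ => (a : ℝ)) ht (fun _ => Fin a)
      (fun _ => Fin a) (fun _ => dft c a) (fun _ => h1) (fun _ => Prod.fst) (fun _ => y1)
      (fun i p p' h4 h5 h6 => Prod.ext h6 (h4.trans h5.symm))
      (fun i x x' h4 h5 h6 => by
        apply Fin.ext
        have h7 := congrArg Fin.val (h4.trans h5.symm)
        have h8 := congrArg Fin.val h6
        rw [hy2, hy2] at h7
        rw [hy1, hy1] at h8
        rw [← Nat.mod_add_div (x : ℕ) b, h7, h8, Nat.mod_add_div])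
      (fun _ => 1) (fun _ => 1)
      (fun i x p h4 h5 => by
        rw [Matrix.of_apply, if_pos (h4.trans h5.symm), one_mul, mul_one]
        rfl)
    rw [Finset.sum_const, Finset.card_univ, Fintype.card_fin, nsmul_eq_mul,
      mul_comm (b : ℝ) (a : ℝ)] at h3
    rw [Nat.cast_mul]
    exact h3
  have h3 := hL.mul hR hs
  have h4 : dft c (a * b) = (Matrix.of fun (x : Fin (a * b)) (p : Fin a × Fin b) =>
      if x1 x = p.1 then ee ((c : ℝ) * (x2 x : ℕ) * (p.2 : ℕ) / b) *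
        ee ((c : ℝ) * (p.1 : ℕ) * (p.2 : ℕ) / (a * b)) else 0) *
      Matrix.of fun (p : Fin a × Fin b) (y : Fin (a * b)) =>
        if p.2 = y2 y then ee ((c : ℝ) * (p.1 : ℕ) * (y1 y : ℕ) / a) else 0 := by
    ext x y
    rw [Matrix.mul_apply, Finset.sum_eq_single (x1 x, y2 y)]
    · simp only [Matrix.of_apply, dft, if_true]
      rw [← ee_add, ← ee_add]
      have h5 : (c : ℝ) * (x : ℕ) * (y : ℕ) / ((a * b : ℕ) : ℝ) =
          ((c : ℝ) * (x2 x : ℕ) * (y2 y : ℕ) / b + (c : ℝ) * (x1 x : ℕ) * (y2 y : ℕ) / (a * b) +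
            (c : ℝ) * (x1 x : ℕ) * (y1 y : ℕ) / a) +
            ((c * ((x2 x : ℕ) : ℤ) * ((y1 y : ℕ) : ℤ) : ℤ) : ℝ) := by
        rw [ex, ey]
        push_cast
        field_simp
        ring
      rw [h5, ee_add _ (((c * ((x2 x : ℕ) : ℤ) * ((y1 y : ℕ) : ℤ) : ℤ) : ℝ)), ee_int, mul_one]
    · rintro ⟨p, q⟩ _ hne
      simp only [Matrix.of_apply]
      by_cases h7 : x1 x = p
      · by_cases h8 : q = y2 y
        · exact absurd (Prod.ext h7.symm h8) hne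
        · rw [if_neg h8, mul_zero]
      · rw [if_neg h7, zero_mul]
    · intro h7
      exact absurd (Finset.mem_univ _) h7
  rw [h4]
  exact h3

/-- PROOF. Induction on `K`, `K = 1` is `bx_of_blk`, `blk_card`. -/
theorem bx_dft_pow (c : ℤ) (B K : ℕ) (hB : 0 < B) (hK : 1 ≤ K) {s : ℝ} (hs : (B : ℝ) ≤ s) :
    Bx ((B ^ K : ℕ) : ℝ) s (2 * K) (dft c (B ^ K)) := by
  have hs1 : 1 ≤ s := by
    have : (1 : ℝ) ≤ B := by exact_mod_cast hB
    exact this.trans hs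
  have h1 : Bx (B : ℝ) s 1 (dft c B) := by
    refine bx_of_blk (blk_card ?_ ?_ _) hs1 ?_ ?_
    · rw [Fintype.card_fin]
      exact hs
    · rw [Fintype.card_fin]
      exact hs
    · rw [Fintype.card_fin]
    · rw [Fintype.card_fin]
  induction K, hK using Nat.le_induction with
  | base =>
    rw [pow_one]
    exact h1.mono le_rfl le_rfl (by norm_num) hs1
  | succ K hK ih =>
    rw [pow_succ]
    have h2 := bx_dft_mul c (pow_pos hB K) hB hs1 (by omega) le_rfl ih h1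
    have h3 : 1 + 2 * K + 1 = 2 * (K + 1) := by omega
    rw [h3] at h2
    exact h2

/-- Circulant matrices. PROOF. `h (x - y) = ∑_k ee (k x / P) * g k * ee (- k y / P)` with
`g k = P⁻¹ * ∑_{u < P} h u * ee (- k u / P)` (`sum_ee`, `h` is periodic): the matrix is
`dft 1 P * diagonal g * dft (-1) P`; scale (`Bx.scale`) and `Bx.mul`. -/
theorem bx_circ {P : ℕ} (hP : 0 < P) {s : ℝ} (hs : 1 ≤ s) {t : ℕ} (ht : 1 ≤ t)
    (h1 : Bx P s t (dft 1 P)) (h2 : Bx P s t (dft (-1) P)) (h : ℤ → ℂ)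
    (hper : ∀ u, h (u + P) = h u) :
    Bx P s (2 * t + 1) (Matrix.of fun x y : Fin P => h ((x : ℕ) - (y : ℕ) : ℤ)) := by
  have hP' : (P : ℂ) ≠ 0 := by exact_mod_cast hP.ne'
  obtain ⟨g, hg⟩ : ∃ g : Fin P → ℂ, ∀ k, g k = (P : ℂ)⁻¹ *
      ∑ u ∈ Finset.range P, h (u : ℤ) * ee (-((k : ℕ) * (u : ℝ) / P)) := ⟨_, fun k => rfl⟩
  have h3 := h1.mul (h2.scale ht g fun _ => 1) hs
  have h4 : t + t + 1 = 2 * t + 1 := by omega
  rw [h4] at h3
  have hmod : ∀ (v : ℤ) (n : ℕ), h (v + n * P) = h v := by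
    intro v n
    induction n with
    | zero => simp
    | succ n ih =>
      rw [← ih, ← hper (v + n * P)]
      congr 1
      push_cast
      ring
  have hmodz : ∀ (v n : ℤ), h (v + n * P) = h v := by
    intro v n
    obtain ⟨k, rfl | rfl⟩ := n.eq_nat_or_neg
    · exact hmod v k
    · rw [← hmod (v + -(k : ℤ) * P) k]
      congr 1
      ring
  have h5 : (Matrix.of fun x y : Fin P => h ((x : ℕ) - (y : ℕ) : ℤ)) =
      dft 1 P * Matrix.of fun k y => g k * dft (-1) P k y * 1 := by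
    ext x y
    rw [Matrix.mul_apply, Matrix.of_apply]
    have h6 : ∀ k : Fin P, dft 1 P x k * (Matrix.of fun k y => g k * dft (-1) P k y * 1) k y =
        ∑ u ∈ Finset.range P, (P : ℂ)⁻¹ * h (u : ℤ) *
          ee (((k : ℕ) : ℝ) * (((x : ℕ) - (y : ℕ) - u : ℤ) : ℝ) / P) := by
      intro k
      simp only [Matrix.of_apply, dft]
      rw [hg, Finset.mul_sum, Finset.sum_mul, mul_one, Finset.mul_sum]
      refine Finset.sum_congr rfl fun u _ => ?_
      have h7 : ((k : ℕ) : ℝ) * (((x : ℕ) - (y : ℕ) - u : ℤ) : ℝ) / P =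
          ((1 : ℤ) : ℝ) * (x : ℕ) * (k : ℕ) / P + (-((k : ℕ) * (u : ℝ) / P)) +
            ((-1 : ℤ) : ℝ) * (k : ℕ) * (y : ℕ) / P := by
        push_cast
        ring
      rw [h7, ee_add, ee_add]
      ring
    rw [Finset.sum_congr rfl fun k _ => h6 k, Finset.sum_comm]
    have h8 : ∀ u ∈ Finset.range P, ∑ k : Fin P, (P : ℂ)⁻¹ * h (u : ℤ) *
        ee (((k : ℕ) : ℝ) * (((x : ℕ) - (y : ℕ) - u : ℤ) : ℝ) / P) =
        if (P : ℤ) ∣ ((x : ℕ) - (y : ℕ) - u : ℤ) then h (u : ℤ) else 0 := by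
      intro u _
      rw [← Finset.mul_sum, Fin.sum_univ_eq_sum_range (fun k : ℕ =>
        ee ((k : ℝ) * (((x : ℕ) - (y : ℕ) - u : ℤ) : ℝ) / P)) P, sum_ee P hP]
      split_ifs with h9
      · field_simp
      · rw [mul_zero]
    rw [Finset.sum_congr rfl h8]
    obtain ⟨u0, hu0⟩ : ∃ u0 : ℕ, (u0 : ℤ) = ((x : ℕ) - (y : ℕ) : ℤ) % P :=
      ⟨(((x : ℕ) - (y : ℕ) : ℤ) % P).toNat, Int.toNat_of_nonneg
        (Int.emod_nonneg _ (by exact_mod_cast hP.ne'))⟩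
    have hu1 : u0 < P := by
      have h9 := Int.emod_lt_of_pos ((x : ℕ) - (y : ℕ) : ℤ) (by exact_mod_cast hP : (0 : ℤ) < P)
      rw [← hu0] at h9
      exact_mod_cast h9
    have hdv : ((x : ℕ) - (y : ℕ) : ℤ) = u0 + (((x : ℕ) - (y : ℕ) : ℤ) / P) * P := by
      rw [hu0, mul_comm]
      exact (Int.emod_add_mul_ediv _ _).symm
    rw [Finset.sum_eq_single u0]
    · rw [if_pos]
      · rw [hdv, hmodz]
      · refine ⟨((x : ℕ) - (y : ℕ) : ℤ) / P, ?_⟩
        linarith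
    · intro u hu hne
      rw [if_neg]
      rintro ⟨k, hk⟩
      apply hne
      have h9 : (u : ℤ) = ((x : ℕ) - (y : ℕ) : ℤ) % P := by
        have h10 : ((x : ℕ) - (y : ℕ) : ℤ) = u + P * k := by linarith
        rw [h10, Int.add_mul_emod_self_left]
        exact (Int.emod_eq_of_lt (Int.natCast_nonneg u)
          (by exact_mod_cast Finset.mem_range.1 hu)).symm
      rw [← hu0] at h9
      exact_mod_cast h9
    · intro h9
      exact absurd (Finset.mem_range.2 hu1) h9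
  rw [h5]
  exact h3

end MP0775d3.Cf
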