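import Pool.Agent.Lib.MP_0775d3_lc.Cf.Blue

/-! Fourier matrices of small and of cyclic groups; extensions. -/

set_option linter.unusedSectionVars false
set_option linter.unusedVariables false

namespace MP0775d3.Cf

open Matrix MP0775d3.Bf

/-- A set of different characters of a finite group is finite and has at most `|W|` elements.
PROOF. Different characters are linearly independent functions on `W`
(`linearIndependent_monoidHom`); each `χ x` as a monoid homomorphism. -/
theorem card_chars {W : Type} [Group W] [Finite W] {X : Type} (χ : X → W → ℂ)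
    (h1 : ∀ x, χ x 1 = 1) (h2 : ∀ x v w, χ x (v * w) = χ x v * χ x w)
    (h3 : Function.Injective χ) : Finite X ∧ Nat.card X ≤ Nat.card W := by
  classical
  have : Fintype W := Fintype.ofFinite W
  let φ : X → (W →* ℂ) := fun x => { toFun := χ x, map_one' := h1 x, map_mul' := h2 x }
  have hφ : Function.Injective φ := fun x y h => h3 (by
    funext w
    exact DFunLike.congr_fun h w)
  have hli : LinearIndependent ℂ (M := W → ℂ) (fun x => (φ x : W → ℂ)) :=
    (linearIndependent_monoidHom W ℂ).comp φ hφ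
  have : Finite X := hli.finite
  have : Fintype X := Fintype.ofFinite X
  refine ⟨inferInstance, ?_⟩
  have h := hli.fintype_card_le_finrank
  rw [Module.finrank_fintype_fun_eq_card] at h
  rwa [Nat.card_eq_fintype_card, Nat.card_eq_fintype_card]

theorem FB.mono {W : Type} [Group W] {w s w' s' : ℝ} {t t' : ℕ} (h : FB w s t W) (hw : w ≤ w')
    (hs : s ≤ s') (ht : t ≤ t') (hs' : 1 ≤ s') : FB w' s' t' W :=
  fun X χ h1 h2 h3 => (h X χ h1 h2 h3).mono hw hs ht hs'

/-- PROOF. `bx_of_blk`, `blk_card`, `card_chars`. -/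
theorem fb_small {W : Type} [Group W] [Finite W] {s : ℝ} (h : (Nat.card W : ℝ) ≤ s) :
    FB (Nat.card W) s 1 W := by
  classical
  intro X χ h1 h2 h3
  obtain ⟨hX, hc⟩ := card_chars χ h1 h2 h3
  have : Fintype W := Fintype.ofFinite W
  have : Fintype X := Fintype.ofFinite X
  have hW1 : (1 : ℝ) ≤ Nat.card W := by exact_mod_cast Nat.card_pos
  have e1 : (Fintype.card W : ℝ) = Nat.card W := by rw [Nat.card_eq_fintype_card]
  have e2 : (Fintype.card X : ℝ) ≤ Nat.card W := by
    rw [← Nat.card_eq_fintype_card]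
    exact_mod_cast hc
  exact bx_of_blk (blk_card (by rw [e1]; exact h) (e2.trans h) _) (hW1.trans h) e1.le e2

private lemma fb_pow {W : Type} [Group W] {χ : W → ℂ} (h1 : χ 1 = 1)
    (h2 : ∀ v w, χ (v * w) = χ v * χ w) (g : W) (n : ℕ) : χ (g ^ n) = χ g ^ n := by
  induction n with
  | zero => rw [pow_zero, pow_zero, h1]
  | succ n ih => rw [pow_succ, pow_succ, h2, ih]

/-- Cyclic groups. PROOF. `w = g ^ i` with `i : Fin m`, `m = Nat.card W`;
`χ x g = ee (k x / m)` with `k x : Fin m` (an `m`-th root of unity), `k` injective;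
`χ x (g ^ i) = ee (k x * i / m)`: a submatrix of `dft 1 m`. -/
theorem fb_cyclic {W : Type} [Group W] [Finite W] (g : W) (hg : ∀ w : W, w ∈ Subgroup.zpowers g)
    {w s : ℝ} {t : ℕ} (h : Bx w s t (dft 1 (Nat.card W))) : FB w s t W := by
  classical
  intro X χ h1 h2 h3
  have hm : Nat.card W ≠ 0 := Nat.card_pos.ne'
  have hord : orderOf g = Nat.card W := orderOf_eq_card_of_forall_mem_zpowers hg
  have hgm : g ^ Nat.card W = 1 := pow_card_eq_one'
  have hex : ∀ v : W, ∃ i : Fin (Nat.card W), g ^ (i : ℕ) = v := by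
    intro v
    have h4 := (mem_zpowers_iff_mem_range_orderOf (x := g)).1 (hg v)
    rw [hord] at h4
    obtain ⟨i, hi, hv⟩ := Finset.mem_image.1 h4
    exact ⟨⟨i, Finset.mem_range.1 hi⟩, hv⟩
  choose e he using hex
  have hζ := Complex.isPrimitiveRoot_exp (Nat.card W) hm
  have hkex : ∀ x : X, ∃ k : Fin (Nat.card W),
      Complex.exp (2 * Real.pi * Complex.I / (Nat.card W : ℂ)) ^ (k : ℕ) = χ x g := by
    intro x
    have h4 : χ x g ^ Nat.card W = 1 := by
      rw [← fb_pow (h1 x) (h2 x), hgm, h1]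
    have : NeZero (Nat.card W) := ⟨hm⟩
    obtain ⟨k, hk, hx⟩ := hζ.eq_pow_of_pow_eq_one h4
    exact ⟨⟨k, hk⟩, hx⟩
  choose k hk using hkex
  have hval : ∀ x v, χ x v = χ x g ^ ((e v : Fin (Nat.card W)) : ℕ) := by
    intro x v
    rw [← fb_pow (h1 x) (h2 x), he]
  have hmat : (Matrix.of fun (v : W) (x : X) => χ x v) = (dft 1 (Nat.card W)).submatrix e k := by
    ext v x
    rw [Matrix.of_apply, Matrix.submatrix_apply, hval, ← hk x, ← pow_mul]
    show _ = ee (((1 : ℤ) : ℝ) * ((e v : ℕ) : ℝ) * ((k x : ℕ) : ℝ) / ((Nat.card W : ℕ) : ℝ))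
    unfold ee
    rw [← Complex.exp_nat_mul]
    congr 1
    push_cast
    ring
  rw [hmat]
  refine h.submatrix (fun v v' hv => ?_) (fun x x' hx => h3 ?_)
  · rw [← he v, ← he v', hv]
  · funext v
    rw [hval x, hval x', ← hk x, ← hk x', hx]

private lemma fb_card_le {W : Type} [Group W] [Finite W] {w s : ℝ} {t : ℕ} (h : FB w s t W) :
    (Nat.card W : ℝ) ≤ w := by
  classical
  have : Fintype W := Fintype.ofFinite W
  have h4 := h Empty (fun x => x.elim) (fun x => x.elim) (fun x => x.elim) (fun x => x.elim)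
  rw [Nat.card_eq_fintype_card]
  exact h4.card_le

/-- Extensions. PROOF. Let `χ : X → W → ℂ` be given. `Ψ` = the set of the restrictions of the `χ x` to
`V` (as functions `V → ℂ`), for `ψ ∈ Ψ` fix `x₀ ψ` with restriction `ψ`. For `x` with restriction `ψ`
the function `χ x / χ (x₀ ψ)` is a character of `W` trivial on `V`, so it comes from a character
`θ x` of `W ⧸ V`, and `θ` is injective on the `x` with restriction `ψ`. For `w ∈ W` let `k` be its
class, `w = v * k.out` with `v ∈ V` (`W` is commutative). Then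
`χ x w = ψ v * χ (x₀ ψ) k.out * θ x k`, so the matrix is `L * R` with middle index `(ψ, k)`,
`L w (ψ, k') = ψ v * χ (x₀ ψ) k.out` if `k = k'`, `R (ψ, k) x = θ x k` if `ψ` is the restriction of
`χ x`. `bx_blocks` over `k` (`FB` of `V` for the characters in `Ψ`, width `|W ⧸ V| w ≤ w' w`) and over
`ψ` (`FB` of `W ⧸ V`, width `|Ψ| w' ≤ w w'`; `Bx.card_le`, `card_chars`), `Bx.mul`. -/
theorem FB.ext {W : Type} [Group W] [Finite W] (hW : ∀ a b : W, a * b = b * a) (V : Subgroup W)
    [V.Normal] {w s w' : ℝ} {t t' : ℕ} (ht : 1 ≤ t) (ht' : 1 ≤ t') (hs : 1 ≤ s)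
    (h : FB w s t V) (h' : FB w' s t' (W ⧸ V)) : FB (w * w') s (t + t' + 1) W := by
  classical
  intro X χ h1 h2 h3
  have hne : ∀ x v, χ x v ≠ 0 := by
    intro x v h0
    have h4 := h2 x v v⁻¹
    rw [mul_inv_cancel, h1, h0, zero_mul] at h4
    exact one_ne_zero h4
  have : Finite (W ⧸ V) := inferInstance
  have : Fintype (W ⧸ V) := Fintype.ofFinite _
  -- restrictions
  let res : X → (V → ℂ) := fun x v => χ x v
  let Ψ : Type := {ψ : V → ℂ // ∃ x, res x = ψ}
  let r : X → Ψ := fun x => ⟨res x, x, rfl⟩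
  have hΨ := card_chars (W := V) (X := Ψ) (fun ψ => ψ.1)
    (fun ψ => by obtain ⟨x, hx⟩ := ψ.2; rw [← hx]; exact h1 x)
    (fun ψ a b => by obtain ⟨x, hx⟩ := ψ.2; rw [← hx]; exact h2 x a b)
    Subtype.val_injective
  have : Finite Ψ := hΨ.1
  have : Fintype Ψ := Fintype.ofFinite Ψ
  let x₀ : Ψ → X := fun ψ => ψ.2.choose
  have hx₀ : ∀ ψ : Ψ, res (x₀ ψ) = ψ.1 := fun ψ => ψ.2.choose_spec
  have hrx₀ : ∀ ψ : Ψ, r (x₀ ψ) = ψ := fun ψ => Subtype.ext (hx₀ ψ)
  -- classes
  let q : W → W ⧸ V := fun a => (a : W ⧸ V)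
  let o : W ⧸ V → W := Quotient.out
  have ho : ∀ k : W ⧸ V, q (o k) = k := fun k => Quotient.out_eq k
  have hv : ∀ a : W, (o (q a))⁻¹ * a ∈ V := fun a => QuotientGroup.eq.1 (ho (q a))
  let vv : W → V := fun a => ⟨(o (q a))⁻¹ * a, hv a⟩
  have hdec : ∀ a : W, a = o (q a) * (vv a : W) := fun a => by
    show a = o (q a) * ((o (q a))⁻¹ * a)
    rw [mul_inv_cancel_left]
  let θ : X → (W ⧸ V) → ℂ := fun x k => χ x (o k) * (χ (x₀ (r x)) (o k))⁻¹
  have hresv : ∀ x (v : V), χ (x₀ (r x)) v = χ x v := fun x v => congrFun (hx₀ (r x)) v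
  have hθ : ∀ x a, θ x (q a) = χ x a * (χ (x₀ (r x)) a)⁻¹ := by
    intro x a
    have e1 : χ x a = χ x (o (q a)) * χ x (vv a) := by
      rw [← h2, ← hdec a]
    have e2 : χ (x₀ (r x)) a = χ (x₀ (r x)) (o (q a)) * χ x (vv a) := by
      rw [← hresv x (vv a), ← h2, ← hdec a]
    show χ x (o (q a)) * (χ (x₀ (r x)) (o (q a)))⁻¹ = _
    rw [e1, e2]
    have n1 := hne x (vv a)
    have n2 := hne (x₀ (r x)) (o (q a))
    field_simp
  have hθ1 : ∀ x, θ x 1 = 1 := by
    intro x
    have h4 := hθ x 1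
    rw [h1, h1, inv_one, one_mul] at h4
    exact h4
  have hθ2 : ∀ x k k', θ x (k * k') = θ x k * θ x k' := by
    intro x k k'
    have e : k * k' = q (o k * o k') := by
      show k * k' = ((o k * o k' : W) : W ⧸ V)
      rw [QuotientGroup.mk_mul]
      exact congrArg₂ (· * ·) (ho k).symm (ho k').symm
    rw [e, hθ, h2, h2, mul_inv]
    show _ = χ x (o k) * (χ (x₀ (r x)) (o k))⁻¹ * (χ x (o k') * (χ (x₀ (r x)) (o k'))⁻¹)
    ring
  have hθ3 : ∀ x y, r x = r y → θ x = θ y → x = y := by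
    intro x y hr hxy
    refine h3 (funext fun a => ?_)
    have h4 := hθ x a
    have h5 := hθ y a
    rw [hxy, h5, hr] at h4
    exact (mul_right_cancel₀ (inv_ne_zero (hne _ _)) h4).symm
  -- the factors
  let L : Matrix W (Ψ × (W ⧸ V)) ℂ := Matrix.of fun a p =>
    if q a = p.2 then p.1.1 (vv a) * χ (x₀ p.1) (o p.2) else 0
  let R : Matrix (Ψ × (W ⧸ V)) X ℂ := Matrix.of fun p x => if p.1 = r x then θ x p.2 else 0
  have hLR : (Matrix.of fun (v : W) (x : X) => χ x v) = L * R := by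
    ext a x
    rw [Matrix.of_apply, Matrix.mul_apply, Finset.sum_eq_single (r x, q a)]
    · show χ x a = (if q a = q a then res x (vv a) * χ (x₀ (r x)) (o (q a)) else 0) *
        (if r x = r x then θ x (q a) else 0)
      rw [if_pos rfl, if_pos rfl]
      show χ x a = χ x (vv a) * χ (x₀ (r x)) (o (q a)) *
        (χ x (o (q a)) * (χ (x₀ (r x)) (o (q a)))⁻¹)
      have n2 := hne (x₀ (r x)) (o (q a))
      have e1 : χ x a = χ x (o (q a)) * χ x (vv a) := by
        rw [← h2, ← hdec a]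
      rw [e1]
      field_simp
    · intro p _ hp
      show (if q a = p.2 then p.1.1 (vv a) * χ (x₀ p.1) (o p.2) else 0) *
        (if p.1 = r x then θ x p.2 else 0) = 0
      by_cases e1 : q a = p.2
      · by_cases e2 : p.1 = r x
        · exact absurd (Prod.ext e2 e1.symm) hp
        · rw [if_neg e2, mul_zero]
      · rw [if_neg e1, zero_mul]
    · intro h4
      exact absurd (Finset.mem_univ _) h4
  rw [hLR]
  have hcV : (Nat.card V : ℝ) ≤ w := fb_card_le h
  have hcK : (Nat.card (W ⧸ V) : ℝ) ≤ w' := fb_card_le h'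
  have hw0 : 0 ≤ w := (Nat.cast_nonneg _).trans hcV
  have hw0' : 0 ≤ w' := (Nat.cast_nonneg _).trans hcK
  have hcΨ : (Fintype.card Ψ : ℝ) ≤ w := by
    rw [← Nat.card_eq_fintype_card]
    exact le_trans (by exact_mod_cast hΨ.2) hcV
  have hL : Bx (w * w') s t L := by
    refine Bx.mono (bx_blocks L (fun a => q a) (fun p => p.2) (fun a p hne => if_neg hne)
      (fun _ => w) ht (fun _ => V) (fun _ => Ψ) (fun _ => Matrix.of fun (v : V) (ψ : Ψ) => ψ.1 v)
      (fun _ => ?_) (fun _ a => vv a) (fun _ p => p.1) ?_ ?_ (fun _ => 1)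
      (fun p => χ (x₀ p.1) (o p.2)) ?_) ?_ le_rfl le_rfl hs
    · exact h Ψ (fun ψ => ψ.1)
        (fun ψ => by obtain ⟨x, hx⟩ := ψ.2; rw [← hx]; exact h1 x)
        (fun ψ a b => by obtain ⟨x, hx⟩ := ψ.2; rw [← hx]; exact h2 x a b)
        Subtype.val_injective
    · intro k a a' ha ha' hvv
      rw [hdec a, hdec a', hvv]
      exact congrArg (fun z => o z * (vv a' : W)) (ha.trans ha'.symm)
    · intro k p p' hp hp' h4
      exact Prod.ext h4 (hp.trans hp'.symm)
    · intro k a p ha hp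
      show (if q a = p.2 then p.1.1 (vv a) * χ (x₀ p.1) (o p.2) else 0) = 1 * p.1.1 (vv a) * χ (x₀ p.1) (o p.2)
      rw [if_pos (ha.trans hp.symm), one_mul]
    · rw [Finset.sum_const, Finset.card_univ, nsmul_eq_mul, mul_comm]
      rw [← Nat.card_eq_fintype_card]
      exact mul_le_mul_of_nonneg_left hcK hw0
  have hR : Bx (w * w') s t' R := by
    refine Bx.mono (bx_blocks R (fun p => p.1) (fun x => r x) (fun p x hne => if_neg hne)
      (fun _ => w') ht' (fun _ => (W ⧸ V)) (fun ψ => {x : X // r x = ψ})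
      (fun ψ => Matrix.of fun (k : W ⧸ V) (x : {x : X // r x = ψ}) => θ x.1 k)
      (fun ψ => ?_) (fun _ p => p.2)
      (fun ψ x => if h : r x = ψ then ⟨x, h⟩ else ⟨x₀ ψ, hrx₀ ψ⟩) ?_ ?_ (fun _ => 1)
      (fun _ => 1) ?_) ?_ le_rfl le_rfl hs
    · exact h' {x : X // r x = ψ} (fun x => θ x.1) (fun x => hθ1 x.1) (fun x => hθ2 x.1)
        (fun x y hxy => Subtype.ext (hθ3 x.1 y.1 (x.2.trans y.2.symm) hxy))
    · intro ψ p p' hp hp' h4
      exact Prod.ext (hp.trans hp'.symm) h4
    · intro ψ x x' hx hx' h4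
      rw [dif_pos hx, dif_pos hx'] at h4
      exact congrArg Subtype.val h4
    · intro ψ p x hp hx
      show (if p.1 = r x then θ x p.2 else 0) = 1 * θ (if h : r x = ψ then (⟨x, h⟩ : {x : X // r x = ψ})
        else ⟨x₀ ψ, hrx₀ ψ⟩).1 p.2 * 1
      rw [if_pos (hp.trans hx.symm), dif_pos hx, one_mul, mul_one]
    · rw [Finset.sum_const, Finset.card_univ, nsmul_eq_mul]
      exact mul_le_mul_of_nonneg_right hcΨ hw0'
  exact hL.mul hR hs

end MP0775d3.Cf
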