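import Pool.Agent.Lib.MP_0775d3_lc.Cf.Mult
import Pool.Agent.Lib.MP_0775d3_lc.Sl2H.Peel

/-! Factors of `SL₂` type. -/

set_option linter.unusedSectionVars false
set_option linter.unusedVariables false

namespace MP0775d3.Cf

open Matrix MP0775d3.Sl2 MP0775d3.Sl2H

/-- PROOF. `γ`, `C₂` from `peel δ`; `C = 8 C₂` or larger. Induction on `l` for all `G` (`N₁` fixed):
`l = 0` is the hypothesis. Step: `G ≃* T × R` (`GBound.congr`), `|T| > κ`. For a commutative `E` with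
`|E| ≤ 8 |T|` the group `E × R` is in the class (`Mult.inner`) and
`8 ^ l |E × R| ≤ 8 ^ (l + 1) |T| |R| ≤ N₁`, so the induction hypothesis is
`AbBound R (8 |T|) (C ^ l (l κ ^ (-γ) + ρ)) ((C N₁ ^ δ) ^ l τ)`. Then `peel`:
rank at most `C₂ |G| (|T| ^ (-γ) + C ^ l (l κ ^ (-γ) + ρ)) ≤ |G| C ^ (l + 1) ((l + 1) κ ^ (-γ) + ρ)`, sparsity
at most `C₂ |T| ^ δ (C N₁ ^ δ) ^ l τ`. Compare Lib/MP_0775d3_lc/U/MainS.lean. -/
theorem peel_ind (δ : ℝ) (hδ : 0 < δ) (hδ1 : δ ≤ 1) : ∃ γ : ℝ, 0 < γ ∧ γ ≤ 1 ∧ ∃ C : ℝ, 1 ≤ C ∧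
    ∀ (H : ∀ (G : Type) [Group G], Prop)
      (_ : ∀ (E G : Type) [CommGroup E] [Finite E] [Group G] [Finite G], H G → H (E × G))
      (κ ρ τ N₁ : ℝ) (_ : 1 ≤ κ) (_ : 0 ≤ ρ) (_ : 0 ≤ τ) (_ : 1 ≤ N₁)
      (_ : ∀ (G : Type) [Group G] [Finite G], H G → (Nat.card G : ℝ) ≤ N₁ →
        GBound G (Nat.card G * ρ) τ)
      (l : ℕ) (G : Type) [Group G] [Finite G],
      Mult (fun T _ => IsSL2Type T ∧ κ < Nat.card T) H l G → (8 : ℝ) ^ l * Nat.card G ≤ N₁ →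
      GBound G (Nat.card G * (C ^ l * (l * κ ^ (-γ) + ρ))) ((C * N₁ ^ δ) ^ l * τ) := by
  obtain ⟨γ, hγ, hγ1, C, hC, hpeel⟩ := peel δ hδ hδ1
  refine ⟨γ, hγ, hγ1, C, hC, ?_⟩
  intro H hH κ ρ τ N₁ hκ hρ hτ hN₁ hbase l
  have hκγ : (0 : ℝ) ≤ κ ^ (-γ) := Real.rpow_nonneg (by linarith) _
  have hN0 : (0 : ℝ) ≤ N₁ ^ δ := Real.rpow_nonneg (by linarith) _
  have hC0 : (0 : ℝ) ≤ C := by linarith
  induction l with
  | zero =>
    intro G _ _ hG hcard _ f hf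
    have h1 := hbase G hG (by
      rw [pow_zero, one_mul] at hcard
      exact hcard) f hf
    refine h1.mono (le_of_eq ?_) (le_of_eq ?_)
    · rw [pow_zero, Nat.cast_zero, zero_mul, zero_add, one_mul]
    · rw [pow_zero, one_mul]
  | succ l ih =>
    intro G _ _ hG hcard
    obtain ⟨T, R, _, _, ⟨hT, hTκ⟩, hR, ⟨e⟩⟩ := hG
    have hfin : Finite (T × R) := Finite.of_equiv G e.toEquiv
    have hfT : Finite T := Finite.of_surjective (Prod.fst : T × R → T) Prod.fst_surjective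
    have hfR : Finite R := Finite.of_surjective (Prod.snd : T × R → R) Prod.snd_surjective
    have hcG : (Nat.card G : ℝ) = Nat.card T * Nat.card R := by
      rw [Nat.card_congr e.toEquiv, Nat.card_prod]
      push_cast
      ring
    have hT1 : (1 : ℝ) ≤ Nat.card T := by exact_mod_cast Nat.card_pos
    have hR1 : (1 : ℝ) ≤ Nat.card R := by exact_mod_cast Nat.card_pos
    have hTκ' : κ < (Nat.card T : ℝ) := hTκ
    rw [hcG] at hcard ⊢
    obtain ⟨B, hB⟩ : ∃ B : ℝ, B = C ^ l * (l * κ ^ (-γ) + ρ) := ⟨_, rfl⟩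
    obtain ⟨S, hS⟩ : ∃ S : ℝ, S = (C * N₁ ^ δ) ^ l * τ := ⟨_, rfl⟩
    have hB0 : 0 ≤ B := by
      rw [hB]
      positivity
    have hS0 : 0 ≤ S := by
      rw [hS]
      positivity
    have hAb : AbBound R (8 * Nat.card T) B S := by
      intro E _ _ hE _ g hg
      have h3 := ih (E × R) (Mult.inner (E := E) (fun G _ _ h => hH E G h) hR) (by
        rw [Nat.card_prod]
        push_cast
        calc (8 : ℝ) ^ l * ((Nat.card E : ℝ) * Nat.card R)
            ≤ (8 : ℝ) ^ l * ((8 * Nat.card T) * Nat.card R) := by gcongr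
          _ = (8 : ℝ) ^ (l + 1) * (Nat.card T * Nat.card R) := by ring
          _ ≤ N₁ := hcard) g hg
      rw [Nat.card_prod, ← hB, ← hS] at h3
      push_cast at h3
      exact h3
    suffices hTH : ∀ (_ : Fintype (T × R)) (f : T × R → ℂ), IsClassFun f → RDec (groupMat f)
        (Nat.card T * Nat.card R * (C ^ (l + 1) * ((l + 1 : ℕ) * κ ^ (-γ) + ρ)))
        ((C * N₁ ^ δ) ^ (l + 1) * τ) by
      intro hGf
      exact GBound.congr e.symm (fun {i} f hf => hTH i f hf)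
    intro hTHf f hf
    have h := hpeel T hT R B S hB0 hS0 hAb f hf
    refine h.mono ?_ ?_
    · have h3 : (Nat.card T : ℝ) ^ (-γ) ≤ κ ^ (-γ) :=
        Real.rpow_le_rpow_of_nonpos (by linarith) hTκ'.le (by linarith)
      have h4 : C * κ ^ (-γ) ≤ C ^ (l + 1) * κ ^ (-γ) :=
        mul_le_mul_of_nonneg_right (le_self_pow₀ hC (Nat.succ_ne_zero l)) hκγ
      have h5 : C * (κ ^ (-γ) + B) ≤ C ^ (l + 1) * ((l + 1 : ℕ) * κ ^ (-γ) + ρ) := by
        rw [hB]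
        push_cast
        calc C * (κ ^ (-γ) + C ^ l * (l * κ ^ (-γ) + ρ))
            = C * κ ^ (-γ) + C ^ (l + 1) * (l * κ ^ (-γ) + ρ) := by ring
          _ ≤ C ^ (l + 1) * κ ^ (-γ) + C ^ (l + 1) * (l * κ ^ (-γ) + ρ) := by linarith
          _ = C ^ (l + 1) * ((l + 1) * κ ^ (-γ) + ρ) := by ring
      calc C * (Nat.card T * Nat.card R * ((Nat.card T : ℝ) ^ (-γ) + B))
          ≤ C * (Nat.card T * Nat.card R * (κ ^ (-γ) + B)) := by gcongr
        _ = Nat.card T * Nat.card R * (C * (κ ^ (-γ) + B)) := by ring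
        _ ≤ Nat.card T * Nat.card R * (C ^ (l + 1) * ((l + 1 : ℕ) * κ ^ (-γ) + ρ)) := by
            gcongr
    · have hTN : (Nat.card T : ℝ) ≤ N₁ := by
        refine le_trans ?_ hcard
        have h6 : (1 : ℝ) ≤ 8 ^ (l + 1) := one_le_pow₀ (by norm_num)
        calc (Nat.card T : ℝ) = 1 * (Nat.card T * 1) := by ring
          _ ≤ 8 ^ (l + 1) * (Nat.card T * Nat.card R) := by gcongr
      have h3 : (Nat.card T : ℝ) ^ δ ≤ N₁ ^ δ := Real.rpow_le_rpow (by linarith) hTN hδ.le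
      calc C * ((Nat.card T : ℝ) ^ δ * S) ≤ C * (N₁ ^ δ * S) := by gcongr
        _ = (C * N₁ ^ δ) ^ (l + 1) * τ := by
            rw [hS]
            ring

end MP0775d3.Cf
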