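import Pool.Agent.Lib.MP_0775d3_lc.Cf.Series
import Pool.Agent.Lib.MP_0775d3_lc.U.Ab

/-! Direct products with a variable number of factors. -/

set_option linter.unusedSectionVars false
set_option linter.unusedVariables false

namespace MP0775d3.Cf

open MP0775d3.Sl2

/-- `G` is a direct product of `r` groups that satisfy `T` and of one group that satisfies `H`. -/
def Mult (T H : ∀ (G : Type) [Group G], Prop) : ℕ → ∀ (G : Type) [Group G], Prop
  | 0, G, _ => H G
  | r + 1, G, _ => ∃ (P R : Type) (_ : Group P) (_ : Group R),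
      T P ∧ Mult T H r R ∧ Nonempty (G ≃* P × R)

section
variable {T T' H H' : ∀ (G : Type) [Group G], Prop}

private theorem mult_fin {G P R : Type} [Group G] [Group P] [Group R] [Finite G]
    (f : G ≃* P × R) : Finite P ∧ Finite R := by
  have h : Finite (P × R) := Finite.of_equiv G f.toEquiv
  exact ⟨Finite.of_surjective (Prod.fst : P × R → P) Prod.fst_surjective,
    Finite.of_surjective (Prod.snd : P × R → R) Prod.snd_surjective⟩

private def mult_swap (E P R : Type) [Group E] [Group P] [Group R] :
    E × (P × R) ≃* P × (E × R) where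
  toFun x := (x.2.1, x.1, x.2.2)
  invFun x := (x.2.1, x.1, x.2.2)
  left_inv _ := rfl
  right_inv _ := rfl
  map_mul' _ _ := rfl

private theorem mult_inner {H₁ H₂ : ∀ (G : Type) [Group G], Prop} {E : Type} [Group E]
    (hE : ∀ (G : Type) [Group G] [Finite G], H₁ G → H₂ (E × G)) {r : ℕ} :
    ∀ {G : Type} [Group G] [Finite G], Mult T H₁ r G → Mult T H₂ r (E × G) := by
  induction r with
  | zero =>
    intro G _ _ h
    exact hE G h
  | succ r ih =>
    intro G _ _ h
    obtain ⟨P, R, gP, gR, hT, hR, ⟨f⟩⟩ := h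
    have hf := mult_fin f
    have hfR : Finite R := hf.2
    exact ⟨P, E × R, gP, inferInstance, hT, ih hR,
      ⟨((MulEquiv.refl E).prodCongr f).trans (mult_swap E P R)⟩⟩

theorem Mult.congr (hH : ∀ (G G' : Type) [Group G] [Group G'], (G ≃* G') → H G → H G') {r : ℕ}
    {G G' : Type} [Group G] [Group G'] (e : G ≃* G') (h : Mult T H r G) : Mult T H r G' := by
  cases r with
  | zero => exact hH G G' e h
  | succ r =>
    obtain ⟨P, R, gP, gR, hT, hR, ⟨f⟩⟩ := h
    exact ⟨P, R, gP, gR, hT, hR, ⟨e.symm.trans f⟩⟩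

/-- PROOF. Induction on `r`; move `E` past the factors. -/
theorem Mult.inner {E : Type} [Group E]
    (hE : ∀ (G : Type) [Group G] [Finite G], H G → H (E × G)) {r : ℕ} :
    ∀ {G : Type} [Group G] [Finite G], Mult T H r G → Mult T H r (E × G) := by
  exact mult_inner hE

/-- Sorting. The factors are of the two kinds `A`, `B`, small or large; small factors are put into the
last group. `H` is closed under isomorphisms and under products with small groups.
PROOF. Induction on `r`: `G ≃* P × R`. `P` large of the kind `B`: one more outer factor. `P` large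
of the kind `A`: `Mult.inner`-like argument: it is moved past the outer factors (`P × (X × Y) ≃ X × (P × Y)`)
and is one more inner factor. `P` small: it is moved to the last group. -/
theorem Mult.sort {A B : ∀ (G : Type) [Group G], Prop} {κ : ℝ}
    (hH : ∀ (G G' : Type) [Group G] [Group G'], (G ≃* G') → H G → H G')
    (hs : ∀ (P G : Type) [Group P] [Group G] [Finite P] [Finite G], (Nat.card P : ℝ) ≤ κ → H G →
      H (P × G)) {r : ℕ} : ∀ {G : Type} [Group G] [Finite G],
      Mult (fun P _ => A P ∨ B P) H r G → ∃ k l : ℕ,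
        Mult (fun P _ => B P ∧ κ < Nat.card P) (Mult (fun P _ => A P ∧ κ < Nat.card P) H k) l G := by
  induction r with
  | zero =>
    intro G _ _ h
    exact ⟨0, 0, h⟩
  | succ r ih =>
    intro G _ _ h
    obtain ⟨P, R, gP, gR, hT, hR, ⟨f⟩⟩ := h
    have hf := mult_fin f
    have hfP : Finite P := hf.1
    have hfR : Finite R := hf.2
    obtain ⟨k, l, hkl⟩ := ih hR
    rcases lt_or_ge κ (Nat.card P : ℝ) with hP | hP
    · rcases hT with hA | hB
      · refine ⟨k + 1, l, ?_⟩
        have h1 : Mult (fun P _ => B P ∧ κ < Nat.card P)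
            (Mult (fun P _ => A P ∧ κ < Nat.card P) H (k + 1)) l (P × R) := by
          refine mult_inner (E := P) (fun G _ _ hG => ?_) hkl
          exact ⟨P, G, gP, inferInstance, ⟨hA, hP⟩, hG, ⟨MulEquiv.refl _⟩⟩
        exact Mult.congr (fun G G' _ _ e hG => Mult.congr hH e hG) f.symm h1
      · exact ⟨k, l + 1, P, R, gP, gR, ⟨hB, hP⟩, hkl, ⟨f⟩⟩
    · refine ⟨k, l, ?_⟩
      have h1 : Mult (fun P _ => B P ∧ κ < Nat.card P)
          (Mult (fun P _ => A P ∧ κ < Nat.card P) H k) l (P × R) := by
        refine mult_inner (E := P) (fun G _ _ hG => ?_) hkl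
        exact mult_inner (E := P) (fun G _ _ hG => hs P G hP hG) hG
      exact Mult.congr (fun G G' _ _ e hG => Mult.congr hH e hG) f.symm h1

/-- PROOF. Induction on `r`: `|G| = |P| |R|`. -/
theorem Mult.card {κ : ℝ} (hκ : 1 ≤ κ) (hT : ∀ (P : Type) [Group P], T P → κ < Nat.card P)
    {r : ℕ} : ∀ {G : Type} [Group G] [Finite G], Mult T H r G → κ ^ r ≤ Nat.card G := by
  induction r with
  | zero =>
    intro G _ _ _
    rw [pow_zero]
    exact_mod_cast Nat.card_pos
  | succ r ih =>
    intro G _ _ h
    obtain ⟨P, R, gP, gR, hTP, hR, ⟨f⟩⟩ := h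
    have hf := mult_fin f
    have hfP : Finite P := hf.1
    have hfR : Finite R := hf.2
    have h1 := hT P hTP
    have h2 := ih hR
    have h3 : Nat.card G = Nat.card P * Nat.card R := by
      rw [Nat.card_congr f.toEquiv, Nat.card_prod]
    rw [h3, pow_succ, mul_comm]
    push_cast
    exact mul_le_mul h1.le h2 (by positivity) (by linarith)

theorem Mult.imp (hT : ∀ (P : Type) [Group P], T P → T' P)
    (hH : ∀ (P : Type) [Group P], H P → H' P) {r : ℕ} {G : Type} [Group G]
    (h : Mult T H r G) : Mult T' H' r G := by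
  induction r generalizing G with
  | zero => exact hH G h
  | succ r ih =>
    obtain ⟨P, R, gP, gR, hTP, hR, ⟨f⟩⟩ := h
    exact ⟨P, R, gP, gR, hT P hTP, ih hR, ⟨f⟩⟩

end

end MP0775d3.Cf
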