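import Pool.Agent.Lib.MP_0775d3_lc.Cf.Defs

/-! Groups with a normal series whose factors are abelian or small. -/

set_option linter.unusedSectionVars false
set_option linter.unusedVariables false

namespace MP0775d3.Cf

/-- A factor of a series: abelian or of order at most `b`. -/
def Fac {Q : Type} [Group Q] (b : ℝ) (A B : Subgroup Q) : Prop :=
  (∀ x ∈ B, ∀ y ∈ B, x * y * x⁻¹ * y⁻¹ ∈ A) ∨ (Nat.card B : ℝ) ≤ b * Nat.card A

/-- `Q` has a series `⊥ = M 0 ≤ M 1 ≤ ... ≤ M r = ⊤` of normal subgroups in which every factor is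
abelian or of order at most `b`. -/
def Ser (b : ℝ) (r : ℕ) (Q : Type) [Group Q] : Prop :=
  ∃ M : ℕ → Subgroup Q, M 0 = ⊥ ∧ M r = ⊤ ∧ (∀ i, M i ≤ M (i + 1)) ∧ (∀ i, (M i).Normal) ∧
    ∀ i < r, Fac b (M i) (M (i + 1))

/-- `Q` has a normal series of any length in which every factor is abelian or of order at most `b`. -/
def HasSeries (b : ℝ) (Q : Type) [Group Q] : Prop := ∃ r, Ser b r Q

section
variable {Q : Type} [Group Q] {b b' : ℝ} {r r' : ℕ}

/-- PROOF. The series `M (min i r)`. -/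
theorem Ser.mono [Finite Q] (h : Ser b r Q) (hb : b ≤ b') (hr : r ≤ r') : Ser b' r' Q := by
  obtain ⟨M, h0, h1, h2, h3, h4⟩ := h
  have hmono : Monotone M := monotone_nat_of_le_succ h2
  have htop : ∀ i, r ≤ i → M i = ⊤ := fun i hi => top_le_iff.1 (h1 ▸ hmono hi)
  refine ⟨M, h0, htop r' hr, h2, h3, fun i hi => ?_⟩
  by_cases hir : i < r
  · rcases h4 i hir with h5 | h5
    · exact Or.inl h5
    · exact Or.inr (h5.trans (mul_le_mul_of_nonneg_right hb (Nat.cast_nonneg _)))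
  · left
    intro x _ y _
    rw [htop i (not_lt.1 hir)]
    exact Subgroup.mem_top _

theorem Ser.congr {P : Type} [Group P] (e : Q ≃* P) (h : Ser b r Q) : Ser b r P := by
  obtain ⟨M, h0, h1, h2, h3, h4⟩ := h
  have hcard : ∀ A : Subgroup Q, Nat.card (A.map (e : Q →* P)) = Nat.card A := fun A =>
    Nat.card_congr (A.equivMapOfInjective (e : Q →* P) e.injective).toEquiv.symm
  refine ⟨fun i => (M i).map (e : Q →* P), ?_, ?_, fun i => Subgroup.map_mono (h2 i),
    fun i => (h3 i).map _ e.surjective, fun i hi => ?_⟩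
  · change (M 0).map (e : Q →* P) = ⊥
    rw [h0, Subgroup.map_bot]
  · change (M r).map (e : Q →* P) = ⊤
    rw [h1]
    exact Subgroup.map_top_of_surjective _ e.surjective
  · rcases h4 i hi with h5 | h5
    · left
      rintro _ ⟨x, hx, rfl⟩ _ ⟨y, hy, rfl⟩
      refine ⟨x * y * x⁻¹ * y⁻¹, h5 x hx y hy, ?_⟩
      rw [map_mul, map_mul, map_mul, map_inv, map_inv]
    · right
      change (Nat.card ((M (i + 1)).map (e : Q →* P)) : ℝ) ≤ b * Nat.card ((M i).map (e : Q →* P))
      rw [hcard, hcard]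
      exact h5

private theorem series_prod {P : Type} [Group P] [Finite P] [Finite Q] (h : Ser b r Q)
    (hf : Fac b (⊥ : Subgroup (P × Q)) ((⊤ : Subgroup P).prod (⊥ : Subgroup Q))) :
    Ser b (r + 1) (P × Q) := by
  obtain ⟨M, h0, h1, h2, h3, h4⟩ := h
  obtain ⟨N, hN0, hN1⟩ : ∃ N : ℕ → Subgroup (P × Q), N 0 = ⊥ ∧
      ∀ i, N (i + 1) = (⊤ : Subgroup P).prod (M i) :=
    ⟨fun i => Nat.casesOn i ⊥ fun i => (⊤ : Subgroup P).prod (M i), rfl, fun _ => rfl⟩
  have hcard : ∀ A : Subgroup Q, Nat.card ((⊤ : Subgroup P).prod A) = Nat.card P * Nat.card A := by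
    intro A
    rw [Nat.card_congr (Subgroup.prodEquiv (⊤ : Subgroup P) A).toEquiv, Nat.card_prod,
      Subgroup.card_top]
  refine ⟨N, hN0, ?_, fun i => ?_, fun i => ?_, fun i hi => ?_⟩
  · rw [hN1, h1]
    exact Subgroup.top_prod_top
  · rcases i with _ | i
    · rw [hN0]
      exact bot_le
    · rw [hN1, hN1]
      exact Subgroup.prod_mono le_rfl (h2 i)
  · rcases i with _ | i
    · rw [hN0]
      exact Subgroup.normal_bot
    · rw [hN1]
      have := h3 i
      exact Subgroup.prod_normal _ _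
  · rcases i with _ | i
    · rw [hN0, hN1, h0]
      exact hf
    · rw [hN1, hN1]
      rcases h4 i (by omega) with h5 | h5
      · left
        rintro ⟨x1, x2⟩ hx ⟨y1, y2⟩ hy
        exact ⟨Subgroup.mem_top _, h5 x2 hx.2 y2 hy.2⟩
      · right
        rw [hcard, hcard]
        push_cast
        calc (Nat.card P : ℝ) * Nat.card (M (i + 1)) ≤ Nat.card P * (b * Nat.card (M i)) :=
              mul_le_mul_of_nonneg_left h5 (Nat.cast_nonneg _)
          _ = b * (Nat.card P * Nat.card (M i)) := by ring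

/-- PROOF. The series `⊥, E × ⊥, E × M 1, E × M 2, ...` (`Subgroup.prod`). -/
theorem Ser.prod_ab [Finite Q] {E : Type} [Group E] [Finite E] (hE : ∀ a b : E, a * b = b * a)
    (hb : 1 ≤ b) (h : Ser b r Q) : Ser b (r + 1) (E × Q) := by
  refine series_prod h (Or.inl ?_)
  rintro ⟨x1, x2⟩ hx ⟨y1, y2⟩ hy
  have hx2 : x2 = 1 := Subgroup.mem_bot.1 hx.2
  have hy2 : y2 = 1 := Subgroup.mem_bot.1 hy.2
  rw [Subgroup.mem_bot]
  refine Prod.ext ?_ ?_
  · change x1 * y1 * x1⁻¹ * y1⁻¹ = 1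
    rw [hE x1 y1, mul_inv_cancel_right, mul_inv_cancel]
  · change x2 * y2 * x2⁻¹ * y2⁻¹ = 1
    rw [hx2, hy2, inv_one, one_mul, one_mul, one_mul]

/-- The same series. -/
theorem Ser.prod_small [Finite Q] {P : Type} [Group P] [Finite P] (hP : (Nat.card P : ℝ) ≤ b)
    (h : Ser b r Q) : Ser b (r + 1) (P × Q) := by
  refine series_prod h (Or.inr ?_)
  rw [Nat.card_congr (Subgroup.prodEquiv (⊤ : Subgroup P) (⊥ : Subgroup Q)).toEquiv, Nat.card_prod,
    Subgroup.card_top, Subgroup.card_bot, Subgroup.card_bot, mul_one, Nat.cast_one, mul_one]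
  exact hP

private theorem series_card {P : Type*} [Group P] {A B : Subgroup P} (h : A ≤ B) :
    Nat.card A * A.relIndex B = Nat.card B := by
  have h1 := Subgroup.relIndex_mul_relIndex (H := (⊥ : Subgroup P)) (K := A) (L := B) bot_le h
  rwa [Subgroup.relIndex_bot_left, Subgroup.relIndex_bot_left] at h1

private theorem series_rel {P : Type*} [Group P] [Finite P] {A B : Subgroup P} (h : A ≤ B) :
    A.relIndex B ≠ 0 := by
  intro h0
  have h1 := series_card h
  rw [h0, mul_zero] at h1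
  exact (Nat.card_pos (α := B)).ne h1

/-- PROOF. `H.relIndex K` of the images and intersections is at most `H.relIndex K`. For finite
groups: `|π (K ∩ Q₁)| ≤ b |π (H ∩ Q₁)|` if `H ≤ K` and `|K| ≤ b |H|`. (The map of `K ∩ Q₁` to
`K / H` has kernel `H ∩ Q₁`, so `|K ∩ Q₁| ≤ b |H ∩ Q₁|`; `|π (K')| / |π (H')| = |K'| / |H' (K' ∩ ker π)| ≤
|K'| / |H'|`.) -/
theorem card_image_le [Finite Q] {H K : Subgroup Q} (hHK : H ≤ K) [H.Normal]
    (hb : (Nat.card K : ℝ) ≤ b * Nat.card H) (Q₁ : Subgroup Q) {P : Type} [Group P]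
    (π : Q₁ →* P) :
    (Nat.card ((K.subgroupOf Q₁).map π) : ℝ) ≤ b * Nat.card ((H.subgroupOf Q₁).map π) := by
  obtain ⟨H', hH'⟩ : ∃ H' : Subgroup Q₁, H' = H.subgroupOf Q₁ := ⟨_, rfl⟩
  obtain ⟨K', hK'⟩ : ∃ K' : Subgroup Q₁, K' = K.subgroupOf Q₁ := ⟨_, rfl⟩
  rw [← hH', ← hK']
  have hle : H' ≤ K' := by
    rw [hH', hK']
    exact Subgroup.comap_mono hHK
  have hnH : H'.Normal := by
    rw [hH']
    infer_instance
  -- the relative index over `Q`
  have h1 : (H.relIndex K : ℝ) ≤ b := by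
    have h2 := series_card hHK
    have h3 : (0 : ℝ) < Nat.card H := by exact_mod_cast Nat.card_pos
    have h4 : (Nat.card H : ℝ) * H.relIndex K ≤ Nat.card H * b := by
      have h5 : (Nat.card H : ℝ) * H.relIndex K = Nat.card K := by exact_mod_cast h2
      rw [h5, mul_comm]
      exact hb
    exact le_of_mul_le_mul_left h4 h3
  have h2 : H'.relIndex K' ≤ H.relIndex K := by
    have h3 : H'.relIndex K' = H.relIndex (K'.map Q₁.subtype) := by
      rw [hH']
      exact Subgroup.relIndex_comap H Q₁.subtype K'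
    rw [h3]
    refine Subgroup.relIndex_le_of_le_right ?_ (series_rel hHK)
    rw [hK']
    rintro _ ⟨x, hx, rfl⟩
    exact hx
  have h3 : (H'.map π).relIndex (K'.map π) ≤ H'.relIndex K' := by
    rw [Subgroup.relIndex_map_map]
    have h4 : K' ⊔ π.ker = K' ⊔ (H' ⊔ π.ker) := by
      rw [← sup_assoc, sup_eq_left.2 hle]
    rw [h4, Subgroup.relIndex_sup_right]
    exact Subgroup.relIndex_le_of_le_left le_sup_left (series_rel hle)
  have h4 : (Nat.card (K'.map π) : ℝ) = Nat.card (H'.map π) * (H'.map π).relIndex (K'.map π) := by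
    exact_mod_cast (series_card (Subgroup.map_mono hle)).symm
  rw [h4, mul_comm]
  refine mul_le_mul_of_nonneg_right ?_ (Nat.cast_nonneg _)
  have h5 : ((H'.map π).relIndex (K'.map π) : ℝ) ≤ H.relIndex K := by exact_mod_cast h3.trans h2
  exact h5.trans h1

/-- PROOF. The series `((M (i + 1)).subgroupOf Q₁).map π`; `card_image_le`. -/
theorem ser_step [Finite Q] {M : ℕ → Subgroup Q} (h0 : M 0 = ⊥) (h1 : M (r + 1) = ⊤)
    (h2 : ∀ i, M i ≤ M (i + 1)) (h3 : ∀ i, (M i).Normal) (h4 : ∀ i < r + 1, Fac b (M i) (M (i + 1)))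
    (Q₁ : Subgroup Q) {P : Type} [Group P] (π : Q₁ →* P) (hπ : Function.Surjective π)
    (hk : ∀ x : Q₁, (x : Q) ∈ M 1 → π x = 1) : Ser b r P := by
  refine ⟨fun i => ((M (i + 1)).subgroupOf Q₁).map π, ?_, ?_,
    fun i => Subgroup.map_mono (Subgroup.comap_mono (h2 (i + 1))), fun i => ?_, fun i hi => ?_⟩
  · change ((M (0 + 1)).subgroupOf Q₁).map π = ⊥
    rw [eq_bot_iff]
    rintro _ ⟨x, hx, rfl⟩
    exact Subgroup.mem_bot.2 (hk x hx)
  · change ((M (r + 1)).subgroupOf Q₁).map π = ⊤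
    rw [h1, Subgroup.top_subgroupOf]
    exact Subgroup.map_top_of_surjective _ hπ
  · have := h3 (i + 1)
    have h5 : ((M (i + 1)).subgroupOf Q₁).Normal := inferInstance
    exact h5.map π hπ
  · rcases h4 (i + 1) (by omega) with h5 | h5
    · left
      rintro _ ⟨x, hx, rfl⟩ _ ⟨y, hy, rfl⟩
      refine ⟨x * y * x⁻¹ * y⁻¹, h5 x hx y hy, ?_⟩
      rw [map_mul, map_mul, map_mul, map_inv, map_inv]
    · right
      have := h3 (i + 1)
      exact card_image_le (h2 (i + 1)) h5 Q₁ π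

end

end MP0775d3.Cf
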