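import Pool.Agent.Lib.MP_0775d3_lc.Cf.Defs

/-! Matrix units of the twisted group algebra of a subgroup. -/

set_option linter.unusedSectionVars false
set_option linter.unusedVariables false

namespace MP0775d3.Cf

open Matrix MP0775d3.Sl2 MP0775d3.Solv

/-- A regular twisted family. -/
structure Rg {Q : Type} [Group Q] [Fintype Q] [DecidableEq Q] (F : TFam Q Q) : Prop where
  unit : ∀ g, IsUnit (F.T g)
  one : F.T 1 = F.c.a 1 1 • (1 : Matrix Q Q ℂ)

/-- The span of the `T x`, `x ∈ N`. -/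
noncomputable def spN {Q : Type} [Group Q] [Fintype Q] [DecidableEq Q] (F : TFam Q Q)
    (N : Subgroup Q) : Submodule ℂ (Matrix Q Q ℂ) :=
  Submodule.span ℂ (Set.range fun x : N => F.T (x : Q))

section
variable {Q : Type} [Group Q] [Fintype Q] [DecidableEq Q] {F : TFam Q Q} {N : Subgroup Q}

theorem spN_T {x : Q} (hx : x ∈ N) : F.T x ∈ spN F N :=
  Submodule.subset_span ⟨⟨x, hx⟩, rfl⟩

private lemma spN_T_mul (x : N) {z : Matrix Q Q ℂ} (hz : z ∈ spN F N) :
    F.T (x : Q) * z ∈ spN F N := by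
  unfold spN at hz
  induction hz using Submodule.span_induction with
  | mem z hz =>
    obtain ⟨x', rfl⟩ := hz
    show F.T (x : Q) * F.T (x' : Q) ∈ spN F N
    rw [F.mul]
    exact Submodule.smul_mem _ _ (spN_T (N.mul_mem x.2 x'.2))
  | zero => rw [mul_zero]; exact Submodule.zero_mem _
  | add a b _ _ ha hb => rw [mul_add]; exact Submodule.add_mem _ ha hb
  | smul c a _ ha => rw [Matrix.mul_smul]; exact Submodule.smul_mem _ _ ha

theorem spN_mul {y z : Matrix Q Q ℂ} (hy : y ∈ spN F N) (hz : z ∈ spN F N) : y * z ∈ spN F N := by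
  unfold spN at hy
  induction hy using Submodule.span_induction with
  | mem y hy =>
    obtain ⟨x, rfl⟩ := hy
    exact spN_T_mul x hz
  | zero => rw [zero_mul]; exact Submodule.zero_mem _
  | add a b _ _ ha hb => rw [add_mul]; exact Submodule.add_mem _ ha hb
  | smul c a _ ha => rw [Matrix.smul_mul]; exact Submodule.smul_mem _ _ ha

theorem spN_one (h : Rg F) : (1 : Matrix Q Q ℂ) ∈ spN F N := by
  have h1 : (1 : Matrix Q Q ℂ) = (F.c.a 1 1)⁻¹ • F.T 1 := by
    rw [h.one, smul_smul, inv_mul_cancel₀ (F.c.ne 1 1), one_smul]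
  rw [h1]
  exact Submodule.smul_mem _ _ (spN_T N.one_mem)

/-- `T g y = y' T g`. PROOF. For `y = T x`, `x ∈ N`: `T g * T x` and `T (g x g⁻¹) * T g` are nonzero
multiples of `T (g x)`. -/
theorem spN_conj (h : Rg F) [N.Normal] (g : Q) {y : Matrix Q Q ℂ} (hy : y ∈ spN F N) :
    ∃ y' ∈ spN F N, F.T g * y = y' * F.T g := by
  unfold spN at hy
  induction hy using Submodule.span_induction with
  | mem y hy =>
    obtain ⟨x, rfl⟩ := hy
    refine ⟨(F.c.a g x * (F.c.a (g * x * g⁻¹) g)⁻¹) • F.T (g * x * g⁻¹),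
      Submodule.smul_mem _ _ (spN_T (Subgroup.Normal.conj_mem inferInstance _ x.2 g)), ?_⟩
    show F.T g * F.T (x : Q) = _
    rw [F.mul, Matrix.smul_mul, F.mul, smul_smul, mul_assoc, inv_mul_cancel₀ (F.c.ne _ _), mul_one,
      inv_mul_cancel_right]
  | zero => exact ⟨0, Submodule.zero_mem _, by rw [mul_zero, zero_mul]⟩
  | add a b _ _ ha hb =>
    obtain ⟨a', ha', ea⟩ := ha
    obtain ⟨b', hb', eb⟩ := hb
    exact ⟨a' + b', Submodule.add_mem _ ha' hb', by rw [mul_add, add_mul, ea, eb]⟩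
  | smul c a _ ha =>
    obtain ⟨a', ha', ea⟩ := ha
    exact ⟨c • a', Submodule.smul_mem _ _ ha', by rw [Matrix.mul_smul, Matrix.smul_mul, ea]⟩

/-- The same on the other side. -/
theorem spN_conj' (h : Rg F) [N.Normal] (g : Q) {y : Matrix Q Q ℂ} (hy : y ∈ spN F N) :
    ∃ y' ∈ spN F N, y * F.T g = F.T g * y' := by
  unfold spN at hy
  induction hy using Submodule.span_induction with
  | mem y hy =>
    obtain ⟨x, rfl⟩ := hy
    refine ⟨(F.c.a x g * (F.c.a g (g⁻¹ * x * g))⁻¹) • F.T (g⁻¹ * x * g),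
      Submodule.smul_mem _ _ (spN_T (by
        have h4 := Subgroup.Normal.conj_mem (inferInstance : N.Normal) _ x.2 g⁻¹
        rwa [inv_inv] at h4)), ?_⟩
    show F.T (x : Q) * F.T g = _
    have h5 : g * (g⁻¹ * (x : Q) * g) = x * g := by group
    rw [F.mul, Matrix.mul_smul, F.mul, smul_smul, mul_assoc, inv_mul_cancel₀ (F.c.ne _ _), mul_one, h5]
  | zero => exact ⟨0, Submodule.zero_mem _, by rw [mul_zero, zero_mul]⟩
  | add a b _ _ ha hb =>
    obtain ⟨a', ha', ea⟩ := ha
    obtain ⟨b', hb', eb⟩ := hb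
    exact ⟨a' + b', Submodule.add_mem _ ha' hb', by rw [mul_add, add_mul, ea, eb]⟩
  | smul c a _ ha =>
    obtain ⟨a', ha', ea⟩ := ha
    exact ⟨c • a', Submodule.smul_mem _ _ ha', by rw [Matrix.mul_smul, Matrix.smul_mul, ea]⟩

/-- Elements of the same coset. PROOF. `T (x * g)`, `x ∈ N`, is a nonzero multiple of `T x * T g`. -/
theorem spN_coset (h : Rg F) [N.Normal] {g g' : Q} (hg : (g : Q ⧸ N) = g') :
    ∃ y ∈ spN F N, F.T g = y * F.T g' := by
  have h1 : g⁻¹ * g' ∈ N := QuotientGroup.eq.1 hg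
  have h2 : g * g'⁻¹ ∈ N := by
    have h3 := N.inv_mem (Subgroup.Normal.mem_comm inferInstance h1)
    rwa [_root_.mul_inv_rev, inv_inv] at h3
  refine ⟨(F.c.a (g * g'⁻¹) g')⁻¹ • F.T (g * g'⁻¹), Submodule.smul_mem _ _ (spN_T h2), ?_⟩
  rw [Matrix.smul_mul, F.mul, smul_smul, inv_mul_cancel₀ (F.c.ne _ _), one_smul, inv_mul_cancel_right]

/-- `T g * T g⁻¹` and `T g * T h`. -/
theorem spN_TT (g h : Q) : F.T g * F.T h = F.c.a g h • F.T (g * h) := F.mul g h

end

/-- Matrix units for the span of the `T x`, `x ∈ N`. -/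
structure MUnits {Q : Type} [Group Q] [Fintype Q] [DecidableEq Q] (F : TFam Q Q)
    (N : Subgroup Q) (I : Type) (X : I → Type) [Fintype I] [∀ i, Fintype (X i)] where
  E : ∀ i, X i → X i → Matrix Q Q ℂ
  mem : ∀ i a b, E i a b ∈ spN F N
  mul : ∀ i a b c, E i a b * E i b c = E i a c
  mul0 : ∀ i a b j c d, (⟨i, b⟩ : Σ i, X i) ≠ ⟨j, c⟩ → E i a b * E j c d = 0
  one : ∑ i, ∑ a, E i a a = 1
  ne : ∀ i a b, E i a b ≠ 0
  span : ∀ y ∈ spN F N, ∃ c : ∀ i, X i → X i → ℂ, y = ∑ i, ∑ a, ∑ b, c i a b • E i a b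

section
variable {Q : Type} [Group Q] [Fintype Q] [DecidableEq Q] {F : TFam Q Q} {N : Subgroup Q}
  {I : Type} {X : I → Type} [Fintype I] [∀ i, Fintype (X i)]

private lemma mu_left (M : MUnits F N I X) (c : ∀ i, X i → X i → ℂ) (i : I) (a' a : X i) :
    M.E i a' a * (∑ j, ∑ x, ∑ y, c j x y • M.E j x y) = ∑ y, c i a y • M.E i a' y := by
  rw [Finset.mul_sum, Finset.sum_eq_single i]
  · rw [Finset.mul_sum, Finset.sum_eq_single a]
    · rw [Finset.mul_sum]
      exact Finset.sum_congr rfl fun y _ => by rw [Matrix.mul_smul, M.mul]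
    · intro x _ hx
      rw [Finset.mul_sum]
      refine Finset.sum_eq_zero fun y _ => ?_
      rw [Matrix.mul_smul, M.mul0 i a' a i x y (fun h => hx (by
        rw [Sigma.mk.injEq] at h
        exact (eq_of_heq h.2).symm)), smul_zero]
    · intro h
      exact absurd (Finset.mem_univ _) h
  · intro j _ hj
    rw [Finset.mul_sum]
    refine Finset.sum_eq_zero fun x _ => ?_
    rw [Finset.mul_sum]
    refine Finset.sum_eq_zero fun y _ => ?_
    rw [Matrix.mul_smul, M.mul0 i a' a j x y (fun h => hj (by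
      rw [Sigma.mk.injEq] at h
      exact h.1.symm)), smul_zero]
  · intro h
    exact absurd (Finset.mem_univ _) h

private lemma mu_right (M : MUnits F N I X) (i : I) (d : X i → ℂ) (a b b' : X i) :
    (∑ y, d y • M.E i a y) * M.E i b b' = d b • M.E i a b' := by
  rw [Finset.sum_mul, Finset.sum_eq_single b]
  · rw [Matrix.smul_mul, M.mul]
  · intro y _ hy
    rw [Matrix.smul_mul, M.mul0 i a y i b b' (fun h => hy (by
      rw [Sigma.mk.injEq] at h
      exact eq_of_heq h.2)), smul_zero]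
  · intro h
    exact absurd (Finset.mem_univ _) h

/-- PROOF. Multiply `∑ c i a b • E i a b` from the left by `E i a a` and from the right by
`E i b b`. -/
theorem MUnits.indep (M : MUnits F N I X) {c : ∀ i, X i → X i → ℂ}
    (h : ∑ i, ∑ a, ∑ b, c i a b • M.E i a b = 0) : ∀ i a b, c i a b = 0 := by
  intro i a b
  have h1 := mu_right M i (fun y => c i a y) a b b
  rw [← mu_left M c i a a, h, mul_zero, zero_mul] at h1
  exact (smul_eq_zero.1 h1.symm).resolve_right (M.ne i a b)

/-- PROOF. The `E i a b` and the `T x`, `x ∈ N`, are two bases of `spN F N`. -/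
theorem MUnits.card (M : MUnits F N I X) :
    ∑ i, Fintype.card (X i) * Fintype.card (X i) = Nat.card N := by
  classical
  have : Fintype N := Fintype.ofFinite N
  let b : (Σ i, X i × X i) → Matrix Q Q ℂ := fun p => M.E p.1 p.2.1 p.2.2
  have hb : LinearIndependent ℂ b := by
    rw [Fintype.linearIndependent_iff]
    intro g hg p
    refine M.indep (c := fun i x y => g ⟨i, (x, y)⟩) ?_ p.1 p.2.1 p.2.2
    rw [← hg, Fintype.sum_sigma]
    exact Finset.sum_congr rfl fun i _ =>
      (Fintype.sum_prod_type (fun q : X i × X i => g ⟨i, q⟩ • b ⟨i, q⟩)).symm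
  have hspan : Submodule.span ℂ (Set.range b) = spN F N := by
    refine le_antisymm (Submodule.span_le.2 ?_) fun y hy => ?_
    · rintro _ ⟨p, rfl⟩
      exact M.mem _ _ _
    · obtain ⟨c, rfl⟩ := M.span y hy
      exact Submodule.sum_mem _ fun i _ => Submodule.sum_mem _ fun x _ => Submodule.sum_mem _ fun y _ =>
        Submodule.smul_mem _ _ (Submodule.subset_span ⟨⟨i, (x, y)⟩, rfl⟩)
  have h1 := finrank_span_eq_card hb
  have h2 : Module.finrank ℂ (spN F N) = Fintype.card N :=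
    finrank_span_eq_card (F.indep.comp (fun x : N => (x : Q)) Subtype.val_injective)
  rw [hspan, h2, Fintype.card_sigma] at h1
  rw [Nat.card_eq_fintype_card, h1]
  exact Finset.sum_congr rfl fun i _ => (Fintype.card_prod _ _).symm

/-- PROOF. `span` and the rules of multiplication. -/
theorem MUnits.corner (M : MUnits F N I X) (i : I) (a : X i) {y : Matrix Q Q ℂ}
    (hy : y ∈ spN F N) : ∃ s : ℂ, M.E i a a * y * M.E i a a = s • M.E i a a := by
  obtain ⟨c, rfl⟩ := M.span y hy
  exact ⟨c i a a, by rw [mu_left M c i a a, mu_right M i (fun y => c i a y) a a a]⟩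

/-- PROOF. `v = ∑ c j x b • E j x b`; `E i a a * v = v` gives `v = ∑_b c i a b • E i a b`; some
`c i a b` is not zero: `w = (c i a b)⁻¹ • E i b a`. -/
theorem MUnits.simple (M : MUnits F N I X) (i : I) (a : X i) {v : Matrix Q Q ℂ}
    (hv : v ∈ spN F N) (hv0 : v ≠ 0) (h : M.E i a a * v = v) :
    ∃ w ∈ spN F N, v * w = M.E i a a := by
  obtain ⟨c, hc⟩ := M.span v hv
  have h1 : v = ∑ y, c i a y • M.E i a y := by
    rw [← h, hc, mu_left M c i a a]
  have h2 : ∃ b, c i a b ≠ 0 := by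
    by_contra h3
    push Not at h3
    exact hv0 (by rw [h1]; exact Finset.sum_eq_zero fun y _ => by rw [h3 y, zero_smul])
  obtain ⟨b, hb⟩ := h2
  refine ⟨(c i a b)⁻¹ • M.E i b a, Submodule.smul_mem _ _ (M.mem _ _ _), ?_⟩
  rw [h1, Matrix.mul_smul, mu_right M i (fun y => c i a y) a b a, smul_smul, inv_mul_cancel₀ hb, one_smul]

end

end MP0775d3.Cf
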