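import Pool.Agent.Lib.MP_0775d3_lc.Cf.SmallA

/-! The family of a primitive idempotent. -/

set_option linter.unusedSectionVars false
set_option linter.unusedVariables false

namespace MP0775d3.Cf

open Matrix MP0775d3.Sl2 MP0775d3.Solv

section
variable {Q : Type} [Group Q] [Fintype Q] [DecidableEq Q] {F : TFam Q Q} {N : Subgroup Q}
  {I : Type} {X : I → Type} [Fintype I] [∀ i, Fintype (X i)]

private theorem smb_TT (h : Rg F) (g : Q) :
    F.T g * F.T g⁻¹ = (F.c.a g g⁻¹ * F.c.a 1 1) • (1 : Matrix Q Q ℂ) := by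
  rw [F.mul, mul_inv_cancel, h.one, smul_smul]

private theorem smb_TT' (h : Rg F) (g : Q) :
    F.T g⁻¹ * F.T g = (F.c.a g⁻¹ g * F.c.a 1 1) • (1 : Matrix Q Q ℂ) := by
  rw [F.mul, inv_mul_cancel, h.one, smul_smul]

/-- products of two elements of the corner -/
private theorem smb_prod (h : Rg F) [N.Normal] {e : Matrix Q Q ℂ} (he : e ∈ spN F N) (g g' : Q)
    {y y' : Matrix Q Q ℂ} (hy : y ∈ spN F N) (hy' : y' ∈ spN F N) :
    ∃ z ∈ spN F N, (e * y * F.T g * e) * (e * y' * F.T g' * e) = e * z * F.T (g * g') * e := by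
  obtain ⟨w, hw, h1⟩ := spN_conj h g (spN_mul (spN_mul he he) hy')
  refine ⟨F.c.a g g' • (y * w), Submodule.smul_mem _ _ (spN_mul hy hw), ?_⟩
  calc (e * y * F.T g * e) * (e * y' * F.T g' * e) =
        e * y * (F.T g * (e * e * y')) * F.T g' * e := by simp only [Matrix.mul_assoc]
    _ = e * (y * w) * (F.T g * F.T g') * e := by
        rw [h1]
        simp only [Matrix.mul_assoc]
    _ = _ := by
        rw [F.mul]
        simp only [Matrix.mul_smul, Matrix.smul_mul]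

private theorem smb_corner (h : Rg F) [N.Normal] (M : MUnits F N I X) (i : I) (a : X i) (g : Q)
    {y y' : Matrix Q Q ℂ} (hy : y ∈ spN F N) (hy' : y' ∈ spN F N) :
    ∃ s : ℂ, (M.E i a a * y * F.T g⁻¹ * M.E i a a) * (M.E i a a * y' * F.T g * M.E i a a) =
      s • M.E i a a := by
  obtain ⟨z, hz, h1⟩ := smb_prod h (M.mem i a a) g⁻¹ g hy hy'
  obtain ⟨s, hs⟩ := M.corner i a hz
  refine ⟨F.c.a 1 1 * s, ?_⟩
  rw [h1, inv_mul_cancel, h.one, Matrix.mul_smul, Matrix.mul_one, Matrix.smul_mul, hs, smul_smul]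

/-- For `e = E i a a` and every `g`, either `e * y * T g * e = 0` for all `y ∈ spN F N`, or these
elements are the multiples of an element `u` with an inverse `u'` (relative to `e`).
PROOF. Let `u = e * y * T g * e ≠ 0`, `v = u * (T g)⁻¹ = e * y * (T g * e * (T g)⁻¹)`: it is in
`spN F N` (`spN_conj`), `v ≠ 0`, `e * v = v`, so `v * w = e` with `w ∈ spN F N` (`MUnits.simple`).
`u' = e * (T g)⁻¹ * w * e`; as `u * e = u`: `u * u' = u * (T g)⁻¹ * w * e = e`. `(T g)⁻¹` is a nonzero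
multiple of `T g⁻¹`, so `u' = e * (y' * T g⁻¹) * e` with `y' ∈ spN F N` (`spN_conj`). `u' * u` is in
`e * spN F N * e` (move `T g⁻¹`, `T g` together), so `u' * u = s • e` (`MUnits.corner`);
`(u' * u) * (u' * u) = u' * u` since `u * u' = e`, and `u * (u' * u) = u ≠ 0`: `s = 1`. If
`u₂ = e * y₂ * T g * e` then `u' * u₂ = s₂ • e` in the same way, so `u₂ = e * u₂ = u * u' * u₂ = s₂ • u`
(`e * u₂ = u₂`). -/
theorem cl_line (h : Rg F) [N.Normal] (M : MUnits F N I X) (i : I) (a : X i) (g : Q) :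
    (∀ y ∈ spN F N, M.E i a a * y * F.T g * M.E i a a = 0) ∨
    ∃ u u' : Matrix Q Q ℂ, (∃ y ∈ spN F N, u = M.E i a a * y * F.T g * M.E i a a) ∧
      (∃ y ∈ spN F N, u' = M.E i a a * y * F.T g⁻¹ * M.E i a a) ∧ u * u' = M.E i a a ∧
      u' * u = M.E i a a ∧ ∀ y ∈ spN F N, ∃ s : ℂ, M.E i a a * y * F.T g * M.E i a a = s • u := by
  by_cases hall : ∀ y ∈ spN F N, M.E i a a * y * F.T g * M.E i a a = 0
  · exact Or.inl hall
  right
  push Not at hall
  obtain ⟨y, hy, hu0⟩ := hall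
  have hee : M.E i a a * M.E i a a = M.E i a a := M.mul i a a a
  obtain ⟨e', he', h1⟩ := spN_conj h g (M.mem i a a)
  obtain ⟨u, hu⟩ : ∃ u, u = M.E i a a * y * F.T g * M.E i a a := ⟨_, rfl⟩
  obtain ⟨v, hv⟩ : ∃ v, v = M.E i a a * y * e' := ⟨_, rfl⟩
  rw [← hu] at hu0
  have huv : u = v * F.T g := by
    rw [hu, hv, Matrix.mul_assoc, h1]
    simp only [Matrix.mul_assoc]
  have hvm : v ∈ spN F N := by
    rw [hv]
    exact spN_mul (spN_mul (M.mem i a a) hy) he'
  have hv0 : v ≠ 0 := fun h0 => hu0 (by rw [huv, h0, Matrix.zero_mul])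
  have hev : M.E i a a * v = v := by
    rw [hv, ← Matrix.mul_assoc, ← Matrix.mul_assoc, hee]
  obtain ⟨w, hw, hvw⟩ := M.simple i a hvm hv0 hev
  have heu : M.E i a a * u = u := by rw [huv, ← Matrix.mul_assoc, hev]
  have hue : u * M.E i a a = u := by
    rw [hu, Matrix.mul_assoc _ (M.E i a a) (M.E i a a), hee]
  obtain ⟨w', hw', h2⟩ := spN_conj h g⁻¹ hw
  obtain ⟨κ, hκ⟩ : ∃ κ, κ = F.c.a g g⁻¹ * F.c.a 1 1 := ⟨_, rfl⟩
  have hκ0 : κ ≠ 0 := by
    rw [hκ]
    exact mul_ne_zero (F.c.ne _ _) (F.c.ne _ _)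
  obtain ⟨u', hu'⟩ : ∃ u', u' = M.E i a a * (κ⁻¹ • w') * F.T g⁻¹ * M.E i a a := ⟨_, rfl⟩
  have h3 : u' = κ⁻¹ • (M.E i a a * (F.T g⁻¹ * w) * M.E i a a) := by
    rw [hu', h2]
    simp only [Matrix.mul_smul, Matrix.smul_mul, Matrix.mul_assoc]
  have huu : u * u' = M.E i a a := by
    rw [h3, Matrix.mul_smul]
    have h4 : u * (M.E i a a * (F.T g⁻¹ * w) * M.E i a a) =
        v * (F.T g * F.T g⁻¹) * w * M.E i a a := by
      calc u * (M.E i a a * (F.T g⁻¹ * w) * M.E i a a) =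
            (u * M.E i a a) * (F.T g⁻¹ * w) * M.E i a a := by simp only [Matrix.mul_assoc]
        _ = _ := by
          rw [hue, huv]
          simp only [Matrix.mul_assoc]
    rw [h4, smb_TT h, ← hκ, Matrix.mul_smul, Matrix.mul_one, Matrix.smul_mul, Matrix.smul_mul,
      smul_smul, inv_mul_cancel₀ hκ0, one_smul, hvw, hee]
  have hw'm : κ⁻¹ • w' ∈ spN F N := Submodule.smul_mem _ _ hw'
  have huu' : u' * u = M.E i a a := by
    obtain ⟨s, hs⟩ := smb_corner h M i a g hw'm hy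
    rw [← hu', ← hu] at hs
    have h5 : s • u = u := by
      calc s • u = u * (s • M.E i a a) := by rw [Matrix.mul_smul, hue]
        _ = (u * u') * u := by rw [← hs, Matrix.mul_assoc]
        _ = u := by rw [huu, heu]
    have h6 : s = 1 := smul_left_injective ℂ hu0 (by simpa using h5)
    rw [hs, h6, one_smul]
  refine ⟨u, u', ⟨y, hy, hu⟩, ⟨κ⁻¹ • w', hw'm, hu'⟩, huu, huu', fun y₂ hy₂ => ?_⟩
  obtain ⟨s, hs⟩ := smb_corner h M i a g hw'm hy₂
  rw [← hu'] at hs
  refine ⟨s, ?_⟩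
  calc M.E i a a * y₂ * F.T g * M.E i a a = M.E i a a * (M.E i a a * y₂ * F.T g * M.E i a a) := by
        simp only [← Matrix.mul_assoc, hee]
    _ = u * (u' * (M.E i a a * y₂ * F.T g * M.E i a a)) := by
        rw [← huu]
        simp only [Matrix.mul_assoc]
    _ = s • u := by rw [hs, Matrix.mul_smul, hue]

/-- an element of `spN` -/
private theorem smb_span [Fintype N] {z : Matrix Q Q ℂ} (hz : z ∈ spN F N) :
    ∃ c : N → ℂ, z = ∑ n : N, c n • F.T (n : Q) := by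
  obtain ⟨c, hc⟩ := (Submodule.mem_span_range_iff_exists_fun ℂ).1 hz
  exact ⟨c, hc.symm⟩

/-- The subgroup of the `g` of the second kind, and its family. PROOF. Call `g` good if some
`e * y * T g * e ≠ 0` (`e = E i a a`). The product of `u` for `g` and `u` for `h` is
`e * y * T g * e * y' * T h * e = e * y'' * T (g h) * e` (`spN_conj`), and it is not zero (multiply by
`u'` from the left and by `u'` from the right); the inverse of a good element is good (`u'`).
Elements of `N` are good: `y = (T x)⁻¹`. For `x : Q₁ ⧸ N` let `F'.T x` be `u` for `x.out`;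
`e * y * T g * e` for `g` in the class `x` is `e * y' * T x.out * e` (`spN_coset`). `exists_tfam`:
products are nonzero multiples; independence: `F'.T x` is in the span of the `T h`, `h` in the coset
`x`, these are disjoint, and `F'.T x ≠ 0`. -/
theorem cl_fam (h : Rg F) [N.Normal] (M : MUnits F N I X) (i : I) (a : X i) :
    ∃ (Q₁ : Subgroup Q) (_ : N ≤ Q₁) (F' : TFam (Q₁ ⧸ N.subgroupOf Q₁) Q),
      (∀ x : Q₁, ∃ y ∈ spN F N,
        F'.T (x : Q₁ ⧸ N.subgroupOf Q₁) = M.E i a a * y * F.T (x : Q) * M.E i a a) ∧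
      (∀ x, ∃ u' : Matrix Q Q ℂ, u' * F'.T x = M.E i a a ∧ F'.T x * u' = M.E i a a) ∧
      (∀ x, M.E i a a * F'.T x = F'.T x ∧ F'.T x * M.E i a a = F'.T x) ∧
      (∀ (g : Q₁), ∀ y ∈ spN F N, ∃ s : ℂ,
        M.E i a a * y * F.T (g : Q) * M.E i a a = s • F'.T (g : Q₁ ⧸ N.subgroupOf Q₁)) ∧
      (∀ g : Q, g ∉ Q₁ → ∀ y ∈ spN F N, M.E i a a * y * F.T g * M.E i a a = 0) := by
  classical
  obtain ⟨e, he⟩ : ∃ e, e = M.E i a a := ⟨_, rfl⟩
  have hee : e * e = e := by rw [he]; exact M.mul i a a a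
  have hem : e ∈ spN F N := by rw [he]; exact M.mem i a a
  have he0 : e ≠ 0 := by rw [he]; exact M.ne i a a
  have hline := cl_line h M i a
  rw [← he]
  simp only [← he] at hline
  -- the good elements
  have hgood : ∀ g, (∃ y ∈ spN F N, e * y * F.T g * e ≠ 0) →
      ∃ u u' : Matrix Q Q ℂ, (∃ y ∈ spN F N, u = e * y * F.T g * e) ∧
      (∃ y ∈ spN F N, u' = e * y * F.T g⁻¹ * e) ∧ u * u' = e ∧
      u' * u = e ∧ ∀ y ∈ spN F N, ∃ s : ℂ, e * y * F.T g * e = s • u := by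
    rintro g ⟨y, hy, h1⟩
    exact (hline g).resolve_left fun h2 => h1 (h2 y hy)
  have hleft : ∀ z : Matrix Q Q ℂ, e * (e * z) = e * z := fun z => by rw [← Matrix.mul_assoc, hee]
  have hright : ∀ z : Matrix Q Q ℂ, z * e * e = z * e := fun z => by rw [Matrix.mul_assoc, hee]
  have hne : ∀ u v u' v' : Matrix Q Q ℂ, u' * u = e → v * v' = e → e * v = v → u * v ≠ 0 := by
    intro u v u' v' h1 h2 h3 h4
    apply he0
    calc e = u' * u * (v * v') := by rw [h1, h2, hee]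
      _ = u' * (u * v) * v' := by simp only [Matrix.mul_assoc]
      _ = 0 := by rw [h4, Matrix.mul_zero, Matrix.zero_mul]
  have heu : ∀ (g : Q) (u : Matrix Q Q ℂ), (∃ y ∈ spN F N, u = e * y * F.T g * e) →
      e * u = u ∧ u * e = u := by
    rintro g u ⟨y, hy, rfl⟩
    refine ⟨?_, hright _⟩
    rw [Matrix.mul_assoc (e * y), Matrix.mul_assoc e y, hleft]
  let Q₁ : Subgroup Q :=
    { carrier := {g | ∃ y ∈ spN F N, e * y * F.T g * e ≠ 0}
      mul_mem' := by
        intro g g' hg hg'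
        obtain ⟨u, u', ⟨y, hy, hu⟩, _, h1, h2, _⟩ := hgood g hg
        obtain ⟨v, v', ⟨y', hy', hv⟩, _, h3, h4, _⟩ := hgood g' hg'
        obtain ⟨z, hz, h5⟩ := smb_prod h hem g g' hy hy'
        refine ⟨z, hz, ?_⟩
        rw [← h5, ← hu, ← hv]
        exact hne u v u' v' h2 h3 (heu g' v ⟨y', hy', hv⟩).1
      one_mem' := by
        refine ⟨1, spN_one h, ?_⟩
        rw [h.one, Matrix.mul_one, Matrix.mul_smul, Matrix.mul_one, Matrix.smul_mul, hee]
        exact smul_ne_zero (F.c.ne _ _) he0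
      inv_mem' := by
        intro g hg
        obtain ⟨u, u', _, ⟨y, hy, hu'⟩, h1, h2, _⟩ := hgood g hg
        refine ⟨y, hy, ?_⟩
        rw [← hu']
        intro h0
        rw [h0, Matrix.mul_zero] at h1
        exact he0 h1.symm }
  have hQ₁ : ∀ g, g ∈ Q₁ ↔ ∃ y ∈ spN F N, e * y * F.T g * e ≠ 0 := fun _ => Iff.rfl
  have hN : N ≤ Q₁ := by
    intro x hx
    rw [hQ₁]
    refine ⟨F.T x⁻¹, spN_T (N.inv_mem hx), ?_⟩
    rw [Matrix.mul_assoc e, smb_TT' h, Matrix.mul_smul, Matrix.mul_one, Matrix.smul_mul, hee]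
    exact smul_ne_zero (mul_ne_zero (F.c.ne _ _) (F.c.ne _ _)) he0
  choose U U' hU hU' hUU hUU' hUs using fun g : Q₁ => hgood g ((hQ₁ g).1 g.2)
  let T' : (Q₁ ⧸ N.subgroupOf Q₁) → Matrix Q Q ℂ := fun x => U (Quotient.out x : Q₁)
  have hout : ∀ x : Q₁ ⧸ N.subgroupOf Q₁, ((Quotient.out x : Q₁) : Q₁ ⧸ N.subgroupOf Q₁) = x :=
    fun x => Quotient.out_eq' x
  -- cosets
  have hcos : ∀ g g' : Q₁, (g : Q₁ ⧸ N.subgroupOf Q₁) = g' → ((g : Q) : Q ⧸ N) = ((g' : Q) : Q ⧸ N) := by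
    intro g g' h1
    rw [QuotientGroup.eq] at h1 ⊢
    exact Subgroup.mem_subgroupOf.1 h1
  have hlin : ∀ (g : Q₁), ∀ y ∈ spN F N, ∃ s : ℂ,
      e * y * F.T (g : Q) * e = s • T' (g : Q₁ ⧸ N.subgroupOf Q₁) := by
    intro g y hy
    obtain ⟨z, hz, h1⟩ := spN_coset h (hcos g (Quotient.out (g : Q₁ ⧸ N.subgroupOf Q₁)) (hout _).symm)
    obtain ⟨s, hs⟩ := hUs (Quotient.out (g : Q₁ ⧸ N.subgroupOf Q₁)) (y * z) (spN_mul hy hz)
    refine ⟨s, ?_⟩
    rw [h1]
    refine Eq.trans ?_ hs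
    simp only [Matrix.mul_assoc]
  have hform : ∀ x : Q₁, ∃ y ∈ spN F N,
      T' (x : Q₁ ⧸ N.subgroupOf Q₁) = e * y * F.T (x : Q) * e := by
    intro x
    obtain ⟨y, hy, h1⟩ := hU (Quotient.out (x : Q₁ ⧸ N.subgroupOf Q₁))
    obtain ⟨z, hz, h2⟩ := spN_coset h (hcos (Quotient.out (x : Q₁ ⧸ N.subgroupOf Q₁)) x (hout _))
    refine ⟨y * z, spN_mul hy hz, ?_⟩
    refine h1.trans ?_
    rw [h2]
    simp only [Matrix.mul_assoc]
  have hmul : ∀ x y, ∃ c : ℂ, c ≠ 0 ∧ T' x * T' y = c • T' (x * y) := by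
    intro x y
    obtain ⟨y₁, hy₁, h1⟩ := hU (Quotient.out x)
    obtain ⟨y₂, hy₂, h2⟩ := hU (Quotient.out y)
    obtain ⟨z, hz, h3⟩ := smb_prod h hem _ _ hy₁ hy₂
    obtain ⟨s, hs⟩ := hlin (Quotient.out x * Quotient.out y) z hz
    rw [QuotientGroup.mk_mul, hout, hout] at hs
    rw [← h1, ← h2] at h3
    have h4 : T' x * T' y = s • T' (x * y) := h3.trans hs
    refine ⟨s, fun hs0 => ?_, h4⟩
    rw [hs0, zero_smul] at h4
    exact hne _ _ _ _ (hUU' (Quotient.out x)) (hUU (Quotient.out y))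
      (heu _ _ (hU (Quotient.out y))).1 h4
  -- independence
  have hind : LinearIndependent ℂ T' := by
    let f : (Q₁ ⧸ N.subgroupOf Q₁) × N → Q := fun p => (p.2 : Q) * ((Quotient.out p.1 : Q₁) : Q)
    have hf : Function.Injective f := by
      rintro ⟨x, r⟩ ⟨x', r'⟩ h1
      have h1' : (r : Q) * ((Quotient.out x : Q₁) : Q) = (r' : Q) * ((Quotient.out x' : Q₁) : Q) := h1
      have h2 : ((Quotient.out x : Q₁) : Q) * ((Quotient.out x' : Q₁) : Q)⁻¹ = (r : Q)⁻¹ * r' := by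
        rw [mul_inv_eq_iff_eq_mul, mul_assoc, ← h1', inv_mul_cancel_left]
      have h3 : (Quotient.out x : Q₁) * (Quotient.out x' : Q₁)⁻¹ ∈ N.subgroupOf Q₁ := by
        rw [Subgroup.mem_subgroupOf]
        have h4 : ((Quotient.out x : Q₁) : Q) * ((Quotient.out x' : Q₁) : Q)⁻¹ ∈ N := by
          rw [h2]
          exact N.mul_mem (N.inv_mem r.2) r'.2
        simpa using h4
      have h5 : x = x' := by
        rw [← QuotientGroup.eq_one_iff, QuotientGroup.mk_mul, QuotientGroup.mk_inv, hout, hout] at h3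
        exact mul_inv_eq_one.1 h3
      subst h5
      have h6 : (r : Q) = r' := mul_right_cancel h1'
      rw [Subtype.ext h6]
    have key : ∀ x : Q₁ ⧸ N.subgroupOf Q₁, ∃ d : N → ℂ, T' x = ∑ r : N, d r • F.T (f (x, r)) := by
      intro x
      obtain ⟨y, hy, h1⟩ := hU (Quotient.out x)
      obtain ⟨e', he', h2⟩ := spN_conj h ((Quotient.out x : Q₁) : Q) hem
      obtain ⟨c, hc⟩ := smb_span (spN_mul (spN_mul hem hy) he')
      refine ⟨fun r => c r * F.c.a (r : Q) ((Quotient.out x : Q₁) : Q), ?_⟩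
      have h3 : T' x = e * y * e' * F.T ((Quotient.out x : Q₁) : Q) := by
        refine h1.trans ?_
        rw [Matrix.mul_assoc, h2]
        simp only [Matrix.mul_assoc]
      rw [h3, hc, Finset.sum_mul]
      refine Finset.sum_congr rfl fun r _ => ?_
      rw [Matrix.smul_mul, F.mul, smul_smul]
    choose d hd using key
    have hli := F.indep.comp f hf
    rw [Fintype.linearIndependent_iff] at hli ⊢
    intro c hc x
    have h1 := hli (fun p => c p.1 * d p.1 p.2) (by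
      rw [Fintype.sum_prod_type, ← hc]
      refine Finset.sum_congr rfl fun x _ => ?_
      rw [hd, Finset.smul_sum]
      refine Finset.sum_congr rfl fun r _ => ?_
      rw [smul_smul]
      rfl)
    by_contra hcx
    have h2 : T' x = 0 := by
      rw [hd]
      refine Finset.sum_eq_zero fun r _ => ?_
      have h3 := (mul_eq_zero.1 (h1 (x, r))).resolve_left hcx
      rw [show d x r = 0 from h3, zero_smul]
    have h3 := hUU (Quotient.out x)
    rw [show U (Quotient.out x) = 0 from h2, Matrix.zero_mul] at h3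
    exact he0 h3.symm
  obtain ⟨F', hF'⟩ := exists_tfam T' hind hmul
  refine ⟨Q₁, hN, F', ?_, ?_, ?_, ?_, ?_⟩
  · rw [hF']
    exact hform
  · rw [hF']
    exact fun x => ⟨U' (Quotient.out x), hUU' _, hUU _⟩
  · rw [hF']
    exact fun x => heu _ _ (hU (Quotient.out x))
  · rw [hF']
    exact hlin
  · intro g hg y hy
    by_contra h0
    exact hg ((hQ₁ g).2 ⟨y, hy, h0⟩)

end

end MP0775d3.Cf
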