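import Pool.Agent.Lib.MP_0775d3_lc.Cf.SmallB
import Pool.Agent.Lib.MP_0775d3_lc.Cf.Cosets
import Pool.Agent.Lib.MP_0775d3_lc.Cf.CalcA

/-! The change of basis in the small step. -/

set_option linter.unusedSectionVars false
set_option linter.unusedVariables false

namespace MP0775d3.Cf

open Matrix MP0775d3.Sl2 MP0775d3.Solv

private theorem sc_span {V ι : Type} [AddCommGroup V] [Module ℂ V] [Fintype ι] (v : ι → V)
    (s : Set ι) {x : V} (hx : x ∈ Submodule.span ℂ (v '' s)) :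
    ∃ l : ι → ℂ, x = ∑ i, l i • v i ∧ ∀ i, l i ≠ 0 → i ∈ s := by
  obtain ⟨l, hl, rfl⟩ := (Finsupp.mem_span_image_iff_linearCombination ℂ).1 hx
  refine ⟨l, ?_, fun i hi => ?_⟩
  · rw [Finsupp.linearCombination_apply, Finsupp.sum_fintype]
    intro i
    exact zero_smul ℂ _
  · exact (Finsupp.mem_supported ℂ l).1 hl (Finsupp.mem_support_iff.2 hi)

private theorem sc_rank {V ι : Type} [AddCommGroup V] [Module ℂ V] [Fintype ι] (v : ι → V)
    (p : ι → Prop) (h : LinearIndependent ℂ (fun i : {i // p i} => v i)) :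
    Module.finrank ℂ (Submodule.span ℂ (v '' {i | p i})) = Nat.card {i // p i} := by
  classical
  have h1 := finrank_span_eq_card h
  rw [Nat.card_eq_fintype_card, ← h1]
  have h2 : v '' {i | p i} = Set.range (fun i : {i // p i} => v i) := Set.image_eq_range v _
  rw [h2]

/-- Two families with the same labels. PROOF. For each label `k` the vectors `b g` with `π g = k` are
a basis of their span, of dimension the number of these `g`, and the vectors `d j` with `ρ j = k` are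
linearly independent, in this span, and of the same number: also a basis. The coefficients of each
family in terms of the other one, extended by zero. -/
theorem exists_change {V Q J K : Type} [AddCommGroup V] [Module ℂ V] [Fintype Q] [Fintype J]
    [DecidableEq K] (b : Q → V) (hb : LinearIndependent ℂ b) (d : J → V) (π : Q → K) (ρ : J → K)
    (h1 : ∀ j, d j ∈ Submodule.span ℂ (b '' {g | π g = ρ j}))
    (h2 : ∀ k, LinearIndependent ℂ (fun j : {j // ρ j = k} => d j))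
    (h3 : ∀ k, Nat.card {j // ρ j = k} = Nat.card {g // π g = k}) :
    ∃ (U : Matrix Q J ℂ) (U' : Matrix J Q ℂ), (∀ j, d j = ∑ g, U g j • b g) ∧
      (∀ g, b g = ∑ j, U' j g • d j) ∧ (∀ g j, U g j ≠ 0 → π g = ρ j) ∧
      ∀ j g, U' j g ≠ 0 → ρ j = π g := by
  classical
  have e1 : ∀ k, Submodule.span ℂ (d '' {j | ρ j = k}) =
      Submodule.span ℂ (b '' {g | π g = k}) := by
    intro k
    have hfin : FiniteDimensional ℂ (Submodule.span ℂ (b '' {g | π g = k})) :=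
      FiniteDimensional.span_of_finite ℂ (Set.toFinite _)
    refine Submodule.eq_of_le_of_finrank_eq (Submodule.span_le.2 ?_) ?_
    · rintro _ ⟨j, hj, rfl⟩
      have h4 := h1 j
      rw [show ρ j = k from hj] at h4
      exact h4
    · rw [sc_rank d (fun j => ρ j = k) (h2 k),
        sc_rank b (fun g => π g = k) (hb.comp _ Subtype.val_injective), h3]
  have e2 : ∀ j, ∃ l : Q → ℂ, d j = ∑ g, l g • b g ∧ ∀ g, l g ≠ 0 → π g = ρ j :=
    fun j => sc_span b _ (h1 j)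
  have e3 : ∀ g, ∃ l : J → ℂ, b g = ∑ j, l j • d j ∧ ∀ j, l j ≠ 0 → ρ j = π g := by
    intro g
    refine sc_span d {j | ρ j = π g} ?_
    rw [e1]
    exact Submodule.subset_span ⟨g, rfl, rfl⟩
  choose l hl1 hl2 using e2
  choose l' hl1' hl2' using e3
  exact ⟨Matrix.of fun g j => l j g, Matrix.of fun j g => l' g j, hl1, hl1',
    fun g j h => hl2 j g h, fun j g h => hl2' g j h⟩

section
variable {Q : Type} [Group Q] [Fintype Q] [DecidableEq Q] {F : TFam Q Q} {N : Subgroup Q}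
  {I : Type} {X : I → Type} [Fintype I] [∀ i, Fintype (X i)]

/-- The family of the `F' (yc k) * E i a b * T (rc k).out`, where `Q₁ p`, `F' p` are given for
`p = ⟨i, a⟩` as in `cl_fam`. -/
noncomputable def dfam [N.Normal] (M : MUnits F N I X) (Q₁ : (Σ i, X i) → Subgroup Q)
    (F' : ∀ p, TFam (Q₁ p ⧸ N.subgroupOf (Q₁ p)) Q) :
    ((Σ i, X i × X i) × (Q ⧸ N)) → Matrix Q Q ℂ := fun j =>
  (F' ⟨j.1.1, j.1.2.1⟩).T (cs_yc N (Q₁ ⟨j.1.1, j.1.2.1⟩) j.2) * M.E j.1.1 j.1.2.1 j.1.2.2 *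
    F.T (cs_rc N (Q₁ ⟨j.1.1, j.1.2.1⟩) j.2).out

private theorem sc_coset_span (h : Rg F) [N.Normal] {y : Matrix Q Q ℂ} (hy : y ∈ spN F N)
    (k : Q ⧸ N) : y * F.T k.out ∈ Submodule.span ℂ (F.T '' {g | (g : Q ⧸ N) = k}) := by
  induction hy using Submodule.span_induction with
  | mem y hy =>
    obtain ⟨x, rfl⟩ := hy
    simp only
    rw [spN_TT]
    refine Submodule.smul_mem _ _ (Submodule.subset_span ⟨(x : Q) * k.out, ?_, rfl⟩)
    change (((x : Q) * k.out : Q) : Q ⧸ N) = k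
    rw [cs_mem_coset, mul_inv_cancel_right]
    exact x.2
  | zero =>
    rw [Matrix.zero_mul]
    exact Submodule.zero_mem _
  | add a b _ _ ha hb =>
    rw [Matrix.add_mul]
    exact Submodule.add_mem _ ha hb
  | smul c a _ ha =>
    rw [Matrix.smul_mul]
    exact Submodule.smul_mem _ _ ha

private theorem sc_mem (h : Rg F) [N.Normal] (M : MUnits F N I X) (Q₁ : (Σ i, X i) → Subgroup Q)
    (F' : ∀ p, TFam (Q₁ p ⧸ N.subgroupOf (Q₁ p)) Q)
    (hF1 : ∀ (p : Σ i, X i) (x : Q₁ p), ∃ y ∈ spN F N,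
      (F' p).T (x : Q₁ p ⧸ N.subgroupOf (Q₁ p)) =
        M.E p.1 p.2 p.2 * y * F.T (x : Q) * M.E p.1 p.2 p.2)
    (j : (Σ i, X i × X i) × (Q ⧸ N)) :
    dfam M Q₁ F' j ∈ Submodule.span ℂ (F.T '' {g | (g : Q ⧸ N) = j.2}) := by
  obtain ⟨⟨i, a, b⟩, k⟩ := j
  obtain ⟨y, hy, hy1⟩ := hF1 ⟨i, a⟩
    ⟨k.out * (cs_rc N (Q₁ ⟨i, a⟩) k).out⁻¹, cs_rc_mem N (Q₁ ⟨i, a⟩) k⟩
  obtain ⟨y', hy', hy1'⟩ := spN_conj h (k.out * (cs_rc N (Q₁ ⟨i, a⟩) k).out⁻¹) (M.mem i a b)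
  have h1 : dfam M Q₁ F' (⟨i, a, b⟩, k) =
      (F.c.a (k.out * (cs_rc N (Q₁ ⟨i, a⟩) k).out⁻¹) (cs_rc N (Q₁ ⟨i, a⟩) k).out) •
        (M.E i a a * y * y' * F.T k.out) := by
    have h2 := spN_TT (F := F) (k.out * (cs_rc N (Q₁ ⟨i, a⟩) k).out⁻¹)
      (cs_rc N (Q₁ ⟨i, a⟩) k).out
    rw [inv_mul_cancel_right] at h2
    change (F' ⟨i, a⟩).T ((⟨k.out * (cs_rc N (Q₁ ⟨i, a⟩) k).out⁻¹,
      cs_rc_mem N (Q₁ ⟨i, a⟩) k⟩ : Q₁ ⟨i, a⟩) : Q₁ ⟨i, a⟩ ⧸ N.subgroupOf (Q₁ ⟨i, a⟩)) *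
        M.E i a b * F.T (cs_rc N (Q₁ ⟨i, a⟩) k).out = _
    rw [hy1]
    simp only
    rw [Matrix.mul_assoc (M.E i a a * y * F.T _) (M.E i a a) (M.E i a b), M.mul,
      Matrix.mul_assoc (M.E i a a * y) (F.T _) (M.E i a b), hy1', ← Matrix.mul_assoc,
      Matrix.mul_assoc (M.E i a a * y * y'), h2, Matrix.mul_smul]
  rw [h1]
  exact Submodule.smul_mem _ _
    (sc_coset_span h (spN_mul (spN_mul (M.mem i a a) hy) hy') k)

private theorem sc_indep (h : Rg F) [N.Normal] (M : MUnits F N I X)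
    (Q₁ : (Σ i, X i) → Subgroup Q) (F' : ∀ p, TFam (Q₁ p ⧸ N.subgroupOf (Q₁ p)) Q)
    (hF2 : ∀ (p : Σ i, X i) x, ∃ u' : Matrix Q Q ℂ, u' * (F' p).T x = M.E p.1 p.2 p.2 ∧
      (F' p).T x * u' = M.E p.1 p.2 p.2)
    (hF3 : ∀ (p : Σ i, X i) x, M.E p.1 p.2 p.2 * (F' p).T x = (F' p).T x ∧
      (F' p).T x * M.E p.1 p.2 p.2 = (F' p).T x) (k : Q ⧸ N) :
    LinearIndependent ℂ (fun q : Σ i, X i × X i => dfam M Q₁ F' (q, k)) := by
  classical
  rw [Fintype.linearIndependent_iff]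
  rintro c hc ⟨i₀, a₀, b₀⟩
  have h1 : ∀ q : Σ i, X i × X i, M.E i₀ a₀ a₀ * (c q • dfam M Q₁ F' (q, k)) =
      if (⟨q.1, q.2.1⟩ : Σ i, X i) = ⟨i₀, a₀⟩ then c q • dfam M Q₁ F' (q, k) else 0 := by
    rintro ⟨i, a, b⟩
    rw [Matrix.mul_smul]
    unfold dfam
    simp only
    rw [← (hF3 ⟨i, a⟩ (cs_yc N (Q₁ ⟨i, a⟩) k)).1]
    by_cases h2 : (⟨i, a⟩ : Σ i, X i) = ⟨i₀, a₀⟩
    · rw [if_pos h2]
      obtain ⟨rfl, h3⟩ := Sigma.mk.inj_iff.1 h2
      obtain rfl := eq_of_heq h3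
      simp only [← Matrix.mul_assoc]
      rw [M.mul]
    · rw [if_neg h2]
      simp only [← Matrix.mul_assoc]
      rw [M.mul0 _ _ _ _ _ _ (fun h3 => h2 h3.symm)]
      simp
  have h2 : ∑ q : Σ i, X i × X i, (if (⟨q.1, q.2.1⟩ : Σ i, X i) = ⟨i₀, a₀⟩ then
      c q • dfam M Q₁ F' (q, k) else 0) = 0 := by
    rw [← Finset.sum_congr rfl fun q _ => h1 q, ← Finset.mul_sum, hc, Matrix.mul_zero]
  rw [Fintype.sum_sigma, Finset.sum_eq_single i₀, Fintype.sum_prod_type,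
    Finset.sum_eq_single a₀] at h2
  rotate_left
  · intro a _ ha
    refine Finset.sum_eq_zero fun b _ => ?_
    rw [if_neg]
    intro h3
    exact ha (eq_of_heq (Sigma.mk.inj_iff.1 h3).2)
  · intro h3
    exact absurd (Finset.mem_univ _) h3
  · intro i _ hi
    refine Finset.sum_eq_zero fun b _ => ?_
    rw [if_neg]
    intro h3
    exact hi (Sigma.mk.inj_iff.1 h3).1
  · intro h3
    exact absurd (Finset.mem_univ _) h3
  simp only [if_true] at h2
  obtain ⟨u', hu, -⟩ := hF2 ⟨i₀, a₀⟩ (cs_yc N (Q₁ ⟨i₀, a₀⟩) k)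
  have hT := h.unit (cs_rc N (Q₁ ⟨i₀, a₀⟩) k).out
  have h3 : (F' ⟨i₀, a₀⟩).T (cs_yc N (Q₁ ⟨i₀, a₀⟩) k) *
      (∑ b, c ⟨i₀, a₀, b⟩ • M.E i₀ a₀ b) * F.T (cs_rc N (Q₁ ⟨i₀, a₀⟩) k).out = 0 := by
    rw [← h2, Finset.mul_sum, Finset.sum_mul]
    refine Finset.sum_congr rfl fun b _ => ?_
    rw [Matrix.mul_smul, Matrix.smul_mul]
    rfl
  have h4 := (hT.mul_left_eq_zero).1 h3
  have h5 := congrArg (fun z => u' * z) h4
  rw [Matrix.mul_zero, ← Matrix.mul_assoc, hu] at h5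
  simp only at h5
  have h6 : ∑ b, c ⟨i₀, a₀, b⟩ • M.E i₀ a₀ b = 0 := by
    rw [← h5, Finset.mul_sum]
    refine Finset.sum_congr rfl fun b _ => ?_
    rw [Matrix.mul_smul, M.mul]
  have h7 := congrArg (fun z => z * M.E i₀ b₀ b₀) h6
  rw [Matrix.zero_mul, Finset.sum_mul, Finset.sum_eq_single b₀, Matrix.smul_mul, M.mul] at h7
  rotate_left
  · intro b _ hb
    rw [Matrix.smul_mul, M.mul0, smul_zero]
    intro h8
    exact hb (eq_of_heq (Sigma.mk.inj_iff.1 h8).2)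
  · intro h8
    exact absurd (Finset.mem_univ _) h8
  exact (smul_eq_zero.1 h7).resolve_right (M.ne _ _ _)

private def sc_equiv {S K : Type} (k : K) : {j : S × K // j.2 = k} ≃ S where
  toFun j := j.1.1
  invFun q := ⟨(q, k), rfl⟩
  left_inv := by
    rintro ⟨⟨q, k'⟩, rfl⟩
    rfl
  right_inv _ := rfl

private theorem sc_card_coset [N.Normal] (k : Q ⧸ N) :
    Nat.card {g : Q // (g : Q ⧸ N) = k} = Nat.card N := by
  refine Nat.card_congr
    { toFun := fun g => ⟨(g : Q) * k.out⁻¹, (cs_mem_coset N g.1 k).1 g.2⟩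
      invFun := fun x => ⟨(x : Q) * k.out, (cs_mem_coset N _ k).2 (by
        rw [mul_inv_cancel_right]
        exact x.2)⟩
      left_inv := fun g => Subtype.ext (by simp)
      right_inv := fun x => Subtype.ext (by simp) }

private theorem sc_card_fam (M : MUnits F N I X) {K : Type} (k : K) :
    Nat.card {j : (Σ i, X i × X i) × K // j.2 = k} = Nat.card N := by
  rw [Nat.card_congr (sc_equiv k), ← M.card, Nat.card_eq_fintype_card, Fintype.card_sigma]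
  exact Finset.sum_congr rfl fun i _ => Fintype.card_prod _ _

/-- PROOF. `exists_change` with `b = F.T`, `π g` = the class of `g`, `ρ j = j.2`. `h1`: for
`k = j.2`, `x = k.out * t.out⁻¹ ∈ Q₁`, `t = rc k`, `F'.T (class of x) = e * y * T x * e` (`hF1`), so
`d j = e * y * T x * e * E i a b * T t.out`, all factors except `T x`, `T t.out` in `spN`, so it is
`y' * T x * T t.out` (`spN_conj'`, `spN_conj`), `y' ∈ spN`, a combination of `T (n * k.out)`, `n ∈ N`.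
`h2`: let `∑_{(i,a,b)} c (i,a,b) • d (i,a,b,k) = 0`; multiply from the left by `E i a a`: only the terms
with this `(i, a)` remain (`E i a a * F'.T = F'.T`, and `E i a a * E j c c = 0`), then by the inverse
`u'` of `F'.T (yc k)` (`hF2`), then from the right by `(T t.out)⁻¹`: `∑_b c (i,a,b) • E i a b = 0`.
`h3`: both are `|N|` (`MUnits.card`; the coset `k`). -/
theorem exists_UU (h : Rg F) [N.Normal] [Fintype (Q ⧸ N)] (M : MUnits F N I X) (Q₁ : (Σ i, X i) → Subgroup Q)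
    (F' : ∀ p, TFam (Q₁ p ⧸ N.subgroupOf (Q₁ p)) Q) (hN : ∀ p, N ≤ Q₁ p)
    (hF1 : ∀ (p : Σ i, X i) (x : Q₁ p), ∃ y ∈ spN F N,
      (F' p).T (x : Q₁ p ⧸ N.subgroupOf (Q₁ p)) =
        M.E p.1 p.2 p.2 * y * F.T (x : Q) * M.E p.1 p.2 p.2)
    (hF2 : ∀ (p : Σ i, X i) x, ∃ u' : Matrix Q Q ℂ, u' * (F' p).T x = M.E p.1 p.2 p.2 ∧
      (F' p).T x * u' = M.E p.1 p.2 p.2)
    (hF3 : ∀ (p : Σ i, X i) x, M.E p.1 p.2 p.2 * (F' p).T x = (F' p).T x ∧
      (F' p).T x * M.E p.1 p.2 p.2 = (F' p).T x) :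
    ∃ (U : Matrix Q ((Σ i, X i × X i) × (Q ⧸ N)) ℂ)
      (U' : Matrix ((Σ i, X i × X i) × (Q ⧸ N)) Q ℂ),
      (∀ j, dfam M Q₁ F' j = ∑ g, U g j • F.T g) ∧
      (∀ g, F.T g = ∑ j, U' j g • dfam M Q₁ F' j) ∧ Blk (Nat.card N) U ∧ Blk (Nat.card N) U' := by
  classical
  have k2 : ∀ k : Q ⧸ N, LinearIndependent ℂ
      (fun j : {j : (Σ i, X i × X i) × (Q ⧸ N) // j.2 = k} => dfam M Q₁ F' j) := by
    intro k
    have h1 := sc_indep h M Q₁ F' hF2 hF3 k
    have h2 := (linearIndependent_equiv (sc_equiv k)).2 h1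
    have h3 : (fun j : {j : (Σ i, X i × X i) × (Q ⧸ N) // j.2 = k} => dfam M Q₁ F' j) =
        (fun q : Σ i, X i × X i => dfam M Q₁ F' (q, k)) ∘ (sc_equiv k) := by
      funext j
      obtain ⟨⟨q, k'⟩, rfl⟩ := j
      rfl
    rw [h3]
    exact h2
  have k3 : ∀ k : Q ⧸ N, Nat.card {j : (Σ i, X i × X i) × (Q ⧸ N) // j.2 = k} =
      Nat.card {g : Q // (g : Q ⧸ N) = k} := by
    intro k
    rw [sc_card_fam M k, sc_card_coset k]
  obtain ⟨U, U', hU, hU', hb, hb'⟩ := exists_change F.T F.indep (dfam M Q₁ F')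
    (fun g : Q => (g : Q ⧸ N)) (fun j => j.2) (sc_mem h M Q₁ F' hF1) k2 k3
  refine ⟨U, U', hU, hU', ?_, ?_⟩
  · refine ⟨Q ⧸ N, fun g => (g : Q ⧸ N), fun j => j.2, fun l => ?_, fun l => ?_, hb⟩
    · have h1 := sc_card_coset (N := N) l
      rw [← h1]
      exact le_refl _
    · have h1 := sc_card_fam M l
      rw [← h1]
      exact le_refl _
  · refine ⟨Q ⧸ N, fun j => j.2, fun g => (g : Q ⧸ N), fun l => ?_, fun l => ?_, hb'⟩
    · have h1 := sc_card_fam M l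
      rw [← h1]
      exact le_refl _
    · have h1 := sc_card_coset (N := N) l
      rw [← h1]
      exact le_refl _

end

end MP0775d3.Cf
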