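import Pool.Agent.Lib.MP_0775d3_lc.Cf.Class
import Pool.Agent.Lib.MP_0775d3_lc.SG.GdWr

/-! The groups of wreath type, from `Sg.gd_wr`. -/

set_option linter.unusedSectionVars false
set_option linter.unusedVariables false

namespace MP0775d3.Cf

open Matrix MP0775d3.Sl2 MP0775d3.Sg

/-- PROOF. `Sg.gd_wr`. -/
theorem sym_gd (d : ℝ) (hd : 0 < d) : ∃ t : ℕ, 1 ≤ t ∧ ∀ e : ℝ, 0 < e → ∃ h : ℝ, 0 < h ∧
    ∃ n₀ : ℕ, ∀ (G : Type) [Group G] [Finite G], n₀ ≤ Nat.card G →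
      IsSymType ((Nat.card G : ℝ) ^ h) G →
      GD ((Nat.card G : ℝ) ^ (1 + e)) ((Nat.card G : ℝ) ^ d) ((Nat.card G : ℝ) ^ d) t G := by
  obtain ⟨t, ht1, ht⟩ := gd_wr d hd
  refine ⟨t, ht1, fun e he => ?_⟩
  obtain ⟨h, hh, n₀, H⟩ := ht e he
  exact ⟨h, hh, n₀, fun G _ _ hn hG => H G hG.isWrType hn⟩

end MP0775d3.Cf
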